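import Mathlib

set_option autoImplicit false
set_option linter.unusedSectionVars false

/-!
# Differentiation at zero of polynomials with nonnegative coefficients
-/

namespace Pool.Agent.H71K9.PM

open MvPolynomial

variable {σ : Type*} [DecidableEq σ]

/-- substitute `x_i = 0` -/
noncomputable def E (i : σ) : MvPolynomial σ ℝ →ₐ[ℝ] MvPolynomial σ ℝ :=
  aeval (fun j => if j = i then 0 else X j)

/-- the derivative with respect to `x_i` at `x_i = 0` -/
noncomputable def D (i : σ) (p : MvPolynomial σ ℝ) : MvPolynomial σ ℝ := E i (pderiv i p)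

lemma E_X_self (i : σ) : E i (X i) = 0 := by simp [E]
lemma E_X_ne {i j : σ} (h : j ≠ i) : E i (X j) = X j := by simp [E, h]
lemma E_C (i : σ) (a : ℝ) : E i (C a) = C a := by simp [E]

lemma E_monomial (i : σ) (s : σ →₀ ℕ) (a : ℝ) :
    E i (monomial s a) = if s i = 0 then monomial s a else 0 := by
  rw [E, aeval_monomial]
  split_ifs with h
  · have : (s.prod fun j k => (if j = i then (0 : MvPolynomial σ ℝ) else X j) ^ k) =
        s.prod fun j k => X j ^ k := by
      apply Finsupp.prod_congr
      intro j hj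
      have : j ≠ i := by
        rintro rfl
        exact (Finsupp.mem_support_iff.1 hj) h
      simp [this]
    rw [this, monomial_eq]
    rfl
  · have : (s.prod fun j k => (if j = i then (0 : MvPolynomial σ ℝ) else X j) ^ k) = 0 := by
      rw [Finsupp.prod]
      apply Finset.prod_eq_zero (i := i) (Finsupp.mem_support_iff.2 h)
      simp [h]
    rw [this, mul_zero]

lemma coeff_E (i : σ) (p : MvPolynomial σ ℝ) (m : σ →₀ ℕ) :
    coeff m (E i p) = if m i = 0 then coeff m p else 0 := by
  induction p using MvPolynomial.induction_on' with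
  | add p q hp hq =>
    rw [map_add, coeff_add, hp, hq, coeff_add]
    split_ifs <;> simp
  | monomial n a =>
    rw [E_monomial]
    by_cases h : n = m
    · subst h
      split_ifs <;> simp
    · split_ifs <;> simp [coeff_monomial, h]

lemma coeff_D (i : σ) (p : MvPolynomial σ ℝ) (m : σ →₀ ℕ) :
    coeff m (D i p) = if m i = 0 then coeff (m + Finsupp.single i 1) p else 0 := by
  rw [D, coeff_E, coeff_pderiv]
  split_ifs with h
  · simp [h]
  · rfl

lemma D_add (i : σ) (p q : MvPolynomial σ ℝ) : D i (p + q) = D i p + D i q := by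
  simp [D]

lemma D_mul (i : σ) (p q : MvPolynomial σ ℝ) :
    D i (p * q) = D i p * E i q + E i p * D i q := by
  rw [D, pderiv_mul, map_add, map_mul, map_mul]; rfl

lemma D_C_mul (i : σ) (a : ℝ) (q : MvPolynomial σ ℝ) :
    D i (C a * q) = C a * D i q := by
  simp [D]

lemma D_pow (i : σ) (p : MvPolynomial σ ℝ) (n : ℕ) :
    D i (p ^ n) = (n : MvPolynomial σ ℝ) * (E i p) ^ (n - 1) * D i p := by
  rw [D, pderiv_pow, map_mul, map_mul, map_pow, map_natCast]; rfl

lemma D_X_self (i : σ) : D i (X i) = 1 := by simp [D]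
lemma D_X_ne {i j : σ} (h : j ≠ i) : D i (X j) = 0 := by simp [D, pderiv_X_of_ne h]
lemma D_C (i : σ) (a : ℝ) : D i (C a) = 0 := by simp [D]

/-- nonnegative coefficients -/
def NN (p : MvPolynomial σ ℝ) : Prop := ∀ m, 0 ≤ coeff m p

lemma NN.D {p : MvPolynomial σ ℝ} (h : NN p) (i : σ) : NN (D i p) := by
  intro m
  rw [coeff_D]
  split_ifs
  · exact h _
  · exact le_rfl

lemma NN.E {p : MvPolynomial σ ℝ} (h : NN p) (i : σ) : NN (E i p) := by
  intro m
  rw [coeff_E]
  split_ifs
  · exact h _
  · exact le_rfl

lemma degreeOf_D (i j : σ) (p : MvPolynomial σ ℝ) : degreeOf j (D i p) ≤ degreeOf j p := by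
  rw [degreeOf_le_iff]
  intro m hm
  rw [mem_support_iff, coeff_D] at hm
  split_ifs at hm with h
  · have h1 := monomial_le_degreeOf j (mem_support_iff.2 hm)
    refine le_trans ?_ h1
    simp
  · exact absurd rfl hm

lemma E_of_degreeOf {i : σ} {p : MvPolynomial σ ℝ} (h : degreeOf i p = 0) : E i p = p := by
  ext m
  rw [coeff_E]
  split_ifs with hm
  · rfl
  · by_contra hc
    have h1 := monomial_le_degreeOf i (mem_support_iff.2 (fun h0 => hc h0.symm))
    exact hm (Nat.le_zero.1 (h ▸ h1))

lemma D_of_degreeOf {i : σ} {p : MvPolynomial σ ℝ} (h : degreeOf i p = 0) : D i p = 0 := by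
  ext m
  rw [coeff_D]
  split_ifs with hm
  · by_contra hc
    have h1 := monomial_le_degreeOf i (mem_support_iff.2 hc)
    rw [h] at h1
    simp at h1
  · simp

lemma D_hom {p : MvPolynomial σ ℝ} {N : ℕ} (h : p.IsHomogeneous N) (i : σ) :
    (D i p).IsHomogeneous (N - 1) := by
  have h1 : (pderiv i p).IsHomogeneous (N - 1) := h.pderiv
  have h2 := h1.aeval (fun j => if j = i then (0 : MvPolynomial σ ℝ) else X j) (n := 1)
    (fun j => by
      split_ifs
      · exact isHomogeneous_zero _ _ _
      · exact isHomogeneous_X _ _)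
  rw [one_mul] at h2
  exact h2

/-- evaluation at positive reals of a nonzero polynomial with nonnegative coefficients -/
lemma NN.eval_pos {p : MvPolynomial σ ℝ} (h : NN p) (hp : p ≠ 0) (x : σ → ℝ)
    (hx : ∀ i, 0 < x i) : 0 < eval x p := by
  rw [eval_eq]
  apply Finset.sum_pos
  · intro m hm
    apply mul_pos
    · exact lt_of_le_of_ne (h m) (Ne.symm (mem_support_iff.1 hm))
    · exact Finset.prod_pos fun i _ => pow_pos (hx i) _
  · rw [Finset.nonempty_iff_ne_empty]
    intro h0
    exact hp (support_eq_empty.1 h0)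

lemma NN.eval_nonneg {p : MvPolynomial σ ℝ} (h : NN p) (x : σ → ℝ)
    (hx : ∀ i, 0 ≤ x i) : 0 ≤ eval x p := by
  rw [eval_eq]
  apply Finset.sum_nonneg
  intro m _
  apply mul_nonneg (h m)
  exact Finset.prod_nonneg fun i _ => pow_nonneg (hx i) _

lemma NN.eval_mono {p : MvPolynomial σ ℝ} (h : NN p) (x y : σ → ℝ)
    (hx : ∀ i, 0 ≤ x i) (hxy : ∀ i, x i ≤ y i) : eval x p ≤ eval y p := by
  rw [eval_eq, eval_eq]
  apply Finset.sum_le_sum
  intro m _
  apply mul_le_mul_of_nonneg_left _ (h m)
  exact Finset.prod_le_prod (fun i _ => pow_nonneg (hx i) _)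
    fun i _ => pow_le_pow_left₀ (hx i) (hxy i) _

/-- the one-variable polynomial in `x_i` -/
noncomputable def sl {B : Type*} [CommRing B] [Algebra ℝ B] (i : σ) (y : σ → B) :
    MvPolynomial σ ℝ →ₐ[ℝ] Polynomial B :=
  aeval (fun j => if j = i then Polynomial.X else Polynomial.C (y j))

lemma eval_sl {B : Type*} [CommRing B] [Algebra ℝ B] (i : σ) (y : σ → B) (t : B)
    (p : MvPolynomial σ ℝ) : (sl i y p).eval t = aeval (Function.update y i t) p := by
  induction p using MvPolynomial.induction_on with
  | C a => simp [sl, Polynomial.algebraMap_apply]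
  | add p q hp hq => simp [hp, hq]
  | mul_X p j hp =>
    rw [map_mul, Polynomial.eval_mul, hp, map_mul]
    congr 1
    by_cases h : j = i
    · subst h; simp [sl]
    · simp [sl, h]

lemma sl_congr {B : Type*} [CommRing B] [Algebra ℝ B] (i : σ) (y : σ → B) (t : B) :
    sl i (Function.update y i t) = sl i y := by
  unfold sl
  congr 1
  funext j
  by_cases h : j = i
  · simp [h]
  · simp [h]

lemma aeval_E {B : Type*} [CommRing B] [Algebra ℝ B] (i : σ) (y : σ → B)
    (p : MvPolynomial σ ℝ) : aeval y (E i p) = aeval (Function.update y i 0) p := by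
  induction p using MvPolynomial.induction_on with
  | C a => simp [E]
  | add p q hp hq => simp [hp, hq]
  | mul_X p j hp =>
    rw [map_mul, map_mul, hp, map_mul]
    congr 1
    by_cases h : j = i
    · subst h; simp [E]
    · simp [E, h]

lemma derivative_sl {B : Type*} [CommRing B] [Algebra ℝ B] (i : σ) (y : σ → B)
    (p : MvPolynomial σ ℝ) : Polynomial.derivative (sl i y p) = sl i y (pderiv i p) := by
  induction p using MvPolynomial.induction_on with
  | C a => simp [sl, Polynomial.algebraMap_apply]
  | add p q hp hq => simp [hp, hq]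
  | mul_X p j hp =>
    rw [map_mul, Polynomial.derivative_mul, hp, pderiv_mul, map_add, map_mul, map_mul]
    congr 1
    by_cases h : j = i
    · subst h; simp [sl]
    · simp [sl, h, pderiv_X_of_ne h]

lemma coeff_zero_sl {B : Type*} [CommRing B] [Algebra ℝ B] (i : σ) (y : σ → B)
    (p : MvPolynomial σ ℝ) : (sl i y p).coeff 0 = aeval y (E i p) := by
  rw [Polynomial.coeff_zero_eq_eval_zero, eval_sl, aeval_E]

lemma coeff_one_sl {B : Type*} [CommRing B] [Algebra ℝ B] (i : σ) (y : σ → B)
    (p : MvPolynomial σ ℝ) : (sl i y p).coeff 1 = aeval y (D i p) := by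
  have h := Polynomial.coeff_derivative (sl i y p) 0
  rw [derivative_sl, coeff_zero_sl] at h
  simp at h
  rw [h.symm, D]

lemma coeff_sl_nonneg {p : MvPolynomial σ ℝ} (hp : NN p) (i : σ) (y : σ → ℝ)
    (hy : ∀ j, 0 ≤ y j) (k : ℕ) : 0 ≤ (sl i y p).coeff k := by
  rw [sl, aeval_def, eval₂_eq, Polynomial.finsetSum_coeff]
  apply Finset.sum_nonneg
  intro m _
  have key : ∀ s : Finset σ, ∀ k, 0 ≤ (∏ j ∈ s,
      (if j = i then Polynomial.X else Polynomial.C (y j)) ^ m j : Polynomial ℝ).coeff k := by
    intro s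
    induction s using Finset.induction_on with
    | empty =>
      intro k
      rw [Finset.prod_empty, Polynomial.coeff_one]
      split_ifs <;> norm_num
    | insert a s ha ih =>
      intro k
      rw [Finset.prod_insert ha]
      split_ifs with hai
      · rw [mul_comm, Polynomial.coeff_mul_X_pow']
        split_ifs
        · exact ih _
        · exact le_rfl
      · rw [← Polynomial.C_pow, Polynomial.coeff_C_mul]
        exact mul_nonneg (pow_nonneg (hy a) _) (ih k)
  rw [Polynomial.algebraMap_apply, Polynomial.coeff_C_mul]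
  exact mul_nonneg (hp m) (key _ k)

lemma natDegree_sl {B : Type*} [CommRing B] [Algebra ℝ B] (i : σ) (y : σ → B)
    (p : MvPolynomial σ ℝ) : (sl i y p).natDegree ≤ degreeOf i p := by
  rw [sl, aeval_def, eval₂_eq]
  apply Polynomial.natDegree_sum_le_of_forall_le
  intro m hm
  have h1 : m i ≤ degreeOf i p := monomial_le_degreeOf i hm
  rw [Polynomial.algebraMap_apply]
  refine (Polynomial.natDegree_C_mul_le _ _).trans ?_
  refine (Polynomial.natDegree_prod_le _ _).trans ?_
  refine le_trans ?_ h1
  calc ∑ j ∈ m.support, ((if j = i then Polynomial.X else Polynomial.C (y j)) ^ m j :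
        Polynomial B).natDegree ≤ ∑ j ∈ m.support, if j = i then m i else 0 := by
        apply Finset.sum_le_sum
        intro j _
        split_ifs with h
        · rw [h]
          exact Polynomial.natDegree_X_pow_le _
        · rw [← Polynomial.C_pow, Polynomial.natDegree_C]
    _ ≤ m i := by
        rw [Finset.sum_ite_eq']
        split_ifs <;> omega

end Pool.Agent.H71K9.PM
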