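import Mathlib
import Pool.Agent.H71K9.Stable

set_option autoImplicit false
set_option linter.unusedSectionVars false

/-!
# Stable homogeneous polynomials with nonnegative coefficients
-/

namespace Pool.Agent.H71K9.PM

open MvPolynomial

variable {σ : Type*} [DecidableEq σ] [Finite σ]

/-- a homogeneous polynomial with nonnegative coefficients without zeros in the product of the right
half planes -/
structure Nice (p : MvPolynomial σ ℝ) : Prop where
  nn : NN p
  hom : ∃ N, p.IsHomogeneous N
  stable : ∀ z : σ → ℂ, (∀ i, 0 < (z i).re) → aeval z p ≠ (0 : ℂ)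

lemma aeval_smul_hom {B : Type*} [CommRing B] [Algebra ℝ B] {p : MvPolynomial σ ℝ} {N : ℕ}
    (h : p.IsHomogeneous N) (c : B) (z : σ → B) :
    aeval (fun i => c * z i) p = c ^ N * aeval z p := by
  rw [aeval_def, aeval_def, eval₂_eq, eval₂_eq, Finset.mul_sum]
  apply Finset.sum_congr rfl
  intro m hm
  have h1 : ∑ i ∈ m.support, m i = N := (h.degree_eq_sum_deg_support hm).symm
  rw [← h1, ← Finset.prod_pow_eq_pow_sum]
  rw [mul_left_comm, ← Finset.prod_mul_distrib]
  simp only [mul_pow]

lemma Nice.ne_zero {p : MvPolynomial σ ℝ} (h : Nice p) : p ≠ 0 := by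
  rintro rfl
  exact h.stable (fun _ => 1) (fun _ => by simp) (by simp)

lemma aeval_ofReal (p : MvPolynomial σ ℝ) (x : σ → ℝ) :
    aeval (fun i => (x i : ℂ)) p = ((eval x p : ℝ) : ℂ) := by
  induction p using MvPolynomial.induction_on with
  | C a => simp
  | add p q hp hq => simp [hp, hq]
  | mul_X p j hp => rw [map_mul, hp, map_mul]; simp

/-- nonzero if all coordinates have positive real parts after multiplication with some number -/
lemma Nice.ne_of_mul {p : MvPolynomial σ ℝ} (h : Nice p) (c : ℂ) (z : σ → ℂ)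
    (hz : ∀ i, 0 < (c * z i).re) : aeval z p ≠ (0 : ℂ) := by
  obtain ⟨N, hN⟩ := h.hom
  intro h0
  apply h.stable _ hz
  rw [aeval_smul_hom hN, h0, mul_zero]

lemma Nice.root_re {p : MvPolynomial σ ℝ} (h : Nice p) (i : σ) (y : σ → ℂ)
    (hy : ∀ j, 0 < (y j).re) (t : ℂ) (ht : t ≠ 0) (hr : (sl i y p).IsRoot t) : t.re < 0 := by
  by_contra hc
  rw [not_lt] at hc
  rw [Polynomial.IsRoot, eval_sl] at hr
  rcases hc.lt_or_eq with hc | hc
  · refine h.stable _ (fun j => ?_) hr
    by_cases hj : j = i
    · subst hj; simpa using hc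
    · simpa [hj] using hy j
  · have hτ : t.im ≠ 0 := by
      intro h0
      exact ht (Complex.ext hc.symm h0)
    have key : ∃ ε : ℝ, 0 < ε ∧ ∀ j, 0 < (y j).re + ε * (t.im * (y j).im) := by
      have h1 : ∀ j, ∀ᶠ ε in nhdsWithin (0 : ℝ) (Set.Ioi 0),
          0 < (y j).re + ε * (t.im * (y j).im) := by
        intro j
        have h2 : Filter.Tendsto (fun ε : ℝ => (y j).re + ε * (t.im * (y j).im)) (nhds 0)
            (nhds ((y j).re + 0 * (t.im * (y j).im))) := by
          apply Continuous.tendsto
          fun_prop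
        rw [zero_mul, add_zero] at h2
        exact (h2.mono_left nhdsWithin_le_nhds).eventually (lt_mem_nhds (hy j))
      have h3 := (Filter.eventually_all.2 h1).and
        (eventually_mem_nhdsWithin (a := (0 : ℝ)) (s := Set.Ioi 0))
      obtain ⟨ε, h4, h5⟩ := h3.exists
      exact ⟨ε, h5, h4⟩
    obtain ⟨ε, hε, hk⟩ := key
    refine h.ne_of_mul (1 - Complex.I * (ε * t.im)) _ (fun j => ?_) hr
    by_cases hj : j = i
    · subst hj
      simp only [Function.update_self, Complex.mul_re, Complex.sub_re, Complex.one_re,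
        Complex.I_re, Complex.ofReal_re, Complex.sub_im, Complex.one_im,
        Complex.mul_im, Complex.I_im, Complex.ofReal_im]
      rw [← hc]
      have : 0 < ε * t.im ^ 2 := by positivity
      nlinarith
    · simp only [Function.update_of_ne hj, Complex.mul_re, Complex.sub_re, Complex.one_re,
        Complex.I_re, Complex.ofReal_re, Complex.sub_im, Complex.one_im,
        Complex.mul_im, Complex.I_im, Complex.ofReal_im]
      have := hk j
      nlinarith

/-- roots in one variable for positive real values of the others are real and nonpositive -/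
lemma Nice.root_real {p : MvPolynomial σ ℝ} (h : Nice p) (i : σ) (x : σ → ℝ)
    (hx : ∀ j, 0 < x j) (t : ℂ) (hr : (sl i (fun j => (x j : ℂ)) p).IsRoot t) :
    t.im = 0 ∧ t.re ≤ 0 := by
  by_contra hc
  -- the square root of `conj t` works
  rw [Polynomial.IsRoot, eval_sl] at hr
  have hne : t ≠ 0 := by
    rintro rfl
    exact hc (by simp)
  have key : ∃ c : ℂ, 0 < c.re ∧ 0 < (c * t).re := by
    refine ⟨(‖t‖ : ℂ) + (starRingEnd ℂ) t, ?_, ?_⟩
    · simp only [Complex.add_re, Complex.ofReal_re, Complex.conj_re]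
      have h1 : |t.re| ≤ ‖t‖ := Complex.abs_re_le_norm t
      rcases h1.lt_or_eq with h1 | h1
      · have := abs_lt.1 h1; linarith
      · have h2 : t.im = 0 := Complex.abs_re_eq_norm.1 h1
        have h3 : 0 < t.re := by
          by_contra h4
          exact hc ⟨h2, not_lt.1 h4⟩
        have : 0 ≤ ‖t‖ := norm_nonneg t
        linarith
    · have h1 : |t.re| ≤ ‖t‖ := Complex.abs_re_le_norm t
      have h0 : 0 < ‖t‖ := norm_pos_iff.2 hne
      have e : (((‖t‖ : ℂ) + (starRingEnd ℂ) t) * t).re = ‖t‖ * (t.re + ‖t‖) := by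
        rw [add_mul, ← Complex.normSq_eq_conj_mul_self]
        simp only [Complex.add_re, Complex.mul_re, Complex.ofReal_re, Complex.ofReal_im]
        rw [Complex.normSq_eq_norm_sq]
        ring
      rw [e]
      apply mul_pos h0
      rcases h1.lt_or_eq with h1 | h1
      · have := abs_lt.1 h1; linarith
      · have h2 : t.im = 0 := Complex.abs_re_eq_norm.1 h1
        have h3 : 0 < t.re := by
          by_contra h4
          exact hc ⟨h2, not_lt.1 h4⟩
        linarith
  obtain ⟨c, hc1, hc2⟩ := key
  refine h.ne_of_mul c _ (fun j => ?_) hr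
  by_cases hj : j = i
  · subst hj
    simpa using hc2
  · rw [Function.update_of_ne hj, Complex.re_mul_ofReal]
    exact mul_pos hc1 (hx j)

lemma norm_eval_mono (q : Polynomial ℂ) (hq : ∀ ρ, q.IsRoot ρ → ρ.re = 0) :
    ‖q.eval 0‖ ≤ ‖q.eval 1‖ := by
  by_cases h0 : q = 0
  · simp [h0]
  have hs := IsAlgClosed.splits q
  rw [hs.eval_eq_prod_roots, hs.eval_eq_prod_roots, norm_mul, norm_mul]
  apply mul_le_mul_of_nonneg_left _ (norm_nonneg _)
  have key : ∀ s : Multiset ℂ, (∀ ρ ∈ s, ρ.re = 0) →
      ‖(s.map (fun ρ => 0 - ρ)).prod‖ ≤ ‖(s.map (fun ρ => 1 - ρ)).prod‖ := by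
    intro s
    induction s using Multiset.induction_on with
    | empty => simp
    | cons a s ih =>
      intro hs
      rw [Multiset.map_cons, Multiset.prod_cons, Multiset.map_cons, Multiset.prod_cons,
        norm_mul, norm_mul]
      apply mul_le_mul _ (ih fun ρ hρ => hs ρ (Multiset.mem_cons_of_mem hρ)) (norm_nonneg _)
        (norm_nonneg _)
      have h1 := hs a (Multiset.mem_cons_self a s)
      rw [← sq_le_sq₀ (norm_nonneg _) (norm_nonneg _), ← Complex.normSq_eq_norm_sq,
        ← Complex.normSq_eq_norm_sq, Complex.normSq_apply, Complex.normSq_apply]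
      simp [h1]
  exact key _ fun ρ hρ => hq ρ ((Polynomial.mem_roots h0).1 hρ)

lemma eval_line (a b : σ → ℂ) (u : ℂ) (p : MvPolynomial σ ℝ) :
    (aeval (fun i => Polynomial.C (a i) + Polynomial.C (b i) * Polynomial.X) p).eval u =
      aeval (fun i => a i + b i * u) p := by
  induction p using MvPolynomial.induction_on with
  | C a => simp [Polynomial.algebraMap_apply]
  | add p q hp hq => simp [hp, hq]
  | mul_X p j hp => rw [map_mul, Polynomial.eval_mul, hp, map_mul]; simp

lemma Nice.norm_ge {p : MvPolynomial σ ℝ} (h : Nice p) (z : σ → ℂ)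
    (hz : ∀ i, 0 < (z i).re) : eval (fun i => (z i).re) p ≤ ‖(aeval z p : ℂ)‖ := by
  set x : σ → ℝ := fun i => (z i).re with hx
  let q : Polynomial ℂ := aeval (fun i => Polynomial.C (x i : ℂ) +
    Polynomial.C (Complex.I * (z i).im) * Polynomial.X) p
  have hev : ∀ u : ℂ, q.eval u = aeval (fun i => (x i : ℂ) + Complex.I * (z i).im * u) p :=
    fun u => eval_line _ _ u p
  have h0 : q.eval 0 = ((eval x p : ℝ) : ℂ) := by
    rw [hev, ← aeval_ofReal]
    simp
  have h1 : q.eval 1 = aeval z p := by
    rw [hev]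
    congr 2
    funext i
    rw [mul_one, mul_comm]
    exact Complex.re_add_im (z i)
  have h2 : ∀ ρ, q.IsRoot ρ → ρ.re = 0 := by
    intro ρ hρ
    rw [Polynomial.IsRoot, hev] at hρ
    by_contra hc
    have hne : ρ ≠ 0 := by
      rintro rfl
      simp at hc
    have hn : 0 < Complex.normSq ρ := Complex.normSq_pos.2 hne
    have hinv : (ρ⁻¹).re = ρ.re / Complex.normSq ρ := Complex.inv_re ρ
    have e : ∀ i, ρ⁻¹ * ((x i : ℂ) + Complex.I * (z i).im * ρ) =
        ρ⁻¹ * (x i : ℂ) + Complex.I * (z i).im := by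
      intro i
      field_simp
    rcases lt_or_gt_of_ne hc with hc | hc
    · refine h.ne_of_mul (-ρ⁻¹) _ (fun i => ?_) hρ
      rw [neg_mul, e i, Complex.neg_re, Complex.add_re, Complex.re_mul_ofReal, hinv]
      simp only [Complex.mul_re, Complex.I_re, Complex.ofReal_re, zero_mul, Complex.I_im,
        Complex.ofReal_im, mul_zero, sub_zero, add_zero]
      rw [← neg_mul, ← neg_div]
      exact mul_pos (div_pos (neg_pos.2 hc) hn) (hz i)
    · refine h.ne_of_mul (ρ⁻¹) _ (fun i => ?_) hρ
      rw [e i, Complex.add_re, Complex.re_mul_ofReal, hinv]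
      simp only [Complex.mul_re, Complex.I_re, Complex.ofReal_re, zero_mul, Complex.I_im,
        Complex.ofReal_im, mul_zero, sub_zero, add_zero]
      exact mul_pos (div_pos hc hn) (hz i)
  have h3 := norm_eval_mono q h2
  rw [h0, h1, Complex.norm_real] at h3
  exact (le_abs_self _).trans h3

/-- `D` preserves nonvanishing -/
lemma Nice.D {p : MvPolynomial σ ℝ} (h : Nice p) (i : σ) (hD : D i p ≠ 0) : Nice (D i p) := by
  refine ⟨h.nn.D i, ?_, ?_⟩
  · obtain ⟨N, hN⟩ := h.hom
    exact ⟨_, D_hom hN i⟩
  intro y hy h0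
  set x : σ → ℝ := fun j => (y j).re with hx
  set r := sl i y p with hr
  set f := sl i x p with hf
  have hr1 : r.coeff 1 = 0 := by rw [hr, coeff_one_sl, h0]
  have hf1 : 0 < f.coeff 1 := by
    rw [hf, coeff_one_sl]
    exact (h.nn.D i).eval_pos hD x hy
  -- growth
  have hgrow : ∀ t : ℝ, 0 < t → f.coeff 1 * t ≤ ‖r.eval (t : ℂ)‖ := by
    intro t ht
    have h1 := h.norm_ge (Function.update y i t) (fun j => by
      by_cases hj : j = i
      · subst hj; simpa using ht
      · simpa [hj] using hy j)
    rw [hr, eval_sl]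
    refine le_trans ?_ h1
    have h2 : (fun j => ((Function.update y i (t : ℂ)) j).re) = Function.update x i t := by
      funext j
      by_cases hj : j = i
      · subst hj; simp
      · simp [hj, hx]
    rw [h2]
    have h3 : eval (Function.update x i t) p = f.eval t := by rw [hf, eval_sl]; rfl
    rw [h3, Polynomial.eval_eq_sum_range]
    have h4 : ∀ k, 0 ≤ f.coeff k * t ^ k := fun k =>
      mul_nonneg (coeff_sl_nonneg h.nn i x (fun j => (hy j).le) k) (pow_nonneg ht.le k)
    have h5 : 1 ∈ Finset.range (f.natDegree + 1) := by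
      rw [Finset.mem_range]
      have : 1 ≤ f.natDegree := Polynomial.le_natDegree_of_ne_zero hf1.ne'
      omega
    have h6 := Finset.single_le_sum (f := fun k => f.coeff k * t ^ k) (fun k _ => h4 k) h5
    simpa using h6
  by_cases hr0 : r.coeff 0 = 0
  · -- `r` is divisible by `X ^ 2`
    have hdvd : Polynomial.X ^ 2 ∣ r := by
      rw [Polynomial.X_pow_dvd_iff]
      intro k hk
      interval_cases k
      · exact hr0
      · exact hr1
    obtain ⟨g, hg⟩ := hdvd
    have h1 : ∀ t : ℝ, 0 < t → f.coeff 1 ≤ t * ‖g.eval (t : ℂ)‖ := by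
      intro t ht
      have h2 := hgrow t ht
      rw [hg, Polynomial.eval_mul, norm_mul, Polynomial.eval_pow, Polynomial.eval_X, norm_pow,
        Complex.norm_real, Real.norm_of_nonneg ht.le] at h2
      have h3 : f.coeff 1 * t ≤ (t * ‖g.eval (t : ℂ)‖) * t := by
        calc _ ≤ _ := h2
          _ = _ := by ring
      exact le_of_mul_le_mul_right h3 ht
    have h2 : Filter.Tendsto (fun t : ℝ => t * ‖g.eval (t : ℂ)‖) (nhdsWithin 0 (Set.Ioi 0))
        (nhds 0) := by
      have h3 : Filter.Tendsto (fun t : ℝ => t * ‖g.eval (t : ℂ)‖) (nhds 0)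
          (nhds (0 * ‖g.eval ((0 : ℝ) : ℂ)‖)) := by
        apply Continuous.tendsto
        have : Continuous fun t : ℝ => g.eval (t : ℂ) :=
          g.continuous.comp Complex.continuous_ofReal
        fun_prop
      rw [zero_mul] at h3
      exact h3.mono_left nhdsWithin_le_nhds
    have h3 := ge_of_tendsto h2 (Filter.eventually_of_mem self_mem_nhdsWithin h1)
    linarith
  · -- the roots are in the left half plane
    have hdeg : 0 < r.degree := by
      by_contra hc
      rw [not_lt] at hc
      have h1 : r = Polynomial.C (r.coeff 0) := Polynomial.eq_C_of_degree_le_zero hc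
      have h2 : ∀ t : ℝ, 0 < t → f.coeff 1 * t ≤ ‖r.coeff 0‖ := by
        intro t ht
        have := hgrow t ht
        rwa [h1, Polynomial.eval_C] at this
      have h3 := h2 ((‖r.coeff 0‖ + 1) / f.coeff 1) (by positivity)
      rw [mul_div_cancel₀ _ hf1.ne'] at h3
      linarith
    have hroot : r.derivative.IsRoot 0 := by
      rw [Polynomial.IsRoot, ← Polynomial.coeff_zero_eq_eval_zero, Polynomial.coeff_derivative]
      simp [hr1]
    have hd0 : r.derivative ≠ 0 := by
      intro h1
      have := Polynomial.natDegree_eq_zero_of_derivative_eq_zero h1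
      rw [← Polynomial.natDegree_pos_iff_degree_pos] at hdeg
      omega
    have hmem : (0 : ℂ) ∈ r.derivative.rootSet ℂ := by
      rw [Polynomial.mem_rootSet]
      refine ⟨hd0, ?_⟩
      simpa [Polynomial.IsRoot] using hroot
    have hconv := Polynomial.rootSet_derivative_subset_convexHull_rootSet hdeg hmem
    have hsub : r.rootSet ℂ ⊆ {w : ℂ | w.re < 0} := by
      intro w hw
      rw [Polynomial.mem_rootSet] at hw
      have hw2 : r.IsRoot w := by simpa [Polynomial.IsRoot] using hw.2
      have hw0 : w ≠ 0 := by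
        rintro rfl
        rw [Polynomial.IsRoot, ← Polynomial.coeff_zero_eq_eval_zero] at hw2
        exact hr0 hw2
      exact h.root_re i y hy w hw0 hw2
    have hc : Convex ℝ {w : ℂ | w.re < 0} := by
      have := (convex_Iio (𝕜 := ℝ) (0 : ℝ)).is_linear_preimage (f := Complex.re)
        ⟨fun a b => Complex.add_re a b, fun c a => by simp⟩
      exact this
    have := convexHull_min hsub hc hconv
    simp at this

end Pool.Agent.H71K9.PM
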