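import Mathlib
import Pool.Agent.H71K9.Nice

set_option autoImplicit false
set_option linter.unusedSectionVars false

/-!
# The capacity inequality
-/

namespace Pool.Agent.H71K9.PM

section
open Polynomial

lemma amgm_fin (n : ℕ) (hn : 0 < n) (z : Fin n → ℝ) (hz : ∀ i, 0 ≤ z i) :
    ∏ i, z i ≤ ((∑ i, z i) / n) ^ n := by
  have hn' : (n : ℝ) ≠ 0 := by positivity
  have h := Real.geom_mean_le_arith_mean_weighted Finset.univ (fun _ : Fin n => (1 / n : ℝ)) z
    (fun i _ => by positivity) (by simp [hn']) (fun i _ => hz i)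
  have h1 : (∏ i, z i ^ (1 / n : ℝ)) ^ n = ∏ i, z i := by
    rw [← Finset.prod_pow]
    apply Finset.prod_congr rfl
    intro i _
    rw [← Real.rpow_natCast, ← Real.rpow_mul (hz i), one_div_mul_cancel hn', Real.rpow_one]
  rw [← h1]
  have h2 : ∑ i, (1 / n : ℝ) * z i = (∑ i, z i) / n := by
    rw [← Finset.mul_sum]; ring
  rw [← h2]
  exact pow_le_pow_left₀ (Finset.prod_nonneg fun i _ => Real.rpow_nonneg (hz i) _) h n

lemma amgm_multiset (d : ℕ) (hd : 0 < d) (s : Multiset ℝ) (hs : ∀ a ∈ s, 0 ≤ a)
    (hc : s.card ≤ d) (t : ℝ) (ht : 0 ≤ t) :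
    (s.map (fun a => 1 + t * a)).prod ≤ (1 + t * s.sum / d) ^ d := by
  obtain ⟨l, hl⟩ := Quot.exists_rep (s + Multiset.replicate (d - s.card) 0)
  have hl' : (l : Multiset ℝ) = s + Multiset.replicate (d - s.card) 0 := hl
  have hlen : l.length = d := by
    have := congrArg Multiset.card hl'
    rw [Multiset.coe_card, Multiset.card_add, Multiset.card_replicate] at this
    omega
  have hmem : ∀ a ∈ l, 0 ≤ a := by
    intro a ha
    have h1 : a ∈ (l : Multiset ℝ) := ha
    rw [hl', Multiset.mem_add] at h1
    rcases h1 with h1 | h1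
    · exact hs a h1
    · rw [Multiset.eq_of_mem_replicate h1]
  have hprod : (s.map (fun a => 1 + t * a)).prod = ∏ i : Fin l.length, (1 + t * l.get i) := by
    have h1 : (((l : Multiset ℝ)).map (fun a => 1 + t * a)).prod =
        (s.map (fun a => 1 + t * a)).prod := by
      rw [hl', Multiset.map_add, Multiset.prod_add, Multiset.map_replicate,
        Multiset.prod_replicate]
      simp
    rw [← h1, Multiset.map_coe, Multiset.prod_coe, ← List.prod_ofFn]
    congr 1
    apply List.ext_getElem <;> simp
  have hsum : s.sum = ∑ i : Fin l.length, l.get i := by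
    have h1 : ((l : Multiset ℝ)).sum = s.sum := by
      rw [hl', Multiset.sum_add, Multiset.sum_replicate]
      simp
    rw [← h1, Multiset.sum_coe, ← List.sum_ofFn]
    congr 1
    apply List.ext_getElem <;> simp
  have h := amgm_fin l.length (by omega) (fun i => 1 + t * l.get i) (fun i => by
    have := hmem _ (List.get_mem l i)
    positivity)
  rw [hprod]
  refine h.trans (le_of_eq ?_)
  rw [Finset.sum_add_distrib, ← Finset.mul_sum, ← hsum, hlen]
  congr 1
  simp only [Finset.sum_const, Finset.card_univ, Fintype.card_fin, nsmul_eq_mul, mul_one]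
  have : (d : ℝ) ≠ 0 := by positivity
  field_simp

/-- the constant `((d - 1) / d) ^ (d - 1)` -/
noncomputable def cst (d : ℕ) : ℝ := (((d : ℝ) - 1) / d) ^ (d - 1)

lemma cst_pos (d : ℕ) (hd : 2 ≤ d) : 0 < cst d := by
  have : (1 : ℝ) < d := by exact_mod_cast hd
  unfold cst
  have h1 : (0 : ℝ) < (d : ℝ) - 1 := by linarith
  positivity

lemma cst_le_one (d : ℕ) (hd : 2 ≤ d) : cst d ≤ 1 := by
  have : (1 : ℝ) < d := by exact_mod_cast hd
  unfold cst
  apply pow_le_one₀
  · have h1 : (0 : ℝ) < (d : ℝ) - 1 := by linarith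
    positivity
  · rw [div_le_one (by linarith)]
    linarith

lemma prod_lin (s : Multiset ℝ) (hs : ∀ b ∈ s, 0 < b) :
    0 < ((s.map (fun b => (X + C b : ℝ[X]))).prod).coeff 0 ∧
    ((s.map (fun b => (X + C b : ℝ[X]))).prod).coeff 1 =
      ((s.map (fun b => (X + C b : ℝ[X]))).prod).coeff 0 * (s.map (fun b => b⁻¹)).sum ∧
    ∀ t : ℝ, ((s.map (fun b => (X + C b : ℝ[X]))).prod).eval t =
      ((s.map (fun b => (X + C b : ℝ[X]))).prod).coeff 0 *
        ((s.map (fun b => b⁻¹)).map (fun a => 1 + t * a)).prod := by
  induction s using Multiset.induction_on with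
  | empty => simp [coeff_one]
  | cons b s ih =>
    obtain ⟨h1, h2, h3⟩ := ih fun b hb => hs b (Multiset.mem_cons_of_mem hb)
    have hb := hs b (Multiset.mem_cons_self b s)
    simp only [Multiset.map_cons, Multiset.prod_cons, Multiset.sum_cons]
    set g := (s.map (fun b => (X + C b : ℝ[X]))).prod with hg
    refine ⟨?_, ?_, ?_⟩
    · rw [mul_coeff_zero]
      simp only [coeff_add, coeff_X_zero, coeff_C_zero, zero_add]
      positivity
    · have e : ((X + C b) * g).coeff 1 = g.coeff 0 + b * g.coeff 1 := by
        rw [add_mul, coeff_add, coeff_X_mul, coeff_C_mul]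
      rw [e, mul_coeff_zero, h2]
      simp only [coeff_add, coeff_X_zero, coeff_C_zero, zero_add]
      field_simp
    · intro t
      rw [eval_mul, h3 t, mul_coeff_zero]
      simp only [eval_add, eval_X, eval_C, coeff_add, coeff_X_zero, coeff_C_zero, zero_add]
      field_simp
      ring

lemma gurvits_one {d : ℕ} (hd : 2 ≤ d) (f : ℝ[X]) (hdeg : f.natDegree ≤ d)
    (hroots : ∀ ρ : ℂ, (f.map (algebraMap ℝ ℂ)).IsRoot ρ → ρ.im = 0 ∧ ρ.re ≤ 0)
    (h0 : 0 ≤ f.coeff 0) (K : ℝ) (hK : 0 < K)
    (hf : ∀ t, 0 < t → K * t ≤ f.eval t) : cst d * K ≤ f.coeff 1 := by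
  have hd1 : (1 : ℝ) < d := by exact_mod_cast hd
  have hf0 : f ≠ 0 := by
    rintro rfl
    have := hf 1 one_pos
    simp at this
    linarith
  rcases h0.lt_or_eq with h0 | h0
  · -- split into linear factors
    set F := f.map (algebraMap ℝ ℂ) with hF
    have hF0 : F ≠ 0 := (Polynomial.map_ne_zero_iff (algebraMap ℝ ℂ).injective).2 hf0
    have hs := IsAlgClosed.splits F
    set s : Multiset ℝ := F.roots.map (fun ρ => -ρ.re) with hsd
    have hcard : s.card ≤ d := by
      rw [hsd, Multiset.card_map]
      refine (card_roots' F).trans ?_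
      rwa [hF, natDegree_map]
    have hfac : f = C f.leadingCoeff * (s.map (fun b => (X + C b : ℝ[X]))).prod := by
      apply Polynomial.map_injective (algebraMap ℝ ℂ) (algebraMap ℝ ℂ).injective
      rw [← hF, hs.eq_prod_roots, Polynomial.map_mul, map_C, hF, leadingCoeff_map, ← hF]
      congr 1
      rw [Polynomial.map_multiset_prod, Multiset.map_map, hsd, Multiset.map_map]
      congr 1
      apply Multiset.map_congr rfl
      intro ρ hρ
      have h1 := (hroots ρ ((mem_roots hF0).1 hρ)).1
      simp only [Function.comp, Polynomial.map_add, map_X, map_C]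
      rw [sub_eq_add_neg, ← C_neg]
      congr 2
      apply Complex.ext
      · simp
      · simp [h1]
    have hpos : ∀ b ∈ s, 0 < b := by
      intro b hb
      rw [hsd, Multiset.mem_map] at hb
      obtain ⟨ρ, hρ, rfl⟩ := hb
      have h1 := hroots ρ ((mem_roots hF0).1 hρ)
      rcases h1.2.lt_or_eq with h2 | h2
      · linarith
      · exfalso
        have h3 : ρ = 0 := Complex.ext h2 h1.1
        have h4 : F.IsRoot 0 := h3 ▸ (mem_roots hF0).1 hρ
        rw [IsRoot, hF, ← coeff_zero_eq_eval_zero, coeff_map] at h4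
        simp at h4
        exact h0.ne' h4
    obtain ⟨g1, g2, g3⟩ := prod_lin s hpos
    set g := (s.map (fun b => (X + C b : ℝ[X]))).prod with hg
    set a := f.leadingCoeff with ha
    set S := (s.map (fun b => b⁻¹)).sum with hS
    have e0 : f.coeff 0 = a * g.coeff 0 := by rw [hfac, coeff_C_mul]
    have e1 : f.coeff 1 = f.coeff 0 * S := by
      rw [e0, hfac, coeff_C_mul, g2]; ring
    have hb : ∀ t : ℝ, 0 ≤ t → f.eval t ≤ f.coeff 0 * (1 + t * S / d) ^ d := by
      intro t ht
      have : f.eval t = f.coeff 0 * ((s.map (fun b => b⁻¹)).map (fun a => 1 + t * a)).prod := by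
        rw [e0]
        conv_lhs => rw [hfac]
        rw [eval_mul, eval_C, g3 t]; ring
      rw [this]
      apply mul_le_mul_of_nonneg_left _ h0.le
      apply amgm_multiset d (by omega) _ _ _ t ht
      · intro a ha
        rw [Multiset.mem_map] at ha
        obtain ⟨b, hb, rfl⟩ := ha
        exact (inv_pos.2 (hpos b hb)).le
      · rwa [Multiset.card_map]
    have hS0 : 0 ≤ S := by
      apply Multiset.sum_nonneg
      intro a ha
      rw [Multiset.mem_map] at ha
      obtain ⟨b, hb, rfl⟩ := ha
      exact (inv_pos.2 (hpos b hb)).le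
    rcases hS0.lt_or_eq with hS1 | hS1
    · have hpd : (0 : ℝ) < (d : ℝ) - 1 := by linarith
      have ht : 0 < (d : ℝ) / ((d - 1) * S) := by positivity
      have h1 := (hf _ ht).trans (hb _ ht.le)
      have h2 : 1 + (d : ℝ) / ((d - 1) * S) * S / d = d / (d - 1) := by
        field_simp
        ring
      rw [h2] at h1
      rw [e1]
      unfold cst
      have h3 : (((d : ℝ) - 1) / d) ^ (d - 1) * (d / (d - 1)) ^ d = d / (d - 1) := by
        obtain ⟨k, rfl⟩ : ∃ k, d = k + 1 := ⟨d - 1, by omega⟩
        rw [Nat.add_sub_cancel, pow_succ, ← mul_assoc, ← mul_pow]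
        rw [div_mul_div_cancel₀ (by positivity), div_self hpd.ne', one_pow, one_mul]
      have h4 : K * (d / ((d - 1) * S)) * (((d - 1) / d) ^ (d - 1) : ℝ) ≤
          f.coeff 0 * (d / (d - 1)) := by
        rw [← h3, mul_comm ((((d : ℝ) - 1) / d) ^ (d - 1)), ← mul_assoc (f.coeff 0)]
        exact mul_le_mul_of_nonneg_right h1 (by positivity)
      have h5 : K * (d / ((d - 1) * S)) * (((d - 1) / d) ^ (d - 1) : ℝ) =
          ((((d - 1) / d) ^ (d - 1) : ℝ) * K) * ((d : ℝ) / (d - 1)) / S := by
        field_simp
      rw [h5, div_le_iff₀ hS1] at h4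
      have h6 : (0 : ℝ) < d / (d - 1) := by positivity
      have h7 : f.coeff 0 * (d / (d - 1)) * S = (f.coeff 0 * S) * ((d : ℝ) / (d - 1)) := by ring
      rw [h7] at h4
      exact le_of_mul_le_mul_right h4 h6
    · exfalso
      have h1 := (hf (2 * f.coeff 0 / K) (by positivity)).trans (hb _ (by positivity))
      rw [← hS1] at h1
      simp only [mul_zero, zero_div, add_zero, one_pow, mul_one] at h1
      rw [mul_div_cancel₀ _ hK.ne'] at h1
      linarith
  · -- divisible by `X`
    have hdvd : X ∣ f := by rw [X_dvd_iff]; exact h0.symm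
    obtain ⟨g, hg⟩ := hdvd
    have h1 : ∀ t : ℝ, 0 < t → K ≤ g.eval t := by
      intro t ht
      have := hf t ht
      rw [hg, eval_mul, eval_X, mul_comm] at this
      exact le_of_mul_le_mul_left this ht
    have h2 : Filter.Tendsto (fun t : ℝ => g.eval t) (nhdsWithin 0 (Set.Ioi 0))
        (nhds (g.eval 0)) := (g.continuous.tendsto 0).mono_left nhdsWithin_le_nhds
    have h3 : K ≤ g.eval 0 := ge_of_tendsto h2 (Filter.eventually_of_mem self_mem_nhdsWithin h1)
    have h4 : f.coeff 1 = g.eval 0 := by
      rw [hg, coeff_X_mul, coeff_zero_eq_eval_zero]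
    rw [h4]
    have := mul_le_mul_of_nonneg_right (cst_le_one d hd) hK.le
    linarith

end

section
open MvPolynomial

variable {σ : Type*} [DecidableEq σ] [Finite σ]

/-- one step of the capacity inequality -/
lemma gurvits_step {d : ℕ} (hd : 2 ≤ d) {p : MvPolynomial σ ℝ} (h : Nice p) (i : σ)
    (hdeg : degreeOf i p ≤ d) (x : σ → ℝ) (hx : ∀ j, 0 < x j) (K : ℝ) (hK : 0 < K)
    (hf : ∀ t, 0 < t → K * t ≤ eval (Function.update x i t) p) :
    cst d * K ≤ eval x (D i p) := by
  have e1 : eval x (D i p) = (sl i x p).coeff 1 := by rw [coeff_one_sl]; rfl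
  rw [e1]
  refine gurvits_one hd (sl i x p) ((natDegree_sl i x p).trans hdeg) ?_
    (coeff_sl_nonneg h.nn i x (fun j => (hx j).le) 0) K hK ?_
  · intro ρ hρ
    have e2 : (sl i x p).map (algebraMap ℝ ℂ) = sl i (fun j => (x j : ℂ)) p := by
      clear hdeg hf e1 hρ h
      induction p using MvPolynomial.induction_on with
      | C a => simp [sl, Polynomial.algebraMap_apply]
      | add p q hp hq => simp [hp, hq]
      | mul_X p j hp =>
        rw [map_mul, Polynomial.map_mul, hp, map_mul]
        congr 1
        by_cases h : j = i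
        · subst h; simp [sl]
        · simp [sl, h]
    rw [e2] at hρ
    exact h.root_real i x hx ρ hρ
  · intro t ht
    rw [eval_sl]
    exact hf t ht

/-- differentiate at zero with respect to a list of variables -/
noncomputable def DL : List σ → MvPolynomial σ ℝ → MvPolynomial σ ℝ
  | [], p => p
  | i :: l, p => DL l (D i p)

lemma NN.DL (l : List σ) {p : MvPolynomial σ ℝ} (h : NN p) : NN (DL l p) := by
  induction l generalizing p with
  | nil => exact h
  | cons i l ih => exact ih (h.D i)

/-- the capacity inequality for a list of variables, the other variables being fixed -/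
theorem gurvits_list {d : ℕ} (hd : 2 ≤ d) (l : List σ) {p : MvPolynomial σ ℝ} (h : Nice p)
    (hl : l.Nodup) (hdeg : ∀ i ∈ l, degreeOf i p ≤ d) (x : σ → ℝ) (hx : ∀ j, 0 < x j) (K : ℝ)
    (hK : 0 < K)
    (hf : ∀ y : σ → ℝ, (∀ j, 0 < y j) → (∀ j, j ∉ l → y j = x j) →
      K * (l.map y).prod ≤ eval y p) :
    cst d ^ l.length * K ≤ eval x (DL l p) := by
  induction l generalizing p K with
  | nil =>
    have := hf x hx (fun _ _ => rfl)
    simpa [DL] using this
  | cons i l ih =>
    rw [List.nodup_cons] at hl
    have key : ∀ y : σ → ℝ, (∀ j, 0 < y j) → (∀ j, j ∉ l → y j = x j) →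
        (cst d * K) * (l.map y).prod ≤ eval y (D i p) := by
      intro y hy hyx
      have hpos : 0 < (l.map y).prod := by
        apply List.prod_pos
        intro a ha
        rw [List.mem_map] at ha
        obtain ⟨j, _, rfl⟩ := ha
        exact hy j
      rw [mul_assoc]
      apply gurvits_step hd h i (hdeg i List.mem_cons_self) y hy _ (by positivity)
      intro t ht
      have h1 := hf (Function.update y i t) (fun j => by
        by_cases hj : j = i
        · subst hj; simpa using ht
        · simpa [hj] using hy j) (fun j hj => by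
        rw [List.mem_cons, not_or] at hj
        rw [Function.update_of_ne hj.1]
        exact hyx j hj.2)
      rw [List.map_cons, List.prod_cons, Function.update_self] at h1
      have h2 : l.map (Function.update y i t) = l.map y := by
        apply List.map_congr_left
        intro j hj
        rw [Function.update_of_ne]
        rintro rfl
        exact hl.1 hj
      rw [h2] at h1
      calc K * (l.map y).prod * t = K * (t * (l.map y).prod) := by ring
        _ ≤ _ := h1
    have hne : D i p ≠ 0 := by
      intro h0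
      have h1 := key x hx (fun _ _ => rfl)
      rw [h0, map_zero] at h1
      have hpos : 0 < (l.map x).prod := by
        apply List.prod_pos
        intro a ha
        rw [List.mem_map] at ha
        obtain ⟨j, _, rfl⟩ := ha
        exact hx j
      have := cst_pos d hd
      have : 0 < cst d * K * (l.map x).prod := by positivity
      linarith
    have h3 := ih (h.D i hne) hl.2
      (fun j hj => (degreeOf_D i j p).trans (hdeg j (List.mem_cons_of_mem _ hj)))
      (cst d * K) (mul_pos (cst_pos d hd) hK) key
    rw [List.length_cons, pow_succ, mul_assoc]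
    exact h3

end

end Pool.Agent.H71K9.PM
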