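import Mathlib
import Pool.Agent.H71K9.Gurvits

set_option autoImplicit false
set_option linter.unusedSectionVars false

/-!
# Products of sums of variables
-/

namespace Pool.Agent.H71K9.PM

open MvPolynomial Finset

section
variable {σ : Type*} [DecidableEq σ]

lemma NN.add {p q : MvPolynomial σ ℝ} (hp : NN p) (hq : NN q) : NN (p + q) := by
  intro m; rw [coeff_add]; exact add_nonneg (hp m) (hq m)

lemma NN.mul {p q : MvPolynomial σ ℝ} (hp : NN p) (hq : NN q) : NN (p * q) := by
  intro m
  rw [coeff_mul]
  exact Finset.sum_nonneg fun x _ => mul_nonneg (hp _) (hq _)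

lemma NN.one : NN (1 : MvPolynomial σ ℝ) := by
  intro m
  rw [coeff_one]
  split_ifs <;> norm_num

lemma NN.X (i : σ) : NN (X i : MvPolynomial σ ℝ) := by
  intro m
  rw [coeff_X]
  split_ifs <;> norm_num

lemma NN.sum {ι : Type*} (s : Finset ι) (f : ι → MvPolynomial σ ℝ) (h : ∀ i ∈ s, NN (f i)) :
    NN (∑ i ∈ s, f i) := by
  intro m
  rw [coeff_sum]
  exact Finset.sum_nonneg fun i hi => h i hi m

lemma NN.prod {ι : Type*} (s : Finset ι) (f : ι → MvPolynomial σ ℝ) (h : ∀ i ∈ s, NN (f i)) :
    NN (∏ i ∈ s, f i) := by
  classical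
  induction s using Finset.induction_on with
  | empty => rw [Finset.prod_empty]; exact NN.one
  | insert a s ha ih =>
    rw [Finset.prod_insert ha]
    exact (h a (mem_insert_self a s)).mul (ih fun i hi => h i (mem_insert_of_mem hi))

/-- the sum of the variables in `s` -/
noncomputable def lf (s : Finset σ) : MvPolynomial σ ℝ := ∑ i ∈ s, X i

lemma NN.lf (s : Finset σ) : NN (lf s) := NN.sum _ _ fun i _ => NN.X i

lemma lf_hom (s : Finset σ) : (lf s).IsHomogeneous 1 :=
  IsHomogeneous.sum _ _ _ fun i _ => isHomogeneous_X _ _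

lemma eval_lf (s : Finset σ) (x : σ → ℝ) : eval x (lf s) = ∑ i ∈ s, x i := by
  simp [lf]

lemma degreeOf_lf_le (s : Finset σ) (i : σ) : degreeOf i (lf s) ≤ if i ∈ s then 1 else 0 := by
  rw [degreeOf_le_iff]
  intro m hm
  rw [mem_support_iff, lf, coeff_sum] at hm
  obtain ⟨j, hj, hne⟩ := Finset.exists_ne_zero_of_sum_ne_zero hm
  rw [coeff_X] at hne
  split_ifs at hne with h
  · rw [← h]
    by_cases hji : j = i
    · subst hji; simp [hj]
    · rw [Finsupp.single_apply, if_neg hji]; omega
  · exact absurd rfl hne

variable {τ : Type*}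

/-- the product of the forms of the elements of `T` -/
noncomputable def PP (A : τ → Finset σ) (T : Finset τ) : MvPolynomial σ ℝ := ∏ j ∈ T, lf (A j)

lemma NN.PP (A : τ → Finset σ) (T : Finset τ) : NN (PP A T) := NN.prod _ _ fun j _ => NN.lf _

lemma PP_hom (A : τ → Finset σ) (T : Finset τ) : (PP A T).IsHomogeneous T.card := by
  have := IsHomogeneous.prod T (fun j => lf (A j)) (fun _ => 1) fun j _ => lf_hom (A j)
  rw [PP]
  simpa using this

lemma PP_nice (A : τ → Finset σ) (T : Finset τ) (hA : ∀ j ∈ T, (A j).Nonempty) :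
    Nice (PP A T) := by
  refine ⟨NN.PP A T, ⟨_, PP_hom A T⟩, ?_⟩
  intro z hz
  rw [PP, map_prod, Finset.prod_ne_zero_iff]
  intro j hj h0
  rw [lf, map_sum] at h0
  have h1 : (∑ i ∈ A j, z i).re = 0 := by simpa using congrArg Complex.re h0
  rw [Complex.re_sum] at h1
  have h2 : 0 < ∑ i ∈ A j, (z i).re := Finset.sum_pos (fun i _ => hz i) (hA j hj)
  linarith

lemma eval_PP (A : τ → Finset σ) (T : Finset τ) (x : σ → ℝ) :
    eval x (PP A T) = ∏ j ∈ T, ∑ i ∈ A j, x i := by
  rw [PP, map_prod]
  exact Finset.prod_congr rfl fun j _ => eval_lf _ _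

lemma degreeOf_PP_le [DecidableEq τ] (A : τ → Finset σ) (T : Finset τ) (i : σ) :
    degreeOf i (PP A T) ≤ (T.filter fun j => i ∈ A j).card := by
  induction T using Finset.induction_on with
  | empty => simp [PP]
  | insert a s ha ih =>
    rw [PP, Finset.prod_insert ha, ← PP, Finset.filter_insert]
    refine (degreeOf_mul_le _ _ _).trans ?_
    have h1 := degreeOf_lf_le (A a) i
    split_ifs at h1 with h
    · rw [if_pos h, Finset.card_insert_of_notMem (fun h' => ha (Finset.mem_filter.1 h').1)]
      omega
    · rw [if_neg h]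
      omega

/-- the neighbours of a list -/
def NB [Fintype τ] (A : τ → Finset σ) (l : List σ) : Finset τ :=
  Finset.univ.filter fun j => ∃ i ∈ l, i ∈ A j

lemma degreeOf_DL (l : List σ) (i : σ) (p : MvPolynomial σ ℝ) :
    degreeOf i (DL l p) ≤ degreeOf i p := by
  induction l generalizing p with
  | nil => exact le_rfl
  | cons a l ih => exact (ih _).trans (degreeOf_D a i p)

lemma DL_mul (l : List σ) (p q : MvPolynomial σ ℝ) (hq : ∀ i ∈ l, degreeOf i q = 0) :
    DL l (q * p) = q * DL l p := by
  induction l generalizing p with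
  | nil => rfl
  | cons a l ih =>
    rw [DL, D_mul, D_of_degreeOf (hq a List.mem_cons_self),
      E_of_degreeOf (hq a List.mem_cons_self), zero_mul, zero_add, DL]
    exact ih _ fun i hi => hq i (List.mem_cons_of_mem a hi)

lemma DL_append (l l' : List σ) (p : MvPolynomial σ ℝ) : DL (l ++ l') p = DL l' (DL l p) := by
  induction l generalizing p with
  | nil => rfl
  | cons a l ih => exact ih _

lemma DL_hom (l : List σ) {p : MvPolynomial σ ℝ} {N : ℕ} (h : p.IsHomogeneous N) :
    (DL l p).IsHomogeneous (N - l.length) := by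
  induction l generalizing p N with
  | nil => exact h
  | cons a l ih =>
    have := ih (D_hom h a)
    rw [List.length_cons]
    have e : N - (l.length + 1) = N - 1 - l.length := by omega
    rw [e]
    exact this

lemma DL_kill (l : List σ) (p : MvPolynomial σ ℝ) (i : σ) (hi : i ∈ l) :
    degreeOf i (DL l p) = 0 := by
  induction l generalizing p with
  | nil => exact absurd hi List.not_mem_nil
  | cons a l ih =>
    rcases List.mem_cons.1 hi with rfl | hi
    · have h1 := degreeOf_DL l i (D i p)
      have h2 : degreeOf i (D i p) ≤ 0 := by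
        rw [degreeOf_le_iff]
        intro m hm
        rw [mem_support_iff, coeff_D] at hm
        split_ifs at hm with h
        · exact h.le
        · exact absurd rfl hm
      exact Nat.le_zero.1 (h1.trans h2)
    · exact ih _ hi

lemma coeff_DL (l : List σ) (hl : l.Nodup) (p : MvPolynomial σ ℝ) (m : σ →₀ ℕ)
    (hm : ∀ i ∈ l, m i = 0) :
    coeff m (DL l p) = coeff (m + (l.map fun i => Finsupp.single i 1).sum) p := by
  induction l generalizing p with
  | nil => simp [DL]
  | cons a l ih =>
    rw [List.nodup_cons] at hl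
    rw [DL, ih hl.2 _ fun i hi => hm i (List.mem_cons_of_mem a hi), coeff_D]
    have h1 : ((l.map fun i => (Finsupp.single i 1 : σ →₀ ℕ)).sum) a = 0 := by
      have : ∀ l : List σ, a ∉ l → ((l.map fun i => (Finsupp.single i 1 : σ →₀ ℕ)).sum) a = 0 := by
        intro l
        induction l with
        | nil => simp
        | cons b l ihl =>
          intro h
          rw [List.mem_cons, not_or] at h
          rw [List.map_cons, List.sum_cons, Finsupp.add_apply, ihl h.2,
            Finsupp.single_apply, if_neg (fun h' => h.1 h'.symm)]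
      exact this l hl.1
    rw [if_pos]
    · rw [List.map_cons, List.sum_cons]
      congr 1
      abel
    · rw [Finsupp.add_apply, h1, hm a List.mem_cons_self]

lemma eval_congr_degreeOf (p : MvPolynomial σ ℝ) (x y : σ → ℝ)
    (h : ∀ i, degreeOf i p ≠ 0 → x i = y i) : eval x p = eval y p := by
  rw [eval_eq, eval_eq]
  apply Finset.sum_congr rfl
  intro m hm
  congr 1
  apply Finset.prod_congr rfl
  intro i hi
  rw [h i]
  intro h0
  have := monomial_le_degreeOf i hm
  rw [h0] at this
  exact (Finsupp.mem_support_iff.1 hi) (Nat.le_zero.1 this)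

end

section
variable {σ : Type*} [DecidableEq σ] [Fintype σ] {τ : Type*} [Fintype τ] [DecidableEq τ]

/-- the total coefficient counts the bijections -/
lemma eval_DL_full (A : τ → Finset σ) (l : List σ) (hl : l.Nodup) (hall : ∀ i, i ∈ l)
    (x : σ → ℝ) :
    eval x (DL l (PP A Finset.univ)) =
      (((Fintype.piFinset A).filter fun g => Function.Bijective g).card : ℝ) := by
  have h0 : DL l (PP A Finset.univ) = C (coeff 0 (DL l (PP A Finset.univ))) := by
    ext m
    rw [coeff_C]
    split_ifs with h
    · rw [h]
    · by_contra hc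
      apply h
      ext i
      have h1 := monomial_le_degreeOf i (mem_support_iff.2 hc)
      rw [DL_kill l _ i (hall i)] at h1
      simpa using (Nat.le_zero.1 h1).symm
  rw [h0, eval_C, coeff_DL l hl _ _ (by simp), zero_add]
  set ones := (l.map fun i => (Finsupp.single i 1 : σ →₀ ℕ)).sum with hones
  have hone : ∀ i, ones i = 1 := by
    intro i
    have : ∀ l : List σ, l.Nodup → ((l.map fun i => (Finsupp.single i 1 : σ →₀ ℕ)).sum) i =
        if i ∈ l then 1 else 0 := by
      intro l
      induction l with
      | nil => simp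
      | cons b l ihl =>
        intro h
        rw [List.nodup_cons] at h
        rw [List.map_cons, List.sum_cons, Finsupp.add_apply, ihl h.2, Finsupp.single_apply]
        by_cases hb : b = i
        · subst hb
          simp [h.1]
        · have : i ≠ b := fun h' => hb h'.symm
          simp [hb, this]
    rw [hones, this l hl, if_pos (hall i)]
  have e1 : PP A Finset.univ = ∑ g ∈ Fintype.piFinset A,
      monomial (∑ j, Finsupp.single (g j) 1) (1 : ℝ) := by
    rw [PP]
    simp only [lf]
    rw [Finset.prod_univ_sum]
    apply Finset.sum_congr rfl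
    intro g _
    rw [monomial_sum_one]
    rfl
  rw [e1, coeff_sum]
  simp only [coeff_monomial]
  rw [← Finset.sum_filter, Finset.sum_const, nsmul_eq_mul, mul_one]
  congr 2
  apply Finset.filter_congr
  intro g _
  constructor
  · intro h
    have h1 : ∀ i, (Finset.univ.filter fun j => g j = i).card = 1 := by
      intro i
      have h2 : (∑ j, Finsupp.single (g j) 1 : σ →₀ ℕ) i = 1 := by rw [h, hone]
      rw [Finsupp.finsetSum_apply] at h2
      simp only [Finsupp.single_apply] at h2
      rw [Finset.card_filter]
      exact h2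
    constructor
    · intro a b hab
      have h3 := h1 (g a)
      rw [Finset.card_eq_one] at h3
      obtain ⟨c, hc⟩ := h3
      have ha : a ∈ Finset.univ.filter fun j => g j = g a := by simp
      have hb : b ∈ Finset.univ.filter fun j => g j = g a := by simp [hab]
      rw [hc, Finset.mem_singleton] at ha hb
      rw [ha, hb]
    · intro i
      have h3 := h1 i
      rw [Finset.card_eq_one] at h3
      obtain ⟨c, hc⟩ := h3
      have : c ∈ Finset.univ.filter fun j => g j = i := by rw [hc]; simp
      exact ⟨c, (Finset.mem_filter.1 this).2⟩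
  · intro h
    ext i
    rw [hone, Finsupp.finsetSum_apply]
    simp only [Finsupp.single_apply]
    obtain ⟨c, hc⟩ := h.2 i
    rw [Finset.sum_eq_single c]
    · rw [if_pos hc]
    · intro b _ hb
      rw [if_neg]
      intro h'
      exact hb (h.1 (h'.trans hc.symm))
    · simp

end

end Pool.Agent.H71K9.PM
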