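import Mathlib
import Pool.Agent.H71K9.Forms

set_option autoImplicit false
set_option linter.unusedSectionVars false

/-!
# The local gain
-/

namespace Pool.Agent.H71K9.PM

open MvPolynomial Finset

lemma amgm_finset {ι : Type*} (s : Finset ι) (y : ι → ℝ) (hy : ∀ i ∈ s, 0 ≤ y i) :
    (s.card : ℝ) ^ s.card * ∏ i ∈ s, y i ≤ (∑ i ∈ s, y i) ^ s.card := by
  rcases Nat.eq_zero_or_pos s.card with h0 | h0
  · have : s = ∅ := Finset.card_eq_zero.1 h0
    subst this; simp
  have h := amgm_fin s.card h0 (fun a => y (s.equivFin.symm a)) (fun a => hy _ (by simp))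
  have e1 : ∏ a : Fin s.card, y (s.equivFin.symm a) = ∏ i ∈ s, y i := by
    rw [← Finset.prod_coe_sort s y]
    exact Equiv.prod_comp s.equivFin.symm (fun i : s => y i)
  have e2 : ∑ a : Fin s.card, y (s.equivFin.symm a) = ∑ i ∈ s, y i := by
    rw [← Finset.sum_coe_sort s y]
    exact Equiv.sum_comp s.equivFin.symm (fun i : s => y i)
  rw [e1, e2, div_pow] at h
  have h1 : (0 : ℝ) < (s.card : ℝ) ^ s.card := by positivity
  rw [le_div_iff₀ h1] at h
  linarith

lemma amgm_stab {ι : Type*} [DecidableEq ι] (s : Finset ι) (y : ι → ℝ) (hy : ∀ i ∈ s, 0 < y i)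
    (κ : ℝ) (hκ : 0 < κ) (a b : ι) (ha : a ∈ s) (hb : b ∈ s) (hab : (1 + κ) * y b < y a) :
    (s.card : ℝ) ^ s.card * (∏ i ∈ s, y i) * (1 + κ ^ 2 / (4 * (1 + κ))) ≤
      (∑ i ∈ s, y i) ^ s.card := by
  have hya := hy a ha
  have hyb := hy b hb
  have hne : a ≠ b := by
    rintro rfl
    nlinarith
  set v := (y a + y b) / 2 with hv
  set y' : ι → ℝ := Function.update (Function.update y a v) b v with hy'
  have hbe : b ∈ s.erase a := Finset.mem_erase.2 ⟨hne.symm, hb⟩
  have e1 : ∑ i ∈ s, y' i = ∑ i ∈ s, y i := by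
    rw [← Finset.add_sum_erase s _ ha, ← Finset.add_sum_erase _ _ hbe,
      ← Finset.add_sum_erase s y ha, ← Finset.add_sum_erase _ y hbe]
    have : ∑ i ∈ (s.erase a).erase b, y' i = ∑ i ∈ (s.erase a).erase b, y i := by
      apply Finset.sum_congr rfl
      intro i hi
      rw [Finset.mem_erase, Finset.mem_erase] at hi
      simp [hy', Function.update_of_ne hi.1, Function.update_of_ne hi.2.1]
    rw [this]
    simp only [hy', Function.update_self, Function.update_of_ne hne]
    rw [hv]; ring
  have e2 : ∏ i ∈ s, y' i = v ^ 2 * ∏ i ∈ (s.erase a).erase b, y i := by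
    rw [← Finset.mul_prod_erase s _ ha, ← Finset.mul_prod_erase _ _ hbe]
    have : ∏ i ∈ (s.erase a).erase b, y' i = ∏ i ∈ (s.erase a).erase b, y i := by
      apply Finset.prod_congr rfl
      intro i hi
      rw [Finset.mem_erase, Finset.mem_erase] at hi
      simp [hy', Function.update_of_ne hi.1, Function.update_of_ne hi.2.1]
    rw [this]
    simp only [hy', Function.update_self, Function.update_of_ne hne]
    ring
  have e3 : ∏ i ∈ s, y i = y a * y b * ∏ i ∈ (s.erase a).erase b, y i := by
    rw [← Finset.mul_prod_erase s _ ha, ← Finset.mul_prod_erase _ _ hbe]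
    ring
  have hP : 0 ≤ ∏ i ∈ (s.erase a).erase b, y i := by
    apply Finset.prod_nonneg
    intro i hi
    rw [Finset.mem_erase, Finset.mem_erase] at hi
    exact (hy i hi.2.2).le
  have h := amgm_finset s y' (fun i hi => by
    by_cases h1 : i = b
    · subst h1; simp [hy', hv]; positivity
    · by_cases h2 : i = a
      · subst h2; simp only [hy', Function.update_of_ne h1, Function.update_self, hv]; positivity
      · simp only [hy', Function.update_of_ne h1, Function.update_of_ne h2]
        exact (hy i hi).le)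
  rw [e1, e2] at h
  refine le_trans ?_ h
  rw [e3, mul_assoc]
  apply mul_le_mul_of_nonneg_left _ (by positivity)
  have key : y a * y b * (1 + κ ^ 2 / (4 * (1 + κ))) ≤ v ^ 2 := by
    rw [hv]
    have h1 : 0 < 1 + κ := by linarith
    rw [show y a * y b * (1 + κ ^ 2 / (4 * (1 + κ))) =
      (y a * y b * (4 * (1 + κ) + κ ^ 2)) / (4 * (1 + κ)) by field_simp]
    rw [div_le_iff₀ (by positivity)]
    -- `(a - b)^2 (1 + κ) ≥ κ^2 a b`
    have h2 : κ ^ 2 * (y a * y b) ≤ (y a - y b) ^ 2 * (1 + κ) := by
      have h3 : 0 < y a - (1 + κ) * y b := by linarith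
      have h4 : 0 < (1 + κ) * y a - y b := by nlinarith
      have h5 : (y a - y b) ^ 2 * (1 + κ) - κ ^ 2 * (y a * y b) =
          (y a - (1 + κ) * y b) * ((1 + κ) * y a - y b) := by ring
      nlinarith [mul_pos h3 h4]
    nlinarith
  calc y a * y b * (∏ i ∈ (s.erase a).erase b, y i) * (1 + κ ^ 2 / (4 * (1 + κ)))
      = (y a * y b * (1 + κ ^ 2 / (4 * (1 + κ)))) * ∏ i ∈ (s.erase a).erase b, y i := by ring
    _ ≤ _ := mul_le_mul_of_nonneg_right key hP

/-- the choice of the constants -/
lemma exists_consts (d n : ℕ) (ε : ℝ) (hε : 0 < ε) : ∃ κ β : ℝ, 0 < κ ∧ 1 < β ∧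
    β ^ d ≤ 1 + κ ^ 2 / (4 * (1 + κ)) ∧ β * (1 + κ) ^ n ≤ 1 + ε := by
  obtain ⟨κ, hκ, h1⟩ : ∃ κ : ℝ, 0 < κ ∧ (1 + κ) ^ n < 1 + ε := by
    have h : Filter.Tendsto (fun κ : ℝ => (1 + κ) ^ n) (nhds 0) (nhds ((1 + 0) ^ n)) := by
      apply Continuous.tendsto; fun_prop
    rw [add_zero, one_pow] at h
    have h2 := ((h.mono_left (nhdsWithin_le_nhds (s := Set.Ioi 0))).eventually
      (gt_mem_nhds (show (1 : ℝ) < 1 + ε by linarith))).and
        (eventually_mem_nhdsWithin (a := (0 : ℝ)) (s := Set.Ioi 0))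
    obtain ⟨κ, h3, h4⟩ := h2.exists
    exact ⟨κ, h4, h3⟩
  have hκ2 : (1 : ℝ) < 1 + κ ^ 2 / (4 * (1 + κ)) := by
    have : 0 < κ ^ 2 / (4 * (1 + κ)) := by positivity
    linarith
  have h3 : Filter.Tendsto (fun β : ℝ => β ^ d) (nhds 1) (nhds (1 ^ d)) := by
    apply Continuous.tendsto; fun_prop
  rw [one_pow] at h3
  have h4 : Filter.Tendsto (fun β : ℝ => β * (1 + κ) ^ n) (nhds 1) (nhds (1 * (1 + κ) ^ n)) := by
    apply Continuous.tendsto; fun_prop
  rw [one_mul] at h4
  have h5 := (((h3.mono_left (nhdsWithin_le_nhds (s := Set.Ioi 1))).eventually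
      (gt_mem_nhds hκ2)).and ((h4.mono_left (nhdsWithin_le_nhds (s := Set.Ioi 1))).eventually
      (gt_mem_nhds h1))).and (eventually_mem_nhdsWithin (a := (1 : ℝ)) (s := Set.Ioi 1))
  obtain ⟨β, ⟨h6, h7⟩, h8⟩ := h5.exists
  exact ⟨κ, β, hκ, h8, h6.le, h7.le⟩

section
universe v w
variable {σ : Type v} [DecidableEq σ] [Fintype σ] {τ : Type w} [Fintype τ] [DecidableEq τ]

/-- a cluster: a connected list of variables at which the capacity inequality is not sharp -/
structure IsCluster (A : τ → Finset σ) (d : ℕ) (ε : ℝ) (m : ℕ) (u : ℕ → σ) : Prop where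
  inj : ∀ a < m, ∀ b < m, u a = u b → a = b
  chain : ∀ a, a + 1 < m → ∃ j, u a ∈ A j ∧ u (a + 1) ∈ A j
  card : m ≤ (NB A ((List.range m).map u)).card
  strict : (1 + ε) * (cst d ^ m * (d : ℝ) ^ (NB A ((List.range m).map u)).card) ≤
    eval (fun _ => (1 : ℝ)) (DL ((List.range m).map u) (PP A (NB A ((List.range m).map u))))

lemma card_NB_le (A : τ → Finset σ) (d : ℕ) (hd : ∀ i, (univ.filter fun j => i ∈ A j).card ≤ d)
    (l : List σ) : (NB A l).card ≤ d * l.length := by
  induction l with
  | nil => simp [NB]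
  | cons a l ih =>
    have h1 : NB A (a :: l) ⊆ (univ.filter fun j => a ∈ A j) ∪ NB A l := by
      intro j hj
      simp only [NB, mem_filter, mem_univ, true_and, List.mem_cons, mem_union] at hj ⊢
      obtain ⟨i, rfl | hi, h⟩ := hj
      · exact Or.inl h
      · exact Or.inr ⟨i, hi, h⟩
    have h2 := (Finset.card_le_card h1).trans (Finset.card_union_le _ _)
    have h3 := hd a
    rw [List.length_cons, mul_add, mul_one]
    omega

/-- the local gain -/
theorem local_gain (d k : ℕ) (hd : 2 ≤ d) (ε : ℝ) (hε : 0 < ε) : ∃ β : ℝ, 1 < β ∧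
    ∀ (σ : Type v) [DecidableEq σ] [Fintype σ] (τ : Type w) [Fintype τ] [DecidableEq τ]
      (A : τ → Finset σ), (∀ j, (A j).card = d) →
      (∀ i, (univ.filter fun j => i ∈ A j).card ≤ d) →
      ∀ (m : ℕ), m ≤ k → 2 ≤ m → ∀ u : ℕ → σ, IsCluster A d ε m u →
      ∀ x : σ → ℝ, (∀ i, 0 < x i) → ∃ y : σ → ℝ, (∀ i, 0 < y i) ∧
        (∀ i, i ∉ (List.range m).map u → y i = x i) ∧
        (cst d ^ m * β) ^ d * ∏ j ∈ NB A ((List.range m).map u), ((d : ℝ) ^ d * ∏ i ∈ A j, y i) ≤
          (eval x (DL ((List.range m).map u) (PP A (NB A ((List.range m).map u)))) *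
            (((List.range m).map u).map y).prod) ^ d := by
  obtain ⟨κ, β₀, hκ, hβ₀, hc1, hc2⟩ := exists_consts d ((2 * k + 2) * (d * k)) ε hε
  set θ := (1 + β₀) / 2 with hθ
  have hθ1 : 1 < θ := by rw [hθ]; linarith
  have hθ2 : θ < β₀ := by rw [hθ]; linarith
  have hθ0 : 0 < θ := by linarith
  refine ⟨β₀ / θ, by rw [lt_div_iff₀ hθ0]; linarith, ?_⟩
  intro σ _ _ τ _ _ A hA hAd m hmk hm1 u hu x hx
  set l := (List.range m).map u with hl
  have hlen : l.length = m := by simp [hl]
  have hnd : l.Nodup := by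
    rw [hl]
    apply (List.nodup_map_iff_inj_on List.nodup_range).2
    intro a ha b hb
    exact hu.inj a (List.mem_range.1 ha) b (List.mem_range.1 hb)
  set N := NB A l with hN
  set p := DL l (PP A N) with hp
  have hcst := cst_pos d hd
  have hd0 : (0 : ℝ) < d := by positivity
  have hmN : m ≤ N.card := hu.card
  have hNN : NN p := (NN.PP A N).DL l
  have hp1 : 0 < eval (fun _ => (1 : ℝ)) p := by
    have := hu.strict
    have h1 : 0 < (1 + ε) * (cst d ^ m * (d : ℝ) ^ N.card) := by positivity
    linarith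
  have hp0 : p ≠ 0 := by
    intro h0
    rw [h0] at hp1
    simp at hp1
  have hΦ : 0 < eval x p := hNN.eval_pos hp0 x hx
  have hAne : ∀ j ∈ N, (A j).Nonempty := by
    intro j _
    rw [← Finset.card_pos, hA]; omega
  have hNice := PP_nice A N hAne
  -- a near minimiser
  have hmin : ∃ y : σ → ℝ, (∀ i, 0 < y i) ∧ (∀ i, i ∉ l → y i = x i) ∧
      cst d ^ m * eval y (PP A N) < θ * eval x p * (l.map y).prod := by
    by_contra hcon
    push Not at hcon
    have h1 := gurvits_list hd l hNice hnd (fun i _ => (degreeOf_PP_le A N i).trans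
      ((Finset.card_le_card (Finset.filter_subset_filter _ (Finset.subset_univ _))).trans
        (hAd i))) x hx (θ * eval x p / cst d ^ m) (by positivity) (fun y hy hyx => by
        have h2 := hcon y hy hyx
        rw [div_mul_eq_mul_div, div_le_iff₀ (by positivity)]
        linarith)
    rw [hlen, mul_div_cancel₀ _ (by positivity)] at h1
    have : eval x p < θ * eval x p := by nlinarith
    linarith
  obtain ⟨y, hy, hyx, hlt⟩ := hmin
  refine ⟨y, hy, hyx, ?_⟩
  have hprod : 0 < (l.map y).prod := by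
    apply List.prod_pos
    intro a ha
    rw [List.mem_map] at ha
    obtain ⟨j, _, rfl⟩ := ha
    exact hy j
  have hW : ∀ j, 0 < ∏ i ∈ A j, y i := fun j => Finset.prod_pos fun i _ => hy i
  have hAG : ∀ j, (d : ℝ) ^ d * ∏ i ∈ A j, y i ≤ (∑ i ∈ A j, y i) ^ d := by
    intro j
    have := amgm_finset (A j) y (fun i _ => (hy i).le)
    rwa [hA j] at this
  by_cases hcase : ∃ j ∈ N, β₀ ^ d * ((d : ℝ) ^ d * ∏ i ∈ A j, y i) ≤ (∑ i ∈ A j, y i) ^ d
  · -- a form is far from the geometric mean
    obtain ⟨j0, hj0, hj0'⟩ := hcase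
    have h1 : β₀ ^ d * ∏ j ∈ N, ((d : ℝ) ^ d * ∏ i ∈ A j, y i) ≤ (eval y (PP A N)) ^ d := by
      rw [eval_PP, ← Finset.prod_pow, ← Finset.mul_prod_erase N _ hj0,
        ← Finset.mul_prod_erase N _ hj0, ← mul_assoc]
      apply mul_le_mul hj0'
      · apply Finset.prod_le_prod
        · intro j _
          have := hW j
          positivity
        · intro j _; exact hAG j
      · apply Finset.prod_nonneg
        intro j _
        have := hW j
        positivity
      · have : 0 ≤ ∑ i ∈ A j0, y i := Finset.sum_nonneg fun i _ => (hy i).le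
        positivity
    have h2 : 0 ≤ eval y (PP A N) := (NN.PP A N).eval_nonneg y fun i => (hy i).le
    have h3 : (cst d ^ m * eval y (PP A N)) ^ d ≤ (θ * eval x p * (l.map y).prod) ^ d :=
      pow_le_pow_left₀ (by positivity) hlt.le d
    have h4 : (cst d ^ m * (β₀ / θ)) ^ d * ∏ j ∈ N, ((d : ℝ) ^ d * ∏ i ∈ A j, y i) =
        (cst d ^ m) ^ d * (β₀ ^ d * ∏ j ∈ N, ((d : ℝ) ^ d * ∏ i ∈ A j, y i)) / θ ^ d := by
      rw [mul_pow, div_pow]; ring
    rw [h4, div_le_iff₀ (by positivity)]
    calc _ ≤ (cst d ^ m) ^ d * (eval y (PP A N)) ^ d :=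
          mul_le_mul_of_nonneg_left h1 (by positivity)
      _ = (cst d ^ m * eval y (PP A N)) ^ d := by rw [mul_pow]
      _ ≤ _ := h3
      _ = _ := by rw [mul_assoc, mul_pow, mul_comm]
  · -- all coordinates are nearly equal
    push Not at hcase
    have hloc : ∀ j ∈ N, ∀ a ∈ A j, ∀ b ∈ A j, y a ≤ (1 + κ) * y b := by
      intro j hj a ha b hb
      by_contra hcon
      rw [not_le] at hcon
      have h1 := amgm_stab (A j) y (fun i _ => hy i) κ hκ a b ha hb hcon
      rw [hA j] at h1
      have h2 := hcase j hj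
      have h3 : β₀ ^ d * ((d : ℝ) ^ d * ∏ i ∈ A j, y i) ≤
          (d : ℝ) ^ d * (∏ i ∈ A j, y i) * (1 + κ ^ 2 / (4 * (1 + κ))) := by
        rw [mul_comm]
        exact mul_le_mul_of_nonneg_left hc1 (by have := hW j; positivity)
      linarith
    have hκ1 : 1 ≤ 1 + κ := by linarith
    have hmemN : ∀ a < m, ∀ j, u a ∈ A j → j ∈ N := by
      intro a ha j hj
      rw [hN, NB, mem_filter]
      refine ⟨mem_univ _, u a, ?_, hj⟩
      rw [hl, List.mem_map]
      exact ⟨a, List.mem_range.2 ha, rfl⟩
    have hup : ∀ a < m, y (u a) ≤ (1 + κ) ^ a * y (u 0) ∧ y (u 0) ≤ (1 + κ) ^ a * y (u a) := by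
      intro a
      induction a with
      | zero => intro _; simp
      | succ a ih =>
        intro ha
        obtain ⟨h1, h2⟩ := ih (by omega)
        obtain ⟨j, hj1, hj2⟩ := hu.chain a ha
        have hj := hmemN a (by omega) j hj1
        have h3 := hloc j hj _ hj1 _ hj2
        have h4 := hloc j hj _ hj2 _ hj1
        have hk0 : 0 < 1 + κ := by linarith
        constructor
        · calc y (u (a + 1)) ≤ (1 + κ) * y (u a) := h4
            _ ≤ (1 + κ) * ((1 + κ) ^ a * y (u 0)) := mul_le_mul_of_nonneg_left h1 hk0.le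
            _ = _ := by ring
        · calc y (u 0) ≤ (1 + κ) ^ a * y (u a) := h2
            _ ≤ (1 + κ) ^ a * ((1 + κ) * y (u (a + 1))) :=
              mul_le_mul_of_nonneg_left h3 (by positivity)
            _ = _ := by ring
    set ρ := (1 + κ) ^ (2 * k + 2) with hρ
    have hρ1 : 1 ≤ ρ := one_le_pow₀ hκ1
    -- all relevant coordinates
    set U := N.biUnion A with hU
    have hratio : ∀ a ∈ U, ∀ b ∈ U, y a ≤ ρ * y b := by
      intro a ha b hb
      rw [hU, mem_biUnion] at ha hb
      obtain ⟨j, hj, haj⟩ := ha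
      obtain ⟨j', hj', hbj⟩ := hb
      have hj2 := hj
      have hj2' := hj'
      rw [hN, NB, mem_filter] at hj2 hj2'
      obtain ⟨-, i, hi, hij⟩ := hj2
      obtain ⟨-, i', hi', hij'⟩ := hj2'
      rw [hl, List.mem_map] at hi hi'
      obtain ⟨s, hs, rfl⟩ := hi
      obtain ⟨s', hs', rfl⟩ := hi'
      rw [List.mem_range] at hs hs'
      have hk0 : 0 < 1 + κ := by linarith
      have e1 := hloc j hj a haj _ hij
      have e2 := (hup s hs).1
      have e3 := (hup s' hs').2
      have e4 := hloc j' hj' _ hij' b hbj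
      have hyb := hy b
      calc y a ≤ (1 + κ) * y (u s) := e1
        _ ≤ (1 + κ) * ((1 + κ) ^ s * y (u 0)) := mul_le_mul_of_nonneg_left e2 hk0.le
        _ ≤ (1 + κ) * ((1 + κ) ^ s * ((1 + κ) ^ s' * y (u s'))) := by
            apply mul_le_mul_of_nonneg_left _ hk0.le
            exact mul_le_mul_of_nonneg_left e3 (by positivity)
        _ ≤ (1 + κ) * ((1 + κ) ^ s * ((1 + κ) ^ s' * ((1 + κ) * y b))) := by
            apply mul_le_mul_of_nonneg_left _ hk0.le
            apply mul_le_mul_of_nonneg_left _ (by positivity)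
            exact mul_le_mul_of_nonneg_left e4 (by positivity)
        _ = (1 + κ) ^ (s + s' + 2) * y b := by ring
        _ ≤ ρ * y b := by
            apply mul_le_mul_of_nonneg_right _ hyb.le
            apply pow_le_pow_right₀ hκ1
            omega
    have hUne : U.Nonempty := by
      have h1 : N.Nonempty := by
        rw [← Finset.card_pos]
        omega
      obtain ⟨j, hj⟩ := h1
      obtain ⟨a, ha⟩ := hAne j hj
      exact ⟨a, by rw [hU, mem_biUnion]; exact ⟨j, hj, ha⟩⟩
    obtain ⟨c, hc, hmin⟩ := Finset.exists_min_image U y hUne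
    set mn := y c with hmn
    have hmn0 : 0 < mn := hy c
    -- lower bound for the value
    have hval : mn ^ (N.card - m) * eval (fun _ => (1 : ℝ)) p ≤ eval x p := by
      have e1 : eval x p = eval (fun i => if i ∈ U ∧ i ∉ l then x i else mn) p := by
        apply eval_congr_degreeOf
        intro i hi
        have h1 : i ∉ l := fun h => hi (DL_kill l _ i h)
        have h2 : i ∈ U := by
          have h3 : degreeOf i (PP A N) ≠ 0 := by
            intro h0
            have := degreeOf_DL l i (PP A N)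
            rw [h0] at this
            exact hi (Nat.le_zero.1 this)
          have h4 := degreeOf_PP_le A N i
          have h5 : (N.filter fun j => i ∈ A j).Nonempty := by
            rw [← Finset.card_pos]; omega
          obtain ⟨j, hj⟩ := h5
          rw [mem_filter] at hj
          rw [hU, mem_biUnion]
          exact ⟨j, hj.1, hj.2⟩
        rw [if_pos ⟨h2, h1⟩]
      rw [e1]
      have e2 : eval (fun _ => mn) p = mn ^ (N.card - m) * eval (fun _ => (1 : ℝ)) p := by
        have h1 := aeval_smul_hom (B := ℝ) (DL_hom l (PP_hom A N)) mn (fun _ => (1 : ℝ))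
        simp only [mul_one, hlen] at h1
        exact h1
      rw [← e2]
      apply hNN.eval_mono _ _ (fun _ => hmn0.le)
      intro i
      split_ifs with h
      · rw [← hyx i h.2]
        exact hmin i h.1
      · exact le_rfl
    have hlprod : mn ^ m ≤ (l.map y).prod := by
      have h1 : ∀ l' : List σ, (∀ i ∈ l', mn ≤ y i) → mn ^ l'.length ≤ (l'.map y).prod := by
        intro l'
        induction l' with
        | nil => simp
        | cons a l' ih =>
          intro h
          rw [List.length_cons, pow_succ, List.map_cons, List.prod_cons, mul_comm]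
          exact mul_le_mul (h a List.mem_cons_self)
            (ih fun i hi => h i (List.mem_cons_of_mem a hi)) (by positivity) (hy a).le
      have h2 := h1 l (fun i hi => by
        apply hmin
        rw [hl, List.mem_map] at hi
        obtain ⟨s, hs, rfl⟩ := hi
        rw [List.mem_range] at hs
        -- `u s` lies in some form
        by_cases h3 : s + 1 < m
        · obtain ⟨j, hj1, _⟩ := hu.chain s h3
          rw [hU, mem_biUnion]
          exact ⟨j, hmemN s hs j hj1, hj1⟩
        · obtain ⟨s, rfl⟩ : ∃ t, s = t + 1 := ⟨s - 1, by omega⟩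
          obtain ⟨j, _, hj2⟩ := hu.chain s hs
          rw [hU, mem_biUnion]
          exact ⟨j, hmemN _ hs j hj2, hj2⟩)
      rwa [hlen] at h2
    have hNd : N.card ≤ d * k := by
      have := card_NB_le A d hAd l
      rw [hlen] at this
      exact this.trans (Nat.mul_le_mul_left d hmk)
    -- upper bound for the product of the geometric means
    have hub : ∏ j ∈ N, ((d : ℝ) ^ d * ∏ i ∈ A j, y i) ≤ ((d * (ρ * mn)) ^ N.card) ^ d := by
      calc ∏ j ∈ N, ((d : ℝ) ^ d * ∏ i ∈ A j, y i) ≤ ∏ j ∈ N, ((d : ℝ) * (ρ * mn)) ^ d := by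
            apply Finset.prod_le_prod
            · intro j _
              have := hW j
              positivity
            · intro j hj
              rw [mul_pow]
              apply mul_le_mul_of_nonneg_left _ (by positivity)
              calc ∏ i ∈ A j, y i ≤ ∏ i ∈ A j, (ρ * mn) := by
                    apply Finset.prod_le_prod (fun i _ => (hy i).le)
                    intro i hi
                    exact hratio i (by rw [hU, mem_biUnion]; exact ⟨j, hj, hi⟩) c hc
                _ = (ρ * mn) ^ d := by rw [Finset.prod_const, hA]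
        _ = _ := by rw [Finset.prod_const, ← pow_mul, ← pow_mul, Nat.mul_comm d]
    have hfin : cst d ^ m * (β₀ / θ) * (d * (ρ * mn)) ^ N.card ≤
        eval x p * (l.map y).prod := by
      have h1 : (β₀ / θ) * ρ ^ N.card ≤ 1 + ε := by
        calc (β₀ / θ) * ρ ^ N.card ≤ β₀ * ρ ^ (d * k) := by
              apply mul_le_mul
              · rw [div_le_iff₀ hθ0]; nlinarith
              · exact pow_le_pow_right₀ hρ1 hNd
              · positivity
              · linarith
          _ = β₀ * (1 + κ) ^ ((2 * k + 2) * (d * k)) := by rw [hρ, ← pow_mul]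
          _ ≤ _ := hc2
      have hst := hu.strict
      calc cst d ^ m * (β₀ / θ) * (d * (ρ * mn)) ^ N.card
          = ((β₀ / θ) * ρ ^ N.card) * (cst d ^ m * (d : ℝ) ^ N.card) * mn ^ N.card := by
            rw [mul_pow, mul_pow]; ring
        _ ≤ (1 + ε) * (cst d ^ m * (d : ℝ) ^ N.card) * mn ^ N.card := by
            apply mul_le_mul_of_nonneg_right _ (by positivity)
            exact mul_le_mul_of_nonneg_right h1 (by positivity)
        _ ≤ eval (fun _ => (1 : ℝ)) p * mn ^ N.card :=
            mul_le_mul_of_nonneg_right hst (by positivity)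
        _ = (mn ^ (N.card - m) * eval (fun _ => (1 : ℝ)) p) * mn ^ m := by
            have : mn ^ N.card = mn ^ (N.card - m) * mn ^ m := by
              rw [← pow_add]; congr 1; omega
            rw [this]; ring
        _ ≤ eval x p * (l.map y).prod :=
            mul_le_mul hval hlprod (by positivity) hΦ.le
    calc (cst d ^ m * (β₀ / θ)) ^ d * ∏ j ∈ N, ((d : ℝ) ^ d * ∏ i ∈ A j, y i)
        ≤ (cst d ^ m * (β₀ / θ)) ^ d * ((d * (ρ * mn)) ^ N.card) ^ d := by
          have : 0 < β₀ / θ := by positivity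
          exact mul_le_mul_of_nonneg_left hub (by positivity)
      _ = (cst d ^ m * (β₀ / θ) * (d * (ρ * mn)) ^ N.card) ^ d := by rw [← mul_pow]
      _ ≤ _ := by
          apply pow_le_pow_left₀ _ hfin
          have : 0 < β₀ / θ := by positivity
          positivity

end

end Pool.Agent.H71K9.PM
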