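import Mathlib
import Pool.Agent.H71K9.Local

set_option autoImplicit false
set_option linter.unusedSectionVars false
set_option linter.unusedVariables false

/-!
# Many disjoint clusters
-/

namespace Pool.Agent.H71K9.PM

open MvPolynomial Finset

section
universe v w
variable {σ : Type v} [DecidableEq σ] [Fintype σ] {τ : Type w} [Fintype τ] [DecidableEq τ]

lemma DL_zero (l : List σ) : DL l (0 : MvPolynomial σ ℝ) = 0 := by
  induction l with
  | nil => rfl
  | cons a l ih =>
    rw [DL]
    have : D a (0 : MvPolynomial σ ℝ) = 0 := by simp [D]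
    rw [this, ih]

lemma Nice.DL (l : List σ) {p : MvPolynomial σ ℝ} (h : Nice p) (h0 : DL l p ≠ 0) :
    Nice (DL l p) := by
  induction l generalizing p with
  | nil => exact h
  | cons a l ih =>
    apply ih _ h0
    apply h.D
    intro h1
    apply h0
    rw [PM.DL, h1, DL_zero]

lemma prod_map_append (l l' : List σ) (y : σ → ℝ) :
    ((l ++ l').map y).prod = (l.map y).prod * (l'.map y).prod := by
  simp

variable {ι : Type*} [DecidableEq ι]

/-- factorisation for disjoint clusters -/
lemma DL_factor (A : τ → Finset σ) (l : ι → List σ) (Bs : List ι)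
    (hB : Bs.Pairwise fun b b' => Disjoint (NB A (l b)) (NB A (l b'))) (T : Finset τ)
    (hT : ∀ b ∈ Bs, NB A (l b) ⊆ T) (G : MvPolynomial σ ℝ)
    (hG : ∀ b ∈ Bs, ∀ i ∈ l b, degreeOf i G = 0) :
    DL (Bs.flatMap l) (G * PP A T) =
      G * (Bs.map fun b => DL (l b) (PP A (NB A (l b)))).prod *
        PP A (T.filter fun j => ∀ b ∈ Bs, j ∉ NB A (l b)) := by
  induction Bs generalizing T G with
  | nil => simp [DL]
  | cons b Bs ih =>
    rw [List.pairwise_cons] at hB
    have hbT := hT b List.mem_cons_self
    have e1 : PP A T = PP A (NB A (l b)) * PP A (T \ NB A (l b)) := by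
      rw [PP, PP, PP, mul_comm, Finset.prod_sdiff hbT]
    have hfree : ∀ i ∈ l b, degreeOf i (G * PP A (T \ NB A (l b))) = 0 := by
      intro i hi
      have h1 := degreeOf_mul_le i G (PP A (T \ NB A (l b)))
      rw [hG b List.mem_cons_self i hi, zero_add] at h1
      have h2 := degreeOf_PP_le A (T \ NB A (l b)) i
      have h3 : ((T \ NB A (l b)).filter fun j => i ∈ A j).card = 0 := by
        rw [Finset.card_eq_zero, Finset.filter_eq_empty_iff]
        intro j hj hij
        rw [mem_sdiff] at hj
        apply hj.2
        rw [NB, mem_filter]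
        exact ⟨mem_univ _, i, hi, hij⟩
      omega
    rw [List.flatMap_cons, DL_append, e1,
      show G * (PP A (NB A (l b)) * PP A (T \ NB A (l b))) =
        (G * PP A (T \ NB A (l b))) * PP A (NB A (l b)) by ring,
      DL_mul _ _ _ hfree,
      show G * PP A (T \ NB A (l b)) * DL (l b) (PP A (NB A (l b))) =
        (G * DL (l b) (PP A (NB A (l b)))) * PP A (T \ NB A (l b)) by ring,
      ih hB.2 _ _ _ _]
    · rw [List.map_cons, List.prod_cons]
      have e2 : (T \ NB A (l b)).filter (fun j => ∀ b ∈ Bs, j ∉ NB A (l b)) =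
          T.filter (fun j => ∀ b' ∈ b :: Bs, j ∉ NB A (l b')) := by
        ext j
        simp only [mem_filter, mem_sdiff, List.mem_cons, forall_eq_or_imp, and_assoc]
      rw [e2]
      ring
    · intro b' hb' j hj
      rw [mem_sdiff]
      refine ⟨hT b' (List.mem_cons_of_mem b hb') hj, ?_⟩
      intro hj2
      exact Finset.disjoint_left.1 (hB.1 b' hb') hj2 hj
    · intro b' hb' i hi
      have h1 := degreeOf_mul_le i G (DL (l b) (PP A (NB A (l b))))
      rw [hG b' (List.mem_cons_of_mem b hb') i hi, zero_add] at h1
      have h2 := (degreeOf_DL (l b) i (PP A (NB A (l b)))).trans (degreeOf_PP_le A _ i)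
      have h3 : ((NB A (l b)).filter fun j => i ∈ A j).card = 0 := by
        rw [Finset.card_eq_zero, Finset.filter_eq_empty_iff]
        intro j hj hij
        refine Finset.disjoint_left.1 (hB.1 b' hb') hj ?_
        rw [NB, mem_filter]
        exact ⟨mem_univ _, i, hi, hij⟩
      omega

/-- the bound from a family of disjoint clusters -/
theorem clusters_bound (d k : ℕ) (hd : 2 ≤ d) (ε : ℝ) (hε : 0 < ε) : ∃ β : ℝ, 1 < β ∧
    ∀ (σ : Type v) [DecidableEq σ] [Fintype σ] (τ : Type w) [Fintype τ] [DecidableEq τ]
      (A : τ → Finset σ), (∀ j, (A j).card = d) →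
      (∀ i, (univ.filter fun j => i ∈ A j).card = d) →
      ∀ (ι : Type v) [DecidableEq ι] (Bs : List ι) (m : ι → ℕ) (u : ι → ℕ → σ),
      (∀ b ∈ Bs, m b ≤ k ∧ 2 ≤ m b ∧ IsCluster A d ε (m b) (u b)) →
      (Bs.Pairwise fun b b' => Disjoint (NB A ((List.range (m b)).map (u b)))
        (NB A ((List.range (m b')).map (u b')))) →
      (cst d * d) ^ Fintype.card σ * β ^ Bs.length ≤
        (((Fintype.piFinset A).filter fun g => Function.Bijective g).card : ℝ) := by
  obtain ⟨β, hβ, hloc⟩ := local_gain.{v, w} d k hd ε hε
  refine ⟨β, hβ, ?_⟩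
  intro σ _ _ τ _ _ A hA hAd ι _ Bs m u hBs hpair
  have hcst := cst_pos d hd
  have hd0 : (0 : ℝ) < d := by positivity
  have hβ0 : 0 < β := by linarith
  set l : ι → List σ := fun b => (List.range (m b)).map (u b) with hl
  set L := Bs.flatMap l with hL
  set P := PP A (univ : Finset τ) with hP
  have hAne : ∀ j, (A j).Nonempty := by
    intro j; rw [← Finset.card_pos, hA]; omega
  have hNice : Nice P := PP_nice A univ fun j _ => hAne j
  have hcard : Fintype.card τ = Fintype.card σ := by
    have h1 : ∑ j : τ, (A j).card = ∑ i : σ, (univ.filter fun j => i ∈ A j).card := by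
      simp only [Finset.card_eq_sum_ones, Finset.sum_filter]
      rw [Finset.sum_comm]
      apply Finset.sum_congr rfl
      intro j _
      rw [Finset.sum_ite_mem, Finset.univ_inter]
    simp only [hA, hAd, Finset.sum_const, Finset.card_univ, smul_eq_mul] at h1
    exact Nat.eq_of_mul_eq_mul_right (by omega) h1
  -- the factorisation
  have hfac : DL L P = (Bs.map fun b => DL (l b) (PP A (NB A (l b)))).prod *
      PP A (univ.filter fun j => ∀ b ∈ Bs, j ∉ NB A (l b)) := by
    have := DL_factor A l Bs hpair univ (fun _ _ => Finset.subset_univ _) 1 (fun _ _ i _ => by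
      rw [← C_1, degreeOf_C])
    rw [one_mul, one_mul] at this
    exact this
  -- neighbourhoods
  have hmemNB : ∀ b, ∀ i ∈ l b, ∀ j, i ∈ A j → j ∈ NB A (l b) := by
    intro b i hi j hij
    rw [NB, mem_filter]
    exact ⟨mem_univ _, i, hi, hij⟩
  have hsym : ∀ b ∈ Bs, ∀ b' ∈ Bs, b ≠ b' → Disjoint (NB A (l b)) (NB A (l b')) := by
    intro b hb b' hb' hne
    haveI : Std.Symm (fun b b' => Disjoint (NB A ((List.range (m b)).map (u b)))
        (NB A ((List.range (m b')).map (u b')))) := ⟨fun _ _ h => h.symm⟩
    exact hpair.forall hb hb' hne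
  have hex : ∀ i : σ, ∃ j, i ∈ A j := by
    intro i
    have h1 : (univ.filter fun j => i ∈ A j).Nonempty := by
      rw [← Finset.card_pos, hAd]; omega
    obtain ⟨j, hj⟩ := h1
    exact ⟨j, (mem_filter.1 hj).2⟩
  -- no repetitions
  have hBnd : Bs.Nodup := by
    apply hpair.imp_of_mem
    intro b b' hb hb' hdis hbb
    subst hbb
    have h2 := (hBs b hb).2.2.card
    have h3 := (hBs b hb).2.1
    have : NB A (l b) = ∅ := Finset.disjoint_self_iff_empty _ |>.1 hdis
    rw [hl] at this
    rw [this] at h2
    simp at h2
    omega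
  have hLnd : L.Nodup := by
    rw [hL, List.nodup_flatMap]
    constructor
    · intro b hb
      rw [hl]
      apply (List.nodup_map_iff_inj_on List.nodup_range).2
      intro a ha c hc
      exact (hBs b hb).2.2.inj a (List.mem_range.1 ha) c (List.mem_range.1 hc)
    · apply hpair.imp
      intro b b' hdis i hi hi'
      obtain ⟨j, hj⟩ := hex i
      exact Finset.disjoint_left.1 hdis (hmemNB b i hi j hj) (hmemNB b' i hi' j hj)
  -- the remaining variables
  set l' := (univ.filter fun i : σ => i ∉ L).toList with hl'
  have hl'nd : l'.Nodup := Finset.nodup_toList _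
  have hmeml' : ∀ i, i ∈ l' ↔ i ∉ L := by
    intro i; rw [hl', Finset.mem_toList, mem_filter]; simp
  have hfull : (L ++ l').Nodup := by
    rw [List.nodup_append]
    refine ⟨hLnd, hl'nd, ?_⟩
    intro a ha b hb hab
    subst hab
    exact (hmeml' a).1 hb ha
  have hall : ∀ i, i ∈ L ++ l' := by
    intro i
    rw [List.mem_append]
    by_cases h : i ∈ L
    · exact Or.inl h
    · exact Or.inr ((hmeml' i).2 h)
  have hprodall : ∀ y : σ → ℝ, ∏ i, y i = (L.map y).prod * (l'.map y).prod := by
    intro y
    rw [← prod_map_append]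
    have h1 : (L ++ l').toFinset = univ := by
      ext i; simpa using hall i
    rw [← h1, List.prod_toFinset _ hfull]
  have hlenall : L.length + l'.length = Fintype.card σ := by
    have h1 : (L ++ l').toFinset = univ := by
      ext i; simpa using hall i
    have h2 := List.toFinset_card_of_nodup hfull
    rw [h1, Finset.card_univ, List.length_append] at h2
    exact h2.symm
  have hlenL : ∀ Cs : List ι, (Cs.flatMap l).length = (Cs.map m).sum := by
    intro Cs
    induction Cs with
    | nil => rfl
    | cons b Cs ih =>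
      rw [List.flatMap_cons, List.length_append, ih, List.map_cons, List.sum_cons, hl]
      simp
  -- the main inequality
  have key : ∀ x : σ → ℝ, (∀ i, 0 < x i) →
      (cst d ^ L.length * (d : ℝ) ^ Fintype.card σ * β ^ Bs.length) * (l'.map x).prod ≤
        eval x (DL L P) := by
    intro x hx
    have h1 : ∀ b : ι, ∃ y : σ → ℝ, b ∈ Bs → (∀ i, 0 < y i) ∧ (∀ i, i ∉ l b → y i = x i) ∧
        (cst d ^ m b * β) ^ d * ∏ j ∈ NB A (l b), ((d : ℝ) ^ d * ∏ i ∈ A j, y i) ≤
          (eval x (DL (l b) (PP A (NB A (l b)))) * ((l b).map y).prod) ^ d := by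
      intro b
      by_cases hb : b ∈ Bs
      · obtain ⟨y, hy⟩ := hloc σ τ A hA (fun i => (hAd i).le) (m b) (hBs b hb).1
          (hBs b hb).2.1 (u b) (hBs b hb).2.2 x hx
        exact ⟨y, fun _ => hy⟩
      · exact ⟨x, fun h => absurd h hb⟩
    choose yb hyb using h1
    -- glue
    classical
    let y : σ → ℝ := fun i => if h : ∃ b ∈ Bs, i ∈ l b then yb h.choose i else x i
    have hy_in : ∀ b ∈ Bs, ∀ i ∈ l b, y i = yb b i := by
      intro b hb i hi
      have h : ∃ b ∈ Bs, i ∈ l b := ⟨b, hb, hi⟩
      have h2 : h.choose = b := by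
        by_contra hne
        obtain ⟨j, hj⟩ := hex i
        exact Finset.disjoint_left.1 (hsym _ h.choose_spec.1 b hb hne)
          (hmemNB _ i h.choose_spec.2 j hj) (hmemNB b i hi j hj)
      simp only [y, dif_pos h, h2]
    have hy_out : ∀ i, (∀ b ∈ Bs, i ∉ l b) → y i = x i := by
      intro i hi
      have h : ¬ ∃ b ∈ Bs, i ∈ l b := by push Not; exact hi
      simp only [y, dif_neg h]
    have hypos : ∀ i, 0 < y i := by
      intro i
      by_cases h : ∃ b ∈ Bs, i ∈ l b
      · obtain ⟨b, hb, hi⟩ := h
        rw [hy_in b hb i hi]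
        exact (hyb b hb).1 i
      · push Not at h
        rw [hy_out i h]
        exact hx i
    have hy_A : ∀ b ∈ Bs, ∀ j ∈ NB A (l b), ∀ i ∈ A j, y i = yb b i := by
      intro b hb j hj i hij
      by_cases hi : i ∈ l b
      · exact hy_in b hb i hi
      · rw [(hyb b hb).2.1 i hi]
        apply hy_out
        intro b' hb' hi'
        by_cases hbb : b' = b
        · subst hbb; exact hi hi'
        · exact Finset.disjoint_left.1 (hsym b' hb' b hb hbb) (hmemNB b' i hi' j hij) hj
    -- product over the clusters
    have hcl : ∀ Cs : List ι, (∀ b ∈ Cs, b ∈ Bs) →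
        (Cs.Pairwise fun b b' => Disjoint (NB A (l b)) (NB A (l b'))) →
        (cst d ^ (Cs.flatMap l).length * β ^ Cs.length) ^ d *
          ∏ j ∈ univ.filter (fun j => ∃ b ∈ Cs, j ∈ NB A (l b)), ((d : ℝ) ^ d * ∏ i ∈ A j, y i) ≤
        ((Cs.map fun b => eval x (DL (l b) (PP A (NB A (l b))))).prod *
          ((Cs.flatMap l).map y).prod) ^ d := by
      intro Cs
      induction Cs with
      | nil => intro _ _; simp
      | cons b Cs ih =>
        intro hmem hp
        rw [List.pairwise_cons] at hp
        have ih' := ih (fun b' hb' => hmem b' (List.mem_cons_of_mem b hb')) hp.2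
        have hb := hmem b List.mem_cons_self
        have h2 := (hyb b hb).2.2
        have e1 : univ.filter (fun j => ∃ b' ∈ b :: Cs, j ∈ NB A (l b')) =
            NB A (l b) ∪ univ.filter (fun j => ∃ b' ∈ Cs, j ∈ NB A (l b')) := by
          ext j
          simp only [mem_filter, mem_univ, true_and, mem_union, List.mem_cons, exists_eq_or_imp]
        have e2 : Disjoint (NB A (l b)) (univ.filter (fun j => ∃ b' ∈ Cs, j ∈ NB A (l b'))) := by
          rw [Finset.disjoint_left]
          intro j hj hj'
          rw [mem_filter] at hj'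
          obtain ⟨-, b', hb', hj'⟩ := hj'
          exact Finset.disjoint_left.1 (hp.1 b' hb') hj hj'
        have e3 : ∏ j ∈ NB A (l b), ((d : ℝ) ^ d * ∏ i ∈ A j, yb b i) =
            ∏ j ∈ NB A (l b), ((d : ℝ) ^ d * ∏ i ∈ A j, y i) := by
          apply Finset.prod_congr rfl
          intro j hj
          congr 1
          apply Finset.prod_congr rfl
          intro i hi
          exact (hy_A b hb j hj i hi).symm
        have e4 : ((l b).map (yb b)).prod = ((l b).map y).prod := by
          congr 1
          apply List.map_congr_left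
          intro i hi
          exact (hy_in b hb i hi).symm
        have e5 : (l b).length = m b := by rw [hl]; simp
        rw [e3, e4] at h2
        rw [e1, Finset.prod_union e2, List.flatMap_cons, List.length_append, e5,
          List.length_cons, List.map_cons, List.prod_cons, prod_map_append]
        calc _ = ((cst d ^ m b * β) ^ d * ∏ j ∈ NB A (l b), ((d : ℝ) ^ d * ∏ i ∈ A j, y i)) *
              ((cst d ^ (Cs.flatMap l).length * β ^ Cs.length) ^ d *
              ∏ j ∈ univ.filter (fun j => ∃ b ∈ Cs, j ∈ NB A (l b)),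
                ((d : ℝ) ^ d * ∏ i ∈ A j, y i)) := by
              rw [pow_add, pow_succ]; ring
          _ ≤ ((eval x (DL (l b) (PP A (NB A (l b)))) * ((l b).map y).prod) ^ d) *
              (((Cs.map fun b => eval x (DL (l b) (PP A (NB A (l b))))).prod *
                ((Cs.flatMap l).map y).prod) ^ d) := by
              apply mul_le_mul h2 ih'
              · apply mul_nonneg (by positivity)
                apply Finset.prod_nonneg
                intro j _
                have : 0 < ∏ i ∈ A j, y i := Finset.prod_pos fun i _ => hypos i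
                positivity
              · have h3 : 0 ≤ eval x (DL (l b) (PP A (NB A (l b)))) :=
                  ((NN.PP A _).DL _).eval_nonneg x fun i => (hx i).le
                have h4 : 0 ≤ ((l b).map y).prod := by
                  apply List.prod_nonneg
                  intro a ha
                  rw [List.mem_map] at ha
                  obtain ⟨j, _, rfl⟩ := ha
                  exact (hypos j).le
                positivity
          _ = _ := by rw [← mul_pow]; ring
    have h2 := hcl Bs (fun _ h => h) hpair
    -- the other forms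
    have h3 : ∏ j ∈ univ.filter (fun j => ∀ b ∈ Bs, j ∉ NB A (l b)),
        ((d : ℝ) ^ d * ∏ i ∈ A j, y i) ≤
        (eval x (PP A (univ.filter fun j => ∀ b ∈ Bs, j ∉ NB A (l b)))) ^ d := by
      rw [eval_PP, ← Finset.prod_pow]
      apply Finset.prod_le_prod
      · intro j _
        have : 0 < ∏ i ∈ A j, y i := Finset.prod_pos fun i _ => hypos i
        positivity
      · intro j hj
        rw [mem_filter] at hj
        have h4 : ∀ i ∈ A j, y i = x i := by
          intro i hi
          apply hy_out
          intro b hb hib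
          exact hj.2 b hb (hmemNB b i hib j hi)
        rw [Finset.prod_congr rfl h4]
        have := amgm_finset (A j) x (fun i _ => (hx i).le)
        rwa [hA j] at this
    -- all forms together
    have h4 : (∏ j ∈ univ.filter (fun j => ∃ b ∈ Bs, j ∈ NB A (l b)),
        ((d : ℝ) ^ d * ∏ i ∈ A j, y i)) *
        ∏ j ∈ univ.filter (fun j => ∀ b ∈ Bs, j ∉ NB A (l b)),
        ((d : ℝ) ^ d * ∏ i ∈ A j, y i) = ((d : ℝ) ^ Fintype.card σ * ∏ i, y i) ^ d := by
      have e1 : univ.filter (fun j => ∀ b ∈ Bs, j ∉ NB A (l b)) =
          univ.filter (fun j => ¬ ∃ b ∈ Bs, j ∈ NB A (l b)) := by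
        apply Finset.filter_congr
        intro j _
        push Not
        rfl
      rw [e1, Finset.prod_filter_mul_prod_filter_not, Finset.prod_mul_distrib,
        Finset.prod_const, Finset.card_univ, hcard, mul_pow, ← pow_mul, ← pow_mul,
        Nat.mul_comm d]
      congr 1
      have e2 : ∏ j : τ, ∏ i ∈ A j, y i = ∏ j : τ, ∏ i : σ, if i ∈ A j then y i else 1 := by
        apply Finset.prod_congr rfl
        intro j _
        rw [Finset.prod_ite_mem, Finset.univ_inter]
      rw [e2, Finset.prod_comm, ← Finset.prod_pow]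
      apply Finset.prod_congr rfl
      intro i _
      rw [← Finset.prod_filter, Finset.prod_const, hAd]
    have hevalL : eval x (DL L P) = (Bs.map fun b => eval x (DL (l b) (PP A (NB A (l b))))).prod *
        eval x (PP A (univ.filter fun j => ∀ b ∈ Bs, j ∉ NB A (l b))) := by
      rw [hfac, map_mul]
      congr 1
      rw [map_list_prod, List.map_map]
      rfl
    have hLy : 0 < (L.map y).prod := by
      apply List.prod_pos
      intro a ha
      rw [List.mem_map] at ha
      obtain ⟨j, _, rfl⟩ := ha
      exact hypos j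
    have hval0 : 0 ≤ eval x (DL L P) := ((NN.PP A _).DL _).eval_nonneg x fun i => (hx i).le
    have h5 : (cst d ^ L.length * β ^ Bs.length * ((d : ℝ) ^ Fintype.card σ * ∏ i, y i)) ^ d ≤
        (eval x (DL L P) * (L.map y).prod) ^ d := by
      calc _ = (cst d ^ L.length * β ^ Bs.length) ^ d *
            ((d : ℝ) ^ Fintype.card σ * ∏ i, y i) ^ d := by rw [mul_pow]
        _ = ((cst d ^ L.length * β ^ Bs.length) ^ d *
            ∏ j ∈ univ.filter (fun j => ∃ b ∈ Bs, j ∈ NB A (l b)),
              ((d : ℝ) ^ d * ∏ i ∈ A j, y i)) *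
            ∏ j ∈ univ.filter (fun j => ∀ b ∈ Bs, j ∉ NB A (l b)),
              ((d : ℝ) ^ d * ∏ i ∈ A j, y i) := by rw [← h4]; ring
        _ ≤ (((Bs.map fun b => eval x (DL (l b) (PP A (NB A (l b))))).prod *
              ((Bs.flatMap l).map y).prod) ^ d) *
            (eval x (PP A (univ.filter fun j => ∀ b ∈ Bs, j ∉ NB A (l b)))) ^ d := by
            apply mul_le_mul h2 h3
            · apply Finset.prod_nonneg
              intro j _
              have : 0 < ∏ i ∈ A j, y i := Finset.prod_pos fun i _ => hypos i
              positivity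
            · apply pow_nonneg
              apply mul_nonneg
              · apply List.prod_nonneg
                intro a ha
                rw [List.mem_map] at ha
                obtain ⟨b, _, rfl⟩ := ha
                exact ((NN.PP A _).DL _).eval_nonneg x fun i => (hx i).le
              · exact hLy.le
        _ = _ := by rw [hevalL, ← mul_pow]; ring
    have h6 := le_of_pow_le_pow_left₀ (by omega) (by positivity) h5
    rw [hprodall y] at h6
    have h7 : (l'.map y).prod = (l'.map x).prod := by
      congr 1
      apply List.map_congr_left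
      intro i hi
      apply hy_out
      intro b hb hib
      apply (hmeml' i).1 hi
      rw [hL, List.mem_flatMap]
      exact ⟨b, hb, hib⟩
    rw [h7] at h6
    have h8 : (cst d ^ L.length * (d : ℝ) ^ Fintype.card σ * β ^ Bs.length * (l'.map x).prod) *
        (L.map y).prod ≤ eval x (DL L P) * (L.map y).prod := by
      calc _ = cst d ^ L.length * β ^ Bs.length *
            ((d : ℝ) ^ Fintype.card σ * ((L.map y).prod * (l'.map x).prod)) := by ring
        _ ≤ _ := h6
    exact le_of_mul_le_mul_right h8 hLy
  -- the remaining steps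
  have hne : DL L P ≠ 0 := by
    intro h0
    have h1 := key (fun _ => 1) (fun _ => one_pos)
    rw [h0, map_zero] at h1
    have h2 : (0 : ℝ) < (l'.map fun _ : σ => (1 : ℝ)).prod := by simp
    have h3 : 0 < (cst d ^ L.length * (d : ℝ) ^ Fintype.card σ * β ^ Bs.length) *
        (l'.map fun _ : σ => (1 : ℝ)).prod := by positivity
    linarith
  have hfin := gurvits_list hd l' (hNice.DL L hne) hl'nd
    (fun i _ => (degreeOf_DL L i P).trans ((degreeOf_PP_le A univ i).trans (hAd i).le))
    (fun _ => 1) (fun _ => one_pos)
    (cst d ^ L.length * (d : ℝ) ^ Fintype.card σ * β ^ Bs.length) (by positivity)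
    (fun y hy _ => key y hy)
  rw [← DL_append, eval_DL_full A _ hfull hall] at hfin
  refine le_trans (le_of_eq ?_) hfin
  rw [← hlenall, mul_pow, pow_add, pow_add]
  ring

end

end Pool.Agent.H71K9.PM
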