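import Mathlib
import Pool.Agent.H71K9.Global

set_option autoImplicit false
set_option linter.unusedSectionVars false
set_option linter.unusedVariables false

/-!
# The values of the clusters at the point `1`
-/

namespace Pool.Agent.H71K9.PM

open MvPolynomial Finset

section
universe v w
variable {σ : Type v} [DecidableEq σ] [Fintype σ] {τ : Type w} [Fintype τ] [DecidableEq τ]

/-- set the variables outside of `S` equal to one -/
noncomputable def sp (S : Finset σ) : MvPolynomial σ ℝ →ₐ[ℝ] MvPolynomial σ ℝ :=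
  aeval (fun i => if i ∈ S then X i else 1)

lemma pderiv_sp (S : Finset σ) (i : σ) (hi : i ∈ S) (p : MvPolynomial σ ℝ) :
    pderiv i (sp S p) = sp S (pderiv i p) := by
  induction p using MvPolynomial.induction_on with
  | C a => simp [sp]
  | add p q hp hq => simp [hp, hq]
  | mul_X p j hp =>
    rw [map_mul, pderiv_mul, hp, pderiv_mul, map_add, map_mul, map_mul]
    congr 1
    by_cases h : j = i
    · subst h; simp [sp, hi]
    · by_cases hj : j ∈ S
      · simp [sp, hj, pderiv_X_of_ne h]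
      · simp [sp, hj, pderiv_X_of_ne h]

lemma E_sp (S : Finset σ) (i : σ) (hi : i ∈ S) (p : MvPolynomial σ ℝ) :
    E i (sp S p) = sp S (E i p) := by
  induction p using MvPolynomial.induction_on with
  | C a => simp [sp, E]
  | add p q hp hq => simp [hp, hq]
  | mul_X p j hp =>
    rw [map_mul, map_mul, hp, map_mul, map_mul]
    congr 1
    by_cases h : j = i
    · subst h; simp [sp, E, hi]
    · by_cases hj : j ∈ S
      · simp [sp, E, hj, h]
      · simp [sp, E, hj, h]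

lemma D_sp (S : Finset σ) (i : σ) (hi : i ∈ S) (p : MvPolynomial σ ℝ) :
    D i (sp S p) = sp S (D i p) := by
  rw [D, pderiv_sp S i hi, E_sp S i hi, D]

lemma DL_sp (S : Finset σ) (l : List σ) (hl : ∀ i ∈ l, i ∈ S) (p : MvPolynomial σ ℝ) :
    DL l (sp S p) = sp S (DL l p) := by
  induction l generalizing p with
  | nil => rfl
  | cons a l ih =>
    rw [DL, D_sp S a (hl a List.mem_cons_self), ih fun i hi => hl i (List.mem_cons_of_mem a hi)]
    rfl

lemma eval_sp (S : Finset σ) (p : MvPolynomial σ ℝ) :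
    eval (fun _ => (1 : ℝ)) (sp S p) = eval (fun _ => (1 : ℝ)) p := by
  induction p using MvPolynomial.induction_on with
  | C a => simp [sp]
  | add p q hp hq => simp [hp, hq]
  | mul_X p j hp =>
    rw [map_mul, map_mul, hp, map_mul]
    congr 1
    by_cases hj : j ∈ S <;> simp [sp, hj]

lemma eval_DL_sp (S : Finset σ) (l : List σ) (hl : ∀ i ∈ l, i ∈ S) (p : MvPolynomial σ ℝ) :
    eval (fun _ => (1 : ℝ)) (DL l p) = eval (fun _ => (1 : ℝ)) (DL l (sp S p)) := by
  rw [DL_sp S l hl, eval_sp]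

lemma sp_lf (S : Finset σ) (s : Finset σ) :
    sp S (lf s) = ∑ i ∈ s ∩ S, X i + C ((s \ S).card : ℝ) := by
  rw [lf, map_sum, ← Finset.sum_inter_add_sum_sdiff s S]
  congr 1
  · apply Finset.sum_congr rfl
    intro i hi
    rw [mem_inter] at hi
    simp [sp, hi.2]
  · rw [Finset.sum_congr rfl (g := fun _ => (1 : MvPolynomial σ ℝ))]
    · rw [Finset.sum_const, nsmul_eq_mul, mul_one, map_natCast]
    · intro i hi
      rw [mem_sdiff] at hi
      simp [sp, hi.2]

/-- the numerical constant -/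
noncomputable def kap (q : ℕ) : ℝ := (q : ℝ) ^ (q - 1) / q

lemma pow_q1 (q : ℕ) (hq : 1 ≤ q) : (q : ℝ) ^ (q - 1) = kap q * q := by
  have : (q : ℝ) ≠ 0 := by positivity
  rw [kap, div_mul_cancel₀ _ this]

lemma pow_q2 (q : ℕ) (hq : 1 ≤ q) :
    ((q - 1 : ℕ) : ℝ) * (q : ℝ) ^ (q - 1 - 1) = ((q : ℝ) - 1) * kap q := by
  have h0 : (q : ℝ) ≠ 0 := by positivity
  rcases Nat.lt_or_ge 1 q with h | h
  · obtain ⟨k, rfl⟩ : ∃ k, q = k + 2 := ⟨q - 2, by omega⟩
    rw [kap]
    have e1 : k + 2 - 1 = k + 1 := by omega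
    have e2 : k + 2 - 1 - 1 = k := by omega
    rw [e2, e1, pow_succ, mul_div_assoc, div_self h0, mul_one]
    push_cast
    ring
  · have : q = 1 := by omega
    subst this; simp [kap]

/-- the factor `(x_i + q) ^ (q - 1)` -/
noncomputable def fac (q : ℕ) (i : σ) : MvPolynomial σ ℝ := (X i + C (q : ℝ)) ^ (q - 1)

lemma E_fac_self (q : ℕ) (hq : 1 ≤ q) (i : σ) : E i (fac q i) = C (kap q) * C (q : ℝ) := by
  rw [fac, map_pow, map_add, E_X_self, E_C, zero_add, ← C_pow, pow_q1 q hq, C_mul]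

lemma D_fac_self (q : ℕ) (hq : 1 ≤ q) (i : σ) :
    D i (fac q i) = (C (q : ℝ) - 1) * C (kap q) := by
  rw [fac, D_pow, D_add, D_X_self, D_C, add_zero, mul_one, map_add, E_X_self, E_C, zero_add,
    ← C_pow, ← map_natCast (C : ℝ →+* MvPolynomial σ ℝ), ← C_mul, pow_q2 q hq, C_mul, C_sub, C_1]

lemma E_fac_ne (q : ℕ) {i j : σ} (h : j ≠ i) : E i (fac q j) = fac q j := by
  rw [fac, map_pow, map_add, E_X_ne h, E_C]

lemma D_fac_ne (q : ℕ) {i j : σ} (h : j ≠ i) : D i (fac q j) = 0 := by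
  rw [fac, D_pow, D_add, D_X_ne h, D_C, add_zero, mul_zero]

/-- the main factor of the intermediate polynomials -/
noncomputable def hd (q : ℕ) (α β : ℝ) (x y : MvPolynomial σ ℝ) : MvPolynomial σ ℝ :=
  C α * (x + C (q : ℝ)) * (y + C (q : ℝ)) + C β * (x - 1) * (y - 1)

/-- the intermediate polynomials for a cycle -/
noncomputable def St (q m : ℕ) (u : ℕ → σ) (i : ℕ) (α β : ℝ) : MvPolynomial σ ℝ :=
  hd q α β (X (u i)) (X (u (m - 1))) * (∏ a ∈ Finset.Ico i m, fac q (u a)) *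
    ∏ a ∈ Finset.Ico i (m - 1), (X (u a) + X (u (a + 1)) + C ((q : ℝ) - 1))

lemma D_free_mul (i : σ) (F G : MvPolynomial σ ℝ) (hE : E i G = G) (hD : D i G = 0) :
    D i (F * G) = D i F * G := by
  rw [D_mul, hE, hD, mul_zero, add_zero]

lemma E_prod {ι : Type*} (i : σ) (s : Finset ι) (f : ι → MvPolynomial σ ℝ)
    (h : ∀ a ∈ s, E i (f a) = f a) : E i (∏ a ∈ s, f a) = ∏ a ∈ s, f a := by
  rw [map_prod]
  exact Finset.prod_congr rfl h

lemma D_prod {ι : Type*} [DecidableEq ι] (i : σ) (s : Finset ι) (f : ι → MvPolynomial σ ℝ)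
    (h : ∀ a ∈ s, E i (f a) = f a) (hd : ∀ a ∈ s, D i (f a) = 0) : D i (∏ a ∈ s, f a) = 0 := by
  induction s using Finset.induction_on with
  | empty => rw [Finset.prod_empty, ← C_1, D_C]
  | insert a s ha ih =>
    rw [Finset.prod_insert ha, D_mul, hd a (mem_insert_self a s),
      ih (fun b hb => h b (mem_insert_of_mem hb)) (fun b hb => hd b (mem_insert_of_mem hb))]
    simp

lemma D_sub (i : σ) (p q : MvPolynomial σ ℝ) : D i (p - q) = D i p - D i q := by
  simp [D]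

lemma D_one (i : σ) : D i (1 : MvPolynomial σ ℝ) = 0 := by rw [← C_1, D_C]

lemma St_step (q m : ℕ) (hq : 1 ≤ q) (u : ℕ → σ) (hinj : ∀ a < m, ∀ b < m, u a = u b → a = b)
    (i : ℕ) (hi : i + 1 < m) (α β : ℝ) :
    D (u i) (St q m u i α β) = St q m u (i + 1) (α * (kap q * q ^ 2)) (β * kap q) := by
  have hne : ∀ a, i < a → a < m → u a ≠ u i := by
    intro a h1 h2 h3
    have := hinj a h2 i (by omega) h3
    omega
  have e1 : ∏ a ∈ Finset.Ico i m, fac q (u a) =
      fac q (u i) * ∏ a ∈ Finset.Ico (i + 1) m, fac q (u a) := by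
    rw [Finset.prod_eq_prod_Ico_succ_bot (by omega)]
  have e2 : ∏ a ∈ Finset.Ico i (m - 1), (X (u a) + X (u (a + 1)) + C ((q : ℝ) - 1)) =
      (X (u i) + X (u (i + 1)) + C ((q : ℝ) - 1)) *
        ∏ a ∈ Finset.Ico (i + 1) (m - 1),
          (X (u a) + X (u (a + 1)) + C ((q : ℝ) - 1) : MvPolynomial σ ℝ) := by
    rw [Finset.prod_eq_prod_Ico_succ_bot (by omega)]
  set R1 := ∏ a ∈ Finset.Ico (i + 1) m, fac q (u a) with hR1
  set R2 := ∏ a ∈ Finset.Ico (i + 1) (m - 1),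
          (X (u a) + X (u (a + 1)) + C ((q : ℝ) - 1) : MvPolynomial σ ℝ) with hR2
  have hE1 : E (u i) R1 = R1 := E_prod _ _ _ fun a ha => by
    rw [Finset.mem_Ico] at ha
    exact E_fac_ne q (hne a (by omega) ha.2)
  have hD1 : D (u i) R1 = 0 := D_prod _ _ _ (fun a ha => by
    rw [Finset.mem_Ico] at ha
    exact E_fac_ne q (hne a (by omega) ha.2)) (fun a ha => by
    rw [Finset.mem_Ico] at ha
    exact D_fac_ne q (hne a (by omega) ha.2))
  have hlinE : ∀ a ∈ Finset.Ico (i + 1) (m - 1),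
      E (u i) (X (u a) + X (u (a + 1)) + C ((q : ℝ) - 1)) =
        X (u a) + X (u (a + 1)) + C ((q : ℝ) - 1) := by
    intro a ha
    rw [Finset.mem_Ico] at ha
    rw [map_add, map_add, E_X_ne (hne a (by omega) (by omega)),
      E_X_ne (hne (a + 1) (by omega) (by omega)), E_C]
  have hlinD : ∀ a ∈ Finset.Ico (i + 1) (m - 1),
      D (u i) (X (u a) + X (u (a + 1)) + C ((q : ℝ) - 1)) = 0 := by
    intro a ha
    rw [Finset.mem_Ico] at ha
    rw [D_add, D_add, D_X_ne (hne a (by omega) (by omega)),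
      D_X_ne (hne (a + 1) (by omega) (by omega)), D_C]
    simp
  have hE2 : E (u i) R2 = R2 := E_prod _ _ _ hlinE
  have hD2 : D (u i) R2 = 0 := D_prod _ _ _ hlinE hlinD
  rw [St, e1, e2]
  rw [show hd q α β (X (u i)) (X (u (m - 1))) * (fac q (u i) * R1) *
      ((X (u i) + X (u (i + 1)) + C ((q : ℝ) - 1)) * R2) =
      (hd q α β (X (u i)) (X (u (m - 1))) * fac q (u i) *
        (X (u i) + X (u (i + 1)) + C ((q : ℝ) - 1))) * (R1 * R2) by ring]
  rw [D_free_mul _ _ _ (by rw [map_mul, hE1, hE2]) (by rw [D_mul, hD1, hD2]; simp)]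
  rw [St, ← hR1, ← hR2, mul_assoc (hd q _ _ _ _) R1 R2]
  congr 1
  have hY := hne (m - 1) (by omega) (by omega)
  have hZ := hne (i + 1) (by omega) (by omega)
  rw [D_mul, D_mul, map_mul, E_fac_self q hq, D_fac_self q hq]
  simp only [hd, D_add, D_mul, D_sub, D_X_self, D_X_ne hY, D_X_ne hZ, D_C, D_one, map_add, map_mul,
    map_sub, map_one, E_X_self, E_X_ne hY, E_X_ne hZ, E_C, C_mul, C_sub, C_1, C_pow]
  generalize (X (u (m - 1)) : MvPolynomial σ ℝ) = Y
  generalize (X (u (i + 1)) : MvPolynomial σ ℝ) = Z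
  generalize (C (q : ℝ) : MvPolynomial σ ℝ) = Q
  generalize (C (kap q) : MvPolynomial σ ℝ) = K
  generalize (C α : MvPolynomial σ ℝ) = a
  generalize (C β : MvPolynomial σ ℝ) = b
  ring

lemma St_last (q m : ℕ) (hq : 1 ≤ q) (hm : 1 ≤ m) (u : ℕ → σ) (α β : ℝ) :
    eval (fun _ => (1 : ℝ)) (D (u (m - 1)) (St q m u (m - 1) α β)) =
      ((q : ℝ) + 1) * (α * (kap q * q ^ 2) - β * kap q) := by
  have e1 : Finset.Ico (m - 1) m = {m - 1} := by
    ext a; rw [Finset.mem_Ico, Finset.mem_singleton]; omega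
  rw [St, e1, Finset.prod_singleton, Finset.Ico_self, Finset.prod_empty, mul_one, D_mul,
    E_fac_self q hq, D_fac_self q hq]
  simp only [hd, D_add, D_mul, D_sub, D_X_self, D_C, D_one, map_add, map_mul,
    map_sub, map_one, map_zero, E_X_self, E_C, eval_C]
  ring

lemma St_DL (q m : ℕ) (hq : 1 ≤ q) (u : ℕ → σ) (hinj : ∀ a < m, ∀ b < m, u a = u b → a = b)
    (n i : ℕ) (hn : i + n + 1 = m) (α β : ℝ) :
    eval (fun _ => (1 : ℝ)) (DL ((List.range' i (n + 1)).map u) (St q m u i α β)) =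
      ((q : ℝ) + 1) * (α * (kap q * q ^ 2) ^ (n + 1) - β * kap q ^ (n + 1)) := by
  induction n generalizing i α β with
  | zero =>
    have : i = m - 1 := by omega
    subst this
    rw [List.range'_succ, List.map_cons]
    simp only [List.range'_zero, List.map_nil, DL]
    rw [St_last q m hq (by omega)]
    ring
  | succ n ih =>
    rw [List.range'_succ, List.map_cons, DL, St_step q m hq u hinj i (by omega),
      ih (i + 1) (by omega)]
    ring

/-- the first step -/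
lemma St_first (q m : ℕ) (hq : 1 ≤ q) (hm : 3 ≤ m) (u : ℕ → σ)
    (hinj : ∀ a < m, ∀ b < m, u a = u b → a = b) :
    D (u 0) ((∏ a ∈ Finset.range m, fac q (u a)) *
      ((∏ a ∈ Finset.range (m - 1), (X (u a) + X (u (a + 1)) + C ((q : ℝ) - 1))) *
        (X (u (m - 1)) + X (u 0) + C ((q : ℝ) - 1)))) =
      St q m u 1 (kap q * q ^ 2 / (q + 1)) (-(kap q) / (q + 1)) := by
  have hne : ∀ a, 0 < a → a < m → u a ≠ u 0 := by
    intro a h1 h2 h3
    have := hinj a h2 0 (by omega) h3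
    omega
  have e1 : ∏ a ∈ Finset.range m, fac q (u a) =
      fac q (u 0) * ∏ a ∈ Finset.Ico 1 m, fac q (u a) := by
    rw [Finset.range_eq_Ico, Finset.prod_eq_prod_Ico_succ_bot (by omega)]
  have e2 : ∏ a ∈ Finset.range (m - 1), (X (u a) + X (u (a + 1)) + C ((q : ℝ) - 1)) =
      (X (u 0) + X (u 1) + C ((q : ℝ) - 1)) *
        ∏ a ∈ Finset.Ico 1 (m - 1),
          (X (u a) + X (u (a + 1)) + C ((q : ℝ) - 1) : MvPolynomial σ ℝ) := by
    rw [Finset.range_eq_Ico, Finset.prod_eq_prod_Ico_succ_bot (by omega)]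
  set R1 := ∏ a ∈ Finset.Ico 1 m, fac q (u a) with hR1
  set R2 := ∏ a ∈ Finset.Ico 1 (m - 1),
          (X (u a) + X (u (a + 1)) + C ((q : ℝ) - 1) : MvPolynomial σ ℝ) with hR2
  have hE1 : E (u 0) R1 = R1 := E_prod _ _ _ fun a ha => by
    rw [Finset.mem_Ico] at ha
    exact E_fac_ne q (hne a (by omega) ha.2)
  have hD1 : D (u 0) R1 = 0 := D_prod _ _ _ (fun a ha => by
    rw [Finset.mem_Ico] at ha
    exact E_fac_ne q (hne a (by omega) ha.2)) (fun a ha => by
    rw [Finset.mem_Ico] at ha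
    exact D_fac_ne q (hne a (by omega) ha.2))
  have hlinE : ∀ a ∈ Finset.Ico 1 (m - 1),
      E (u 0) (X (u a) + X (u (a + 1)) + C ((q : ℝ) - 1)) =
        X (u a) + X (u (a + 1)) + C ((q : ℝ) - 1) := by
    intro a ha
    rw [Finset.mem_Ico] at ha
    rw [map_add, map_add, E_X_ne (hne a (by omega) (by omega)),
      E_X_ne (hne (a + 1) (by omega) (by omega)), E_C]
  have hlinD : ∀ a ∈ Finset.Ico 1 (m - 1),
      D (u 0) (X (u a) + X (u (a + 1)) + C ((q : ℝ) - 1)) = 0 := by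
    intro a ha
    rw [Finset.mem_Ico] at ha
    rw [D_add, D_add, D_X_ne (hne a (by omega) (by omega)),
      D_X_ne (hne (a + 1) (by omega) (by omega)), D_C]
    simp
  have hE2 : E (u 0) R2 = R2 := E_prod _ _ _ hlinE
  have hD2 : D (u 0) R2 = 0 := D_prod _ _ _ hlinE hlinD
  rw [e1, e2]
  rw [show fac q (u 0) * R1 * ((X (u 0) + X (u 1) + C ((q : ℝ) - 1)) * R2 *
      (X (u (m - 1)) + X (u 0) + C ((q : ℝ) - 1))) =
      (fac q (u 0) * (X (u 0) + X (u 1) + C ((q : ℝ) - 1)) *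
        (X (u (m - 1)) + X (u 0) + C ((q : ℝ) - 1))) * (R1 * R2) by ring]
  rw [D_free_mul _ _ _ (by rw [map_mul, hE1, hE2]) (by rw [D_mul, hD1, hD2]; simp)]
  rw [St, ← hR1, ← hR2, mul_assoc (hd q _ _ _ _) R1 R2]
  congr 1
  have hY := hne (m - 1) (by omega) (by omega)
  have hZ := hne 1 (by omega) (by omega)
  rw [D_mul, D_mul, map_mul, E_fac_self q hq, D_fac_self q hq]
  have hq1 : (q : ℝ) + 1 ≠ 0 := by positivity
  have c1 : (C (kap q * q ^ 2 / (q + 1)) : MvPolynomial σ ℝ) =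
      C (kap q) * C (q : ℝ) ^ 2 * C (1 / ((q : ℝ) + 1)) := by
    rw [← C_pow, ← C_mul, ← C_mul]; congr 1; field_simp
  have c2 : (C (-(kap q) / (q + 1)) : MvPolynomial σ ℝ) =
      - (C (kap q) * C (1 / ((q : ℝ) + 1))) := by
    rw [← C_mul, ← C_neg]; congr 1; field_simp
  have c3 : (C (1 / ((q : ℝ) + 1)) : MvPolynomial σ ℝ) * (C (q : ℝ) + 1) = 1 := by
    rw [← C_1, ← C_add, ← C_mul, one_div_mul_cancel hq1]
  simp only [hd, D_add, D_sub, D_one, D_X_self, D_X_ne hY, D_X_ne hZ, D_C, map_add, map_sub,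
    map_one, E_X_self, E_X_ne hY, E_X_ne hZ, E_C, C_sub, C_1, c1, c2]
  set r := (C (1 / ((q : ℝ) + 1)) : MvPolynomial σ ℝ) with hr
  set Q := (C (q : ℝ) : MvPolynomial σ ℝ) with hQ
  set K := (C (kap q) : MvPolynomial σ ℝ) with hK
  set Y := (X (u (m - 1)) : MvPolynomial σ ℝ) with hY'
  set Z := (X (u 1) : MvPolynomial σ ℝ) with hZ'
  linear_combination (-(K * ((Q - 1) * (Z + Q - 1) * (Y + Q - 1) + Q * ((Z + Q - 1) + (Y + Q - 1))))) * c3

end

end Pool.Agent.H71K9.PM
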