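import Mathlib
import Pool.Agent.H71K9.Strict

set_option autoImplicit false
set_option linter.unusedSectionVars false
set_option linter.unusedVariables false

/-!
# Two vertices with two common neighbours form a cluster
-/

namespace Pool.Agent.H71K9.PM

open MvPolynomial Finset

/-- the numerical inequality -/
lemma num_ineq (q s' : ℕ) (hq : 1 ≤ q) (hs : s' + 1 ≤ q) :
    ((q : ℝ) ^ 2) ^ s' * (((q : ℝ) ^ 2) ^ 2 + 1) ≤
      ((q : ℝ) ^ 2 - 1) ^ s' * (((q : ℝ) ^ 2) ^ 2 + s' * (q : ℝ) ^ 2 + (1 + (s' : ℝ)) ^ 2) := by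
  set Q := (q : ℝ) ^ 2 with hQ
  have hq1 : (1 : ℝ) ≤ q := by exact_mod_cast hq
  have hQ1 : 1 ≤ Q := by rw [hQ]; nlinarith
  have hs1 : (s' : ℝ) + 1 ≤ q := by exact_mod_cast hs
  have hs0 : (0 : ℝ) ≤ s' := by positivity
  have hQs : ((s' : ℝ) + 1) ^ 2 ≤ Q := by rw [hQ]; nlinarith
  have hQ0 : 0 < Q := by linarith
  have hbern : Q ^ s' * (Q - s') ≤ Q * (Q - 1) ^ s' := by
    have h := one_add_mul_le_pow (a := -1 / Q) (by
      have : 1 / Q ≤ 1 := by rw [div_le_one hQ0]; exact hQ1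
      have h2 : -1 / Q = -(1 / Q) := by ring
      rw [h2]; linarith) s'
    have h1 : 1 + (s' : ℝ) * (-1 / Q) = (Q - s') / Q := by field_simp; ring
    have h2 : (1 + -1 / Q) = (Q - 1) / Q := by field_simp; ring
    rw [h1, h2, div_pow, div_le_div_iff₀ hQ0 (by positivity)] at h
    calc Q ^ s' * (Q - s') = (Q - s') * Q ^ s' := by ring
      _ ≤ (Q - 1) ^ s' * Q := h
      _ = _ := by ring
  set B := Q ^ 2 + s' * Q + (1 + (s' : ℝ)) ^ 2 with hB
  have hB0 : 0 ≤ B := by positivity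
  have h1 : Q * (Q ^ s' * (Q ^ 2 + 1)) ≤ Q ^ s' * (Q - s') * B := by
    have h2 : Q * (Q ^ 2 + 1) ≤ (Q - s') * B := by
      rw [hB]; nlinarith [mul_nonneg hs0 (sub_nonneg.2 hQs), mul_nonneg hs0 hQ0.le]
    have h3 : 0 ≤ Q ^ s' := by positivity
    nlinarith [mul_le_mul_of_nonneg_left h2 h3]
  have h2 : Q ^ s' * (Q - s') * B ≤ Q * (Q - 1) ^ s' * B := mul_le_mul_of_nonneg_right hbern hB0
  have h3 : Q * (Q ^ s' * (Q ^ 2 + 1)) ≤ Q * ((Q - 1) ^ s' * B) := by
    calc _ ≤ _ := h1.trans h2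
      _ = _ := by ring
  exact le_of_mul_le_mul_left h3 hQ0

lemma cst_eq (q : ℕ) : cst (q + 1) = ((q : ℝ) / (q + 1)) ^ q := by
  rw [cst]; push_cast; congr 2; ring

lemma cst_pow_mul (q m : ℕ) (hq : 1 ≤ q) :
    cst (q + 1) ^ m * ((q : ℝ) + 1) ^ (q * m) = (q : ℝ) ^ (q * m) := by
  have h : (q : ℝ) + 1 ≠ 0 := by positivity
  rw [cst_eq, ← pow_mul, div_pow, div_mul_cancel₀]
  positivity

section
universe v w
variable {σ : Type v} [DecidableEq σ] [Fintype σ] {τ : Type w} [Fintype τ] [DecidableEq τ]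

/-- the value for two vertices with `s' + 2` common neighbours, `t + s' + 2 = q + 1` -/
lemma two_val (q t s' : ℕ) (hq : 1 ≤ q) (ht : t + s' + 1 = q) (a b : σ) (hab : a ≠ b) :
    (q : ℝ) ^ 2 * eval (fun _ => (1 : ℝ)) (D b (D a (((X a + C (q : ℝ)) ^ t *
      (X b + C (q : ℝ)) ^ t) * (X a + X b + C ((q : ℝ) - 1)) ^ (s' + 2)))) =
      (q : ℝ) ^ (2 * t) * ((q : ℝ) - 1) ^ s' *
        (((q : ℝ) ^ 2) ^ 2 + s' * (q : ℝ) ^ 2 + (1 + (s' : ℝ)) ^ 2) := by
  have hq0 : (q : ℝ) ≠ 0 := by positivity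
  have hpow : (t : ℝ) * (q : ℝ) ^ (t - 1) * q = t * (q : ℝ) ^ t := by
    rcases Nat.eq_zero_or_pos t with h | h
    · subst h; simp
    · rw [mul_assoc, ← pow_succ, Nat.sub_add_cancel h]
  have e1 : D a (((X a + C (q : ℝ)) ^ t * (X b + C (q : ℝ)) ^ t) *
      (X a + X b + C ((q : ℝ) - 1)) ^ (s' + 2)) =
      (X b + C (q : ℝ)) ^ t * (C (t * (q : ℝ) ^ (t - 1)) * (X b + C ((q : ℝ) - 1)) ^ (s' + 2) +
        C ((q : ℝ) ^ t * (s' + 2)) * (X b + C ((q : ℝ) - 1)) ^ (s' + 1)) := by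
    rw [D_mul, D_mul, D_pow, D_pow, D_pow]
    simp only [map_mul, map_pow, map_add, E_X_self, E_X_ne hab.symm, D_add, D_X_self,
      D_X_ne hab.symm, D_C, E_C, add_zero, zero_add, mul_one, mul_zero,
      show s' + 2 - 1 = s' + 1 by omega]
    push_cast
    simp only [map_natCast, map_ofNat]
    ring
  have e2 : eval (fun _ => (1 : ℝ)) (D b ((X b + C (q : ℝ)) ^ t *
      (C (t * (q : ℝ) ^ (t - 1)) * (X b + C ((q : ℝ) - 1)) ^ (s' + 2) +
        C ((q : ℝ) ^ t * (s' + 2)) * (X b + C ((q : ℝ) - 1)) ^ (s' + 1)))) =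
      t * (q : ℝ) ^ (t - 1) * (t * (q : ℝ) ^ (t - 1) * ((q : ℝ) - 1) ^ (s' + 2) +
        (q : ℝ) ^ t * (s' + 2) * ((q : ℝ) - 1) ^ (s' + 1)) +
      (q : ℝ) ^ t * (t * (q : ℝ) ^ (t - 1) * ((s' + 2) * ((q : ℝ) - 1) ^ (s' + 1)) +
        (q : ℝ) ^ t * (s' + 2) * ((s' + 1) * ((q : ℝ) - 1) ^ s')) := by
    rw [D_mul, D_add, D_C_mul, D_C_mul, D_pow, D_pow, D_pow]
    simp only [map_mul, map_pow, map_add, E_X_self, D_add, D_X_self, D_C, E_C, add_zero, zero_add,
      mul_one, map_one, eval_C, show s' + 2 - 1 = s' + 1 by omega,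
      show s' + 1 - 1 = s' by omega]
    simp only [map_natCast]
    push_cast
    ring
  rw [e1, e2]
  have htq : (t : ℝ) = q - 1 - s' := by
    rw [← ht]; push_cast; ring
  set T := (q : ℝ) ^ (t - 1) with hT
  set U := (q : ℝ) ^ t with hU
  have e3 : (q : ℝ) ^ (2 * t) = U * U := by rw [hU, two_mul, pow_add]
  rw [e3]
  have e4 : (q : ℝ) ^ 2 * (t * T * (t * T * ((q : ℝ) - 1) ^ (s' + 2) +
        U * (s' + 2) * ((q : ℝ) - 1) ^ (s' + 1)) +
      U * (t * T * ((s' + 2) * ((q : ℝ) - 1) ^ (s' + 1)) +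
        U * (s' + 2) * ((s' + 1) * ((q : ℝ) - 1) ^ s'))) =
      (t * T * q) * ((t * T * q) * ((q : ℝ) - 1) ^ (s' + 2) +
        q * U * (s' + 2) * ((q : ℝ) - 1) ^ (s' + 1)) +
      U * q * ((t * T * q) * ((s' + 2) * ((q : ℝ) - 1) ^ (s' + 1)) +
        q * U * (s' + 2) * ((s' + 1) * ((q : ℝ) - 1) ^ s')) := by ring
  rw [e4, hpow, htq]
  ring

lemma mem_NB_iff (A : τ → Finset σ) (l : List σ) (j : τ) : j ∈ NB A l ↔ ∃ i ∈ l, i ∈ A j := by
  simp [NB]

lemma cluster_two (q : ℕ) (A : τ → Finset σ) (hA : ∀ j, (A j).card = q + 1)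
    (hAd : ∀ i, (univ.filter fun j => i ∈ A j).card = q + 1) (a b : σ) (hab : a ≠ b)
    (hsh : 2 ≤ (univ.filter fun j => a ∈ A j ∧ b ∈ A j).card) :
    IsCluster A (q + 1) (1 / (q : ℝ) ^ 4) 2 (fun n => if n = 0 then a else b) := by
  set u : ℕ → σ := fun n => if n = 0 then a else b with hu
  have hl : (List.range 2).map u = [a, b] := rfl
  set Cc : Finset τ := univ.filter fun j => a ∈ A j ∧ b ∈ A j with hCc
  set R0 : Finset τ := univ.filter fun j => a ∈ A j ∧ b ∉ A j with hR0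
  set R1 : Finset τ := univ.filter fun j => b ∈ A j ∧ a ∉ A j with hR1
  have hd1 : Disjoint Cc R0 := by
    rw [Finset.disjoint_left]; intro j hj hj'
    rw [hCc, mem_filter] at hj; rw [hR0, mem_filter] at hj'
    exact hj'.2.2 hj.2.2
  have hd2 : Disjoint (Cc ∪ R0) R1 := by
    rw [Finset.disjoint_left]; intro j hj hj'
    rw [hR1, mem_filter] at hj'
    rw [mem_union, hCc, hR0, mem_filter, mem_filter] at hj
    rcases hj with hj | hj
    · exact hj'.2.2 hj.2.1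
    · exact hj'.2.2 hj.2.1
  have hd3 : Disjoint Cc R1 := by
    rw [Finset.disjoint_left]; intro j hj hj'
    rw [hCc, mem_filter] at hj; rw [hR1, mem_filter] at hj'
    exact hj'.2.2 hj.2.1
  have hN : NB A [a, b] = (Cc ∪ R0) ∪ R1 := by
    ext j
    rw [mem_NB_iff]
    simp only [List.mem_cons, List.not_mem_nil, or_false, exists_eq_or_imp, exists_eq_left,
      mem_union, hCc, hR0, hR1, mem_filter, mem_univ, true_and]
    tauto
  have hcard0 : Cc.card + R0.card = q + 1 := by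
    rw [← hAd a, ← Finset.card_union_of_disjoint hd1]
    congr 1
    ext j
    simp only [mem_union, hCc, hR0, mem_filter, mem_univ, true_and]
    tauto
  have hcard1 : Cc.card + R1.card = q + 1 := by
    rw [← hAd b, ← Finset.card_union_of_disjoint hd3]
    congr 1
    ext j
    simp only [mem_union, hCc, hR1, mem_filter, mem_univ, true_and]
    tauto
  obtain ⟨s', hs'⟩ : ∃ s', Cc.card = s' + 2 := ⟨Cc.card - 2, by omega⟩
  obtain ⟨t, ht⟩ : ∃ t, R0.card = t := ⟨_, rfl⟩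
  have ht1 : R1.card = t := by omega
  have htq : t + s' + 1 = q := by omega
  have hq : 1 ≤ q := by omega
  have hNcard : (NB A [a, b]).card = s' + 2 + t + t := by
    rw [hN, Finset.card_union_of_disjoint hd2, Finset.card_union_of_disjoint hd1, hs', ht, ht1]
  set S : Finset σ := {a, b} with hS
  have hspC : ∀ j ∈ Cc, sp S (lf (A j)) = X a + X b + C ((q : ℝ) - 1) := by
    intro j hj
    rw [hCc, mem_filter] at hj
    have hsub : S ⊆ A j := by
      intro x hx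
      rw [hS, mem_insert, mem_singleton] at hx
      rcases hx with rfl | rfl
      · exact hj.2.1
      · exact hj.2.2
    rw [sp_lf, Finset.inter_eq_right.2 hsub, Finset.card_sdiff_of_subset hsub, hA, hS,
      Finset.sum_pair hab, Finset.card_pair hab]
    congr 2
    have : q + 1 - 2 = q - 1 := by omega
    rw [this, Nat.cast_sub hq, Nat.cast_one]
  have hspR : ∀ j, ∀ x ∈ S, (∀ y ∈ S, y ≠ x → y ∉ A j) → x ∈ A j →
      sp S (lf (A j)) = X x + C (q : ℝ) := by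
    intro j x hx hy hxj
    have h1 : A j ∩ S = {x} := by
      ext z
      rw [mem_inter, mem_singleton]
      constructor
      · rintro ⟨h1, h2⟩
        by_contra h3
        exact hy z h2 h3 h1
      · rintro rfl
        exact ⟨hxj, hx⟩
    have h2 : (A j \ S).card = q := by
      have := Finset.card_inter_add_card_sdiff (A j) S
      rw [h1, hA, card_singleton] at this
      omega
    rw [sp_lf, h1, h2, Finset.sum_singleton]
  have hpp : sp S (PP A (NB A [a, b])) = ((X a + C (q : ℝ)) ^ t * (X b + C (q : ℝ)) ^ t) *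
      (X a + X b + C ((q : ℝ) - 1)) ^ (s' + 2) := by
    rw [hN, PP, Finset.prod_union hd2, Finset.prod_union hd1, map_mul, map_mul, map_prod,
      map_prod, map_prod, Finset.prod_congr rfl hspC, Finset.prod_const, hs',
      Finset.prod_congr rfl (g := fun _ => X a + C (q : ℝ)), Finset.prod_const, ht,
      Finset.prod_congr (s₁ := R1) rfl (g := fun _ => X b + C (q : ℝ)), Finset.prod_const, ht1]
    · ring
    · intro j hj
      rw [hR1, mem_filter] at hj
      apply hspR j b (by simp [hS]) _ hj.2.1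
      intro y hy hyb
      rw [hS, mem_insert, mem_singleton] at hy
      rcases hy with rfl | rfl
      · exact hj.2.2
      · exact absurd rfl hyb
    · intro j hj
      rw [hR0, mem_filter] at hj
      apply hspR j a (by simp [hS]) _ hj.2.1
      intro y hy hya
      rw [hS, mem_insert, mem_singleton] at hy
      rcases hy with rfl | rfl
      · exact absurd rfl hya
      · exact hj.2.2
  refine ⟨?_, ?_, ?_, ?_⟩
  · intro x hx y hy hxy
    simp only [hu] at hxy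
    interval_cases x <;> interval_cases y <;> simp_all
  · intro x hx
    have : x = 0 := by omega
    subst this
    obtain ⟨j, hj⟩ := Finset.card_pos.1 (show 0 < Cc.card by omega)
    rw [hCc, mem_filter] at hj
    exact ⟨j, by simpa [hu] using hj.2.1, by simpa [hu] using hj.2.2⟩
  · rw [hl, hNcard]; omega
  · rw [hl, eval_DL_sp S [a, b] (by intro i hi; simpa [hS] using hi), hpp, hNcard]
    have hval := two_val q t s' hq htq a b hab
    have hDL : DL [a, b] (((X a + C (q : ℝ)) ^ t * (X b + C (q : ℝ)) ^ t) *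
      (X a + X b + C ((q : ℝ) - 1)) ^ (s' + 2)) = D b (D a (((X a + C (q : ℝ)) ^ t *
      (X b + C (q : ℝ)) ^ t) * (X a + X b + C ((q : ℝ) - 1)) ^ (s' + 2))) := rfl
    rw [hDL]
    set V := eval (fun _ => (1 : ℝ)) (D b (D a (((X a + C (q : ℝ)) ^ t *
      (X b + C (q : ℝ)) ^ t) * (X a + X b + C ((q : ℝ) - 1)) ^ (s' + 2)))) with hV
    have hq0 : (0 : ℝ) < q := by positivity
    have hZ : (cst (q + 1) ^ 2 * ((q : ℝ) + 1) ^ (s' + 2 + t + t)) * ((q : ℝ) + 1) ^ s' =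
        (q : ℝ) ^ (2 * t) * ((q : ℝ) ^ 2) ^ s' * (q : ℝ) ^ 2 := by
      have e1 : s' + 2 + t + t + s' = q * 2 := by omega
      rw [mul_assoc, ← pow_add, e1, cst_pow_mul q 2 hq, ← e1]
      ring
    have hnum := num_ineq q s' hq (by omega)
    have hpos : (0 : ℝ) < (q : ℝ) ^ 2 * ((q : ℝ) + 1) ^ s' := by positivity
    rw [← mul_le_mul_iff_left₀ hpos]
    push_cast
    calc (1 + 1 / (q : ℝ) ^ 4) * (cst (q + 1) ^ 2 * ((q : ℝ) + 1) ^ (s' + 2 + t + t)) *
          ((q : ℝ) ^ 2 * ((q : ℝ) + 1) ^ s')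
        = (1 + 1 / (q : ℝ) ^ 4) * (q : ℝ) ^ 2 *
          ((cst (q + 1) ^ 2 * ((q : ℝ) + 1) ^ (s' + 2 + t + t)) * ((q : ℝ) + 1) ^ s') := by ring
      _ = (q : ℝ) ^ (2 * t) * (((q : ℝ) ^ 2) ^ s' * (((q : ℝ) ^ 2) ^ 2 + 1)) := by
          rw [hZ]; field_simp
      _ ≤ (q : ℝ) ^ (2 * t) * (((q : ℝ) ^ 2 - 1) ^ s' *
          (((q : ℝ) ^ 2) ^ 2 + s' * (q : ℝ) ^ 2 + (1 + (s' : ℝ)) ^ 2)) :=
          mul_le_mul_of_nonneg_left hnum (by positivity)
      _ = ((q : ℝ) ^ (2 * t) * ((q : ℝ) - 1) ^ s' *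
          (((q : ℝ) ^ 2) ^ 2 + s' * (q : ℝ) ^ 2 + (1 + (s' : ℝ)) ^ 2)) * ((q : ℝ) + 1) ^ s' := by
          rw [show (q : ℝ) ^ 2 - 1 = ((q : ℝ) - 1) * ((q : ℝ) + 1) by ring, mul_pow]; ring
      _ = V * ((q : ℝ) ^ 2 * ((q : ℝ) + 1) ^ s') := by rw [← hval]; ring

end

end Pool.Agent.H71K9.PM
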