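import Mathlib
import Pool.Agent.H71K9.ClusterA

set_option autoImplicit false
set_option linter.unusedSectionVars false
set_option linter.unusedVariables false

/-!
# Induced cycles form clusters, and every cycle contains a cluster
-/

namespace Pool.Agent.H71K9.PM

open MvPolynomial Finset

section
universe v w
variable {σ : Type v} [DecidableEq σ] [Fintype σ] {τ : Type w} [Fintype τ] [DecidableEq τ]

/-- the cyclic successor -/
def nx (m c : ℕ) : ℕ := if c + 1 < m then c + 1 else 0

/-- the cyclic predecessor -/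
def pv (m c : ℕ) : ℕ := if c = 0 then m - 1 else c - 1

lemma kap_sq (q m : ℕ) (hq : 1 ≤ q) :
    (kap q * (q : ℝ) ^ 2) ^ m + kap q ^ m = (1 + 1 / (q : ℝ) ^ (2 * m)) * (q : ℝ) ^ (q * m) := by
  have hq0 : (q : ℝ) ≠ 0 := by positivity
  have h1 : kap q * (q : ℝ) ^ 2 = (q : ℝ) ^ q := by
    have : kap q * (q : ℝ) ^ 2 = (kap q * q) * q := by ring
    rw [this, ← pow_q1 q hq, ← pow_succ, Nat.sub_add_cancel hq]
  have h2 : kap q ^ m = (q : ℝ) ^ (q * m) / (q : ℝ) ^ (2 * m) := by
    rw [eq_div_iff (by positivity), pow_mul, ← mul_pow, h1, pow_mul]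
  rw [h1, h2, ← pow_mul]
  ring

theorem cluster_cycle (q m : ℕ) (hm : 3 ≤ m) (A : τ → Finset σ) (hA : ∀ j, (A j).card = q + 1)
    (hAd : ∀ i, (univ.filter fun j => i ∈ A j).card = q + 1) (u : ℕ → σ) (w : ℕ → τ)
    (hu : ∀ a < m, ∀ b < m, u a = u b → a = b) (hw : ∀ a < m, ∀ b < m, w a = w b → a = b)
    (hin : ∀ c < m, u c ∈ A (w c) ∧ u (nx m c) ∈ A (w c))
    (hind : ∀ j a b, a < b → b < m → u a ∈ A j → u b ∈ A j →
      (b = a + 1 ∧ j = w a) ∨ (a = 0 ∧ b = m - 1 ∧ j = w (m - 1))) :
    IsCluster A (q + 1) (1 / (q : ℝ) ^ (2 * m)) m u := by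
  have hnx : ∀ c < m, nx m c < m ∧ nx m c ≠ c := by
    intro c hc; unfold nx; split_ifs <;> omega
  have hpv : ∀ c < m, pv m c < m ∧ pv m c ≠ c ∧ nx m (pv m c) = c := by
    intro c hc; unfold nx pv; split_ifs <;> omega
  have hpn : ∀ c < m, pv m (nx m c) = c := by
    intro c hc
    by_cases h : c + 1 < m
    · have : nx m c = c + 1 := by unfold nx; rw [if_pos h]
      rw [this]; unfold pv; rw [if_neg (by omega)]; omega
    · have : nx m c = 0 := by unfold nx; rw [if_neg h]
      rw [this]; unfold pv; rw [if_pos rfl]; omega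
  have hq : 1 ≤ q := by
    have h1 : ({u 0, u 1} : Finset σ) ⊆ A (w 0) := by
      intro x hx
      rw [mem_insert, mem_singleton] at hx
      have h2 := hin 0 (by omega)
      have h3 : nx m 0 = 1 := by unfold nx; rw [if_pos (by omega)]
      rw [h3] at h2
      rcases hx with rfl | rfl
      · exact h2.1
      · exact h2.2
    have h2 := Finset.card_le_card h1
    rw [hA, Finset.card_pair (fun h => by have := hu 0 (by omega) 1 (by omega) h; omega)] at h2
    omega
  set S : Finset σ := (range m).image u with hS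
  set W : Finset τ := (range m).image w with hW
  have hX : ∀ c < m, ∀ a < m, u a ∈ A (w c) → a = c ∨ a = nx m c := by
    intro c hc a ha hac
    rcases lt_trichotomy a c with h | h | h
    · rcases hind (w c) a c h hc hac (hin c hc).1 with ⟨h1, h2⟩ | ⟨h1, h2, h3⟩
      · have := hw c hc a ha h2; omega
      · right; unfold nx; rw [if_neg (by omega)]; exact h1
    · exact Or.inl h
    · rcases hind (w c) c a h ha (hin c hc).1 hac with ⟨h1, h2⟩ | ⟨h1, h2, h3⟩
      · right; unfold nx; rw [if_pos (by omega)]; exact h1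
      · have := hw c hc (m - 1) (by omega) h3; omega
  set R : ℕ → Finset τ := fun a => univ.filter fun j => u a ∈ A j ∧ j ∉ W with hR
  have hRcard : ∀ a ∈ range m, (R a).card = q - 1 := by
    intro a ha
    rw [mem_range] at ha
    have h1 : (univ.filter fun j => u a ∈ A j) = R a ∪ {w a, w (pv m a)} := by
      ext j
      simp only [hR, mem_union, mem_filter, mem_univ, true_and, mem_insert, mem_singleton]
      constructor
      · intro hj
        by_cases hjW : j ∈ W
        · right
          rw [hW, mem_image] at hjW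
          obtain ⟨c, hc, rfl⟩ := hjW
          rw [mem_range] at hc
          rcases hX c hc a ha hj with h | h
          · left; rw [h]
          · right
            rw [h, hpn c hc]
        · exact Or.inl ⟨hj, hjW⟩
      · rintro (h | h | h)
        · exact h.1
        · rw [h]; exact (hin a ha).1
        · rw [h]
          have := (hin (pv m a) (hpv a ha).1).2
          rwa [(hpv a ha).2.2] at this
    have h2 : Disjoint (R a) {w a, w (pv m a)} := by
      rw [Finset.disjoint_left]
      intro j hj hj'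
      rw [hR, mem_filter] at hj
      apply hj.2.2
      rw [mem_insert, mem_singleton] at hj'
      rw [hW, mem_image]
      rcases hj' with h | h
      · exact ⟨a, mem_range.2 ha, h.symm⟩
      · exact ⟨pv m a, mem_range.2 (hpv a ha).1, h.symm⟩
    have h3 := hAd (u a)
    rw [h1, Finset.card_union_of_disjoint h2, Finset.card_pair (fun h => (hpv a ha).2.1
      (hw _ ha _ (hpv a ha).1 h).symm)] at h3
    omega
  have hRdisj : ∀ a ∈ range m, ∀ b ∈ range m, a ≠ b → Disjoint (R a) (R b) := by
    have key : ∀ a b, a < b → b < m → Disjoint (R a) (R b) := by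
      intro a b hab hb
      rw [Finset.disjoint_left]
      intro j hj hj'
      rw [hR, mem_filter] at hj hj'
      apply hj.2.2
      rw [hW, mem_image]
      rcases hind j a b hab hb hj.2.1 hj'.2.1 with ⟨h1, h2⟩ | ⟨h1, h2, h3⟩
      · exact ⟨a, mem_range.2 (by omega), h2.symm⟩
      · exact ⟨m - 1, mem_range.2 (by omega), h3.symm⟩
    intro a ha b hb hab
    rw [mem_range] at ha hb
    rcases lt_or_gt_of_ne hab with h | h
    · exact key a b h hb
    · exact (key b a h ha).symm
  set l := (List.range m).map u with hl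
  have hmeml : ∀ i, i ∈ l ↔ i ∈ S := by
    intro i
    rw [hl, hS, List.mem_map, mem_image]
    constructor
    · rintro ⟨a, ha, h⟩; exact ⟨a, mem_range.2 (List.mem_range.1 ha), h⟩
    · rintro ⟨a, ha, h⟩; exact ⟨a, List.mem_range.2 (mem_range.1 ha), h⟩
  have hN : NB A l = W ∪ (range m).biUnion R := by
    ext j
    rw [mem_NB_iff, mem_union, mem_biUnion]
    constructor
    · rintro ⟨i, hi, hij⟩
      rw [hl, List.mem_map] at hi
      obtain ⟨a, ha, rfl⟩ := hi
      by_cases hjW : j ∈ W
      · exact Or.inl hjW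
      · right
        exact ⟨a, mem_range.2 (List.mem_range.1 ha), by
          rw [hR, mem_filter]; exact ⟨mem_univ _, hij, hjW⟩⟩
    · rintro (h | ⟨a, ha, h⟩)
      · rw [hW, mem_image] at h
        obtain ⟨c, hc, rfl⟩ := h
        rw [mem_range] at hc
        exact ⟨u c, by rw [hl, List.mem_map]; exact ⟨c, List.mem_range.2 hc, rfl⟩, (hin c hc).1⟩
      · rw [hR, mem_filter] at h
        exact ⟨u a, by rw [hl, List.mem_map]; exact ⟨a, List.mem_range.2 (mem_range.1 ha), rfl⟩,
          h.2.1⟩
  have hWR : Disjoint W ((range m).biUnion R) := by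
    rw [Finset.disjoint_left]
    intro j hj hj'
    rw [mem_biUnion] at hj'
    obtain ⟨a, _, h⟩ := hj'
    rw [hR, mem_filter] at h
    exact h.2.2 hj
  have hWcard : W.card = m := by
    rw [hW, Finset.card_image_of_injOn, card_range]
    intro a ha b hb hab
    rw [coe_range, Set.mem_Iio] at ha hb
    exact hw a ha b hb hab
  have hNcard : (NB A l).card = q * m := by
    rw [hN, Finset.card_union_of_disjoint hWR, hWcard, Finset.card_biUnion hRdisj,
      Finset.sum_congr rfl hRcard, Finset.sum_const, card_range, smul_eq_mul]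
    obtain ⟨r, rfl⟩ : ∃ r, q = r + 1 := ⟨q - 1, by omega⟩
    rw [Nat.add_sub_cancel]; ring
  have hspW : ∀ c ∈ range m, sp S (lf (A (w c))) =
      X (u c) + X (u (nx m c)) + C ((q : ℝ) - 1) := by
    intro c hc
    rw [mem_range] at hc
    have hne : u c ≠ u (nx m c) := fun h => (hnx c hc).2 (hu _ hc _ (hnx c hc).1 h).symm
    have h1 : A (w c) ∩ S = {u c, u (nx m c)} := by
      ext z
      rw [mem_inter, mem_insert, mem_singleton]
      constructor
      · rintro ⟨h1, h2⟩
        rw [hS, mem_image] at h2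
        obtain ⟨a, ha, rfl⟩ := h2
        rw [mem_range] at ha
        rcases hX c hc a ha h1 with h | h
        · left; rw [h]
        · right; rw [h]
      · rintro (rfl | rfl)
        · exact ⟨(hin c hc).1, by rw [hS]; exact mem_image_of_mem u (mem_range.2 hc)⟩
        · exact ⟨(hin c hc).2, by rw [hS]; exact mem_image_of_mem u (mem_range.2 (hnx c hc).1)⟩
    have h2 : (A (w c) \ S).card = q - 1 := by
      have := Finset.card_inter_add_card_sdiff (A (w c)) S
      rw [h1, hA, Finset.card_pair hne] at this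
      omega
    rw [sp_lf, h1, h2, Finset.sum_pair hne, Nat.cast_sub hq, Nat.cast_one]
  have hspR : ∀ a ∈ range m, ∏ j ∈ R a, sp S (lf (A j)) = fac q (u a) := by
    intro a ha
    rw [fac, ← hRcard a ha, ← Finset.prod_const]
    apply Finset.prod_congr rfl
    intro j hj
    have ha' := mem_range.1 ha
    have hjW : j ∉ W := by
      rw [hR, mem_filter] at hj; exact hj.2.2
    have hja : u a ∈ A j := by
      rw [hR, mem_filter] at hj; exact hj.2.1
    have h1 : A j ∩ S = {u a} := by
      ext z
      rw [mem_inter, mem_singleton]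
      constructor
      · rintro ⟨h1, h2⟩
        rw [hS, mem_image] at h2
        obtain ⟨b, hb, rfl⟩ := h2
        by_contra hne
        have hab : a ≠ b := fun h => hne (by rw [h])
        have hjR : j ∈ R b := by rw [hR, mem_filter]; exact ⟨mem_univ _, h1, hjW⟩
        exact (Finset.disjoint_left.1 (hRdisj a ha b hb hab)) hj hjR
      · rintro rfl
        exact ⟨hja, by rw [hS]; exact mem_image_of_mem u ha⟩
    have h2 : (A j \ S).card = q := by
      have := Finset.card_inter_add_card_sdiff (A j) S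
      rw [h1, hA, card_singleton] at this
      omega
    rw [sp_lf, h1, h2, Finset.sum_singleton]
  have hpp : sp S (PP A (NB A l)) = (∏ a ∈ Finset.range m, fac q (u a)) *
      ((∏ a ∈ Finset.range (m - 1), (X (u a) + X (u (a + 1)) + C ((q : ℝ) - 1))) *
        (X (u (m - 1)) + X (u 0) + C ((q : ℝ) - 1))) := by
    rw [hN, PP, Finset.prod_union hWR, map_mul, map_prod, map_prod,
      Finset.prod_biUnion (fun a ha b hb hab => hRdisj a ha b hb hab),
      Finset.prod_congr rfl hspR, hW, Finset.prod_image (fun a ha b hb hab =>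
        hw a (mem_range.1 ha) b (mem_range.1 hb) hab), Finset.prod_congr rfl hspW, mul_comm]
    congr 1
    obtain ⟨r, rfl⟩ : ∃ r, m = r + 1 := ⟨m - 1, by omega⟩
    rw [Finset.prod_range_succ, Nat.add_sub_cancel]
    congr 1
    · apply Finset.prod_congr rfl
      intro a ha
      rw [mem_range] at ha
      have : nx (r + 1) a = a + 1 := by unfold nx; rw [if_pos (by omega)]
      rw [this]
    · have : nx (r + 1) r = 0 := by unfold nx; rw [if_neg (by omega)]
      rw [this]
  refine ⟨hu, ?_, ?_, ?_⟩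
  · intro a ha
    refine ⟨w a, (hin a (by omega)).1, ?_⟩
    have := (hin a (by omega)).2
    unfold nx at this
    rwa [if_pos ha] at this
  · rw [hNcard]; exact Nat.le_mul_of_pos_left m hq
  · rw [eval_DL_sp S l (fun i hi => (hmeml i).1 hi), hpp, hNcard]
    have hl2 : l = u 0 :: (List.range' 1 (m - 1)).map u := by
      rw [hl, List.range_eq_range']
      obtain ⟨r, rfl⟩ : ∃ r, m = r + 1 := ⟨m - 1, by omega⟩
      rw [List.range'_succ, List.map_cons, Nat.add_sub_cancel]
    rw [hl2, DL, St_first q m hq hm u hu]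
    have h1 := St_DL q m hq u hu (m - 2) 1 (by omega) (kap q * q ^ 2 / (q + 1)) (-(kap q) / (q + 1))
    have e : m - 2 + 1 = m - 1 := by omega
    rw [e] at h1
    rw [h1]
    have hq1 : (q : ℝ) + 1 ≠ 0 := by positivity
    have h2 : ((q : ℝ) + 1) * (kap q * q ^ 2 / (q + 1) * (kap q * q ^ 2) ^ (m - 1) -
        -(kap q) / (q + 1) * kap q ^ (m - 1)) = (kap q * (q : ℝ) ^ 2) ^ m + kap q ^ m := by
      obtain ⟨r, rfl⟩ : ∃ r, m = r + 1 := ⟨m - 1, by omega⟩
      rw [Nat.add_sub_cancel]
      field_simp
      ring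
    rw [h2, kap_sq q m hq]
    push_cast
    rw [cst_pow_mul q m hq]

/-- a cyclic sequence of `m` vertices and `m` neighbours -/
structure Cyc (A : τ → Finset σ) (m : ℕ) (u : ℕ → σ) (w : ℕ → τ) : Prop where
  two : 2 ≤ m
  uinj : ∀ a < m, ∀ b < m, u a = u b → a = b
  winj : ∀ a < m, ∀ b < m, w a = w b → a = b
  inn : ∀ c, c + 1 < m → u c ∈ A (w c) ∧ u (c + 1) ∈ A (w c)
  cl : u (m - 1) ∈ A (w (m - 1)) ∧ u 0 ∈ A (w (m - 1))

lemma Cyc.sub {A : τ → Finset σ} {m : ℕ} {u : ℕ → σ} {w : ℕ → τ} (h : Cyc A m u w) (a b : ℕ)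
    (hab : a < b) (hb : b < m) (j : τ) (hj : ∀ c, a ≤ c → c < b → w c ≠ j) (ha : u a ∈ A j)
    (hbj : u b ∈ A j) :
    Cyc A (b - a + 1) (fun c => u (a + c)) (fun c => if c < b - a then w (a + c) else j) := by
  refine ⟨by omega, ?_, ?_, ?_, ?_⟩
  · intro x hx y hy hxy
    have := h.uinj _ (by omega) _ (by omega) hxy
    omega
  · intro x hx y hy hxy
    by_cases h1 : x < b - a
    · by_cases h2 : y < b - a
      · simp only [h1, h2, if_true] at hxy
        have := h.winj _ (by omega) _ (by omega) hxy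
        omega
      · simp only [h1, h2, if_true, if_false] at hxy
        exact absurd hxy (hj _ (by omega) (by omega))
    · by_cases h2 : y < b - a
      · simp only [h1, h2, if_true, if_false] at hxy
        exact absurd hxy.symm (hj _ (by omega) (by omega))
      · omega
  · intro c hc
    have h1 : c < b - a := by omega
    simp only [h1, if_true]
    exact h.inn (a + c) (by omega)
  · have h1 : ¬ (b - a + 1 - 1 < b - a) := by omega
    simp only [h1, if_false]
    have h2 : a + (b - a + 1 - 1) = b := by omega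
    rw [h2]
    exact ⟨hbj, ha⟩

theorem Cyc.exists_cluster (q : ℕ) (A : τ → Finset σ) (hA : ∀ j, (A j).card = q + 1)
    (hAd : ∀ i, (univ.filter fun j => i ∈ A j).card = q + 1) (m : ℕ) :
    ∀ (u : ℕ → σ) (w : ℕ → τ), Cyc A m u w →
      ∃ (m' : ℕ) (u' : ℕ → σ), 2 ≤ m' ∧ m' ≤ m ∧ (∀ a < m', ∃ b < m, u' a = u b) ∧
        IsCluster A (q + 1) (1 / (q : ℝ) ^ (2 * m')) m' u' := by
  induction m using Nat.strong_induction_on with
  | _ m ih =>
  intro u w h
  have h2 := h.two
  by_cases hsh : ∃ a b, a < b ∧ b < m ∧ ∃ j j', j ≠ j' ∧ u a ∈ A j ∧ u b ∈ A j ∧ u a ∈ A j' ∧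
      u b ∈ A j'
  · obtain ⟨a, b, hab, hb, j, j', hjj, h3, h4, h5, h6⟩ := hsh
    refine ⟨2, fun n => if n = 0 then u a else u b, le_rfl, h2, ?_, ?_⟩
    · intro x hx
      by_cases hx0 : x = 0
      · exact ⟨a, by omega, by simp [hx0]⟩
      · exact ⟨b, hb, by simp [hx0]⟩
    · apply cluster_two q A hA hAd (u a) (u b)
      · intro he
        have := h.uinj a (by omega) b hb he
        omega
      · have h7 : ({j, j'} : Finset τ) ⊆ univ.filter fun j => u a ∈ A j ∧ u b ∈ A j := by
          intro x hx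
          rw [mem_insert, mem_singleton] at hx
          rw [mem_filter]
          rcases hx with rfl | rfl
          · exact ⟨mem_univ _, h3, h4⟩
          · exact ⟨mem_univ _, h5, h6⟩
        have := Finset.card_le_card h7
        rwa [Finset.card_pair hjj] at this
  -- no two vertices share two neighbours
  have hin : ∀ c < m, u c ∈ A (w c) ∧ u (nx m c) ∈ A (w c) := by
    intro c hc
    unfold nx
    split_ifs with hc1
    · exact h.inn c hc1
    · have : c = m - 1 := by omega
      rw [this]; exact h.cl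
  have hm3 : 3 ≤ m := by
    by_contra hm
    have hm2 : m = 2 := by omega
    subst hm2
    apply hsh
    refine ⟨0, 1, by omega, by omega, w 0, w 1, ?_, ?_, ?_, ?_, ?_⟩
    · intro he
      have := h.winj 0 (by omega) 1 (by omega) he
      omega
    · exact (h.inn 0 (by omega)).1
    · exact (h.inn 0 (by omega)).2
    · exact h.cl.2
    · exact h.cl.1
  by_cases hind : ∀ j a b, a < b → b < m → u a ∈ A j → u b ∈ A j →
      (b = a + 1 ∧ j = w a) ∨ (a = 0 ∧ b = m - 1 ∧ j = w (m - 1))
  · exact ⟨m, u, h2, le_rfl, fun a ha => ⟨a, ha, rfl⟩,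
      cluster_cycle q m hm3 A hA hAd u w h.uinj h.winj hin hind⟩
  -- there is a chord
  push Not at hind
  obtain ⟨j, a, b, hab, hb, hja, hjb, hne1, hne2⟩ := hind
  have key : ∀ a' b' j', a' < b' → b' < m → (∀ c, a' ≤ c → c < b' → w c ≠ j') → u a' ∈ A j' →
      u b' ∈ A j' → b' - a' + 1 < m → ∃ (m' : ℕ) (u' : ℕ → σ), 2 ≤ m' ∧ m' ≤ m ∧
        (∀ a < m', ∃ b < m, u' a = u b) ∧
        IsCluster A (q + 1) (1 / (q : ℝ) ^ (2 * m')) m' u' := by
    intro a' b' j' h3 h4 h5 h6 h7 h8
    obtain ⟨m', u', h9, h10, h11, h12⟩ := ih _ h8 _ _ (h.sub a' b' h3 h4 j' h5 h6 h7)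
    refine ⟨m', u', h9, by omega, ?_, h12⟩
    intro x hx
    obtain ⟨y, hy, hxy⟩ := h11 x hx
    exact ⟨a' + y, by omega, hxy⟩
  by_cases hc : ∃ c, a ≤ c ∧ c < b ∧ w c = j
  · obtain ⟨c, hac, hcb, hcj⟩ := hc
    by_cases hca : c = a
    · have hcb' : c + 1 < b := by
        by_contra hcon
        apply hne1 (by omega)
        rw [← hcj, hca]
      refine key (c + 1) b j hcb' hb ?_ ?_ hjb (by omega)
      · intro x hx hx' hxj
        have := h.winj x (by omega) c (by omega) (hxj.trans hcj.symm)
        omega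
      · rw [← hcj]; exact (h.inn c (by omega)).2
    · refine key a c j (by omega) (by omega) ?_ hja ?_ (by omega)
      · intro x hx hx' hxj
        have := h.winj x (by omega) c (by omega) (hxj.trans hcj.symm)
        omega
      · rw [← hcj]; exact (hin c (by omega)).1
  · push Not at hc
    refine key a b j hab hb (fun c h3 h4 => hc c h3 h4) hja hjb ?_
    by_contra hcon
    have ha0 : a = 0 := by omega
    have hbm : b = m - 1 := by omega
    apply hsh
    refine ⟨a, b, hab, hb, j, w (m - 1), hne2 ha0 hbm, hja, hjb, ?_, ?_⟩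
    · rw [ha0]; exact h.cl.2
    · rw [hbm]; exact h.cl.1

lemma IsCluster.mono {A : τ → Finset σ} {d m : ℕ} {ε ε' : ℝ} {u : ℕ → σ} (hd : 2 ≤ d)
    (h : IsCluster A d ε m u) (hε : ε' ≤ ε) : IsCluster A d ε' m u := by
  refine ⟨h.inj, h.chain, h.card, le_trans ?_ h.strict⟩
  have := cst_pos d hd
  apply mul_le_mul_of_nonneg_right _ (by positivity)
  linarith

end

end Pool.Agent.H71K9.PM
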