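import Mathlib
import Pool.Agent.H71K9.ClusterB

set_option autoImplicit false
set_option linter.unusedSectionVars false
set_option linter.unusedVariables false

/-!
# Selecting disjoint clusters
-/

namespace Pool.Agent.H71K9.PM

open MvPolynomial Finset

lemma greedy {ι : Type*} [DecidableEq ι] (Δ : ℕ) (c : ι → Finset ι) (hc : ∀ i, (c i).card ≤ Δ)
    (hself : ∀ i, i ∈ c i) : ∀ (n : ℕ) (B : Finset ι), B.card ≤ n → ∃ l : List ι,
      (∀ i ∈ l, i ∈ B) ∧ l.Pairwise (fun i i' => i' ∉ c i) ∧ B.card ≤ Δ * l.length := by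
  intro n
  induction n with
  | zero =>
    intro B hB
    exact ⟨[], by simp, List.Pairwise.nil, by simpa using hB⟩
  | succ n ih =>
    intro B hB
    rcases B.eq_empty_or_nonempty with rfl | ⟨i, hi⟩
    · exact ⟨[], by simp, List.Pairwise.nil, by simp⟩
    · have h1 : (B \ c i).card < B.card :=
        Finset.card_lt_card ⟨Finset.sdiff_subset, fun h => (mem_sdiff.1 (h hi)).2 (hself i)⟩
      obtain ⟨l, hl1, hl2, hl3⟩ := ih (B \ c i) (by omega)
      refine ⟨i :: l, ?_, ?_, ?_⟩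
      · intro x hx
        rcases List.mem_cons.1 hx with rfl | hx
        · exact hi
        · exact (mem_sdiff.1 (hl1 x hx)).1
      · rw [List.pairwise_cons]
        exact ⟨fun x hx => (mem_sdiff.1 (hl1 x hx)).2, hl2⟩
      · have h2 : B.card ≤ (B \ c i).card + (c i).card := by
          rw [← Finset.card_sdiff_add_card_inter B (c i)]
          exact Nat.add_le_add_left (Finset.card_le_card Finset.inter_subset_right) _
        have h3 := hc i
        rw [List.length_cons, mul_add, mul_one]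
        omega

section
universe v w
variable {σ : Type v} [DecidableEq σ] [Fintype σ] {τ : Type w} [Fintype τ] [DecidableEq τ]

/-- vertices reachable in at most `r` double steps -/
def ball (A : τ → Finset σ) : ℕ → σ → Finset σ
  | 0, i => {i}
  | r + 1, i => (ball A r i).biUnion fun x => (univ.filter fun j => x ∈ A j).biUnion A

lemma card_ball (A : τ → Finset σ) (d : ℕ) (hA : ∀ j, (A j).card = d)
    (hAd : ∀ i, (univ.filter fun j => i ∈ A j).card = d) (r : ℕ) (i : σ) :
    (ball A r i).card ≤ (d * d) ^ r := by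
  induction r with
  | zero => simp [ball]
  | succ r ih =>
    rw [ball, pow_succ]
    refine (Finset.card_biUnion_le_card_mul _ _ (d * d) ?_).trans (Nat.mul_le_mul_right _ ih)
    intro x _
    refine (Finset.card_biUnion_le_card_mul _ _ d fun j _ => (hA j).le).trans ?_
    rw [hAd]

lemma ball_step (A : τ → Finset σ) (r : ℕ) (i x y : σ) (j : τ) (hx : x ∈ ball A r i)
    (hxj : x ∈ A j) (hyj : y ∈ A j) : y ∈ ball A (r + 1) i := by
  rw [ball, mem_biUnion]
  refine ⟨x, hx, ?_⟩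
  rw [mem_biUnion]
  exact ⟨j, by simpa using hxj, hyj⟩

lemma ball_mono (A : τ → Finset σ) (hne : ∀ i, ∃ j, i ∈ A j) (i : σ) {r r' : ℕ} (h : r ≤ r') :
    ball A r i ⊆ ball A r' i := by
  induction h with
  | refl => exact Finset.Subset.refl _
  | step h ih =>
    refine ih.trans ?_
    intro x hx
    obtain ⟨j, hj⟩ := hne x
    exact ball_step A _ i x x j hx hj hj

lemma Cyc.mem_ball {A : τ → Finset σ} {m : ℕ} {u : ℕ → σ} {w : ℕ → τ} (h : Cyc A m u w)
    (a : ℕ) (ha : a < m) : u a ∈ ball A a (u 0) := by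
  induction a with
  | zero => simp [ball]
  | succ a ih =>
    exact ball_step A a _ _ _ (w a) (ih (by omega)) (h.inn a ha).1 (h.inn a ha).2

lemma Cyc.back {A : τ → Finset σ} {m : ℕ} {u : ℕ → σ} {w : ℕ → τ} (h : Cyc A m u w) (i : σ)
    (r b : ℕ) (hb : b < m) (hub : u b ∈ ball A r i) : u 0 ∈ ball A (r + b) i := by
  induction b generalizing r with
  | zero => exact hub
  | succ b ih =>
    have := ih (r + 1) (by omega) (ball_step A r i _ _ (w b) hub (h.inn b hb).2 (h.inn b hb).1)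
    rwa [show r + (b + 1) = r + 1 + b by omega]

theorem select_bound (q M : ℕ) (hq : 1 ≤ q) : ∃ β : ℝ, 1 < β ∧
    ∀ (σ : Type v) [DecidableEq σ] [Fintype σ] (τ : Type w) [Fintype τ] [DecidableEq τ]
      (A : τ → Finset σ), (∀ j, (A j).card = q + 1) →
      (∀ i, (univ.filter fun j => i ∈ A j).card = q + 1) →
      ∀ (B : Finset σ), (∀ i ∈ B, ∃ (m : ℕ) (u : ℕ → σ) (w : ℕ → τ), m ≤ M ∧ u 0 = i ∧
        Cyc A m u w) →
      ∃ n : ℕ, B.card ≤ ((q + 1) * (q + 1)) ^ (2 * M) * n ∧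
        (cst (q + 1) * ((q + 1 : ℕ) : ℝ)) ^ Fintype.card σ * β ^ n ≤
          (((Fintype.piFinset A).filter fun g => Function.Bijective g).card : ℝ) := by
  have hε : (0 : ℝ) < 1 / (q : ℝ) ^ (2 * M) := by positivity
  obtain ⟨β, hβ, H⟩ := clusters_bound.{v, w} (q + 1) M (by omega) _ hε
  refine ⟨β, hβ, ?_⟩
  intro σ _ _ τ _ _ A hA hAd B hB
  have hne : ∀ i, ∃ j, i ∈ A j := by
    intro i
    have h1 : 0 < (univ.filter fun j => i ∈ A j).card := by rw [hAd]; omega
    obtain ⟨j, hj⟩ := Finset.card_pos.1 h1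
    exact ⟨j, (mem_filter.1 hj).2⟩
  -- choose the clusters
  have hcl : ∀ i : σ, ∃ (m' : ℕ) (u' : ℕ → σ), i ∈ B → 2 ≤ m' ∧ m' ≤ M ∧
      IsCluster A (q + 1) (1 / (q : ℝ) ^ (2 * M)) m' u' ∧
      (∃ (m : ℕ) (u : ℕ → σ) (w : ℕ → τ), m ≤ M ∧ u 0 = i ∧ Cyc A m u w ∧
        ∀ a < m', ∃ b < m, u' a = u b) := by
    intro i
    by_cases hi : i ∈ B
    · obtain ⟨m, u, w, hm, hu0, hc⟩ := hB i hi
      obtain ⟨m', u', h1, h2, h3, h4⟩ := hc.exists_cluster q A hA hAd m u w
      refine ⟨m', u', fun _ => ⟨h1, by omega, h4.mono (by omega) ?_, m, u, w, hm, hu0, hc, h3⟩⟩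
      apply one_div_le_one_div_of_le (by positivity)
      have hq1 : (1 : ℝ) ≤ q := by exact_mod_cast hq
      exact pow_le_pow_right₀ hq1 (by omega)
    · exact ⟨0, fun _ => i, fun h => absurd h hi⟩
  choose m' u' hmu using hcl
  obtain ⟨l, hl1, hl2, hl3⟩ := greedy (((q + 1) * (q + 1)) ^ (2 * M)) (fun i => ball A (2 * M) i)
    (fun i => card_ball A (q + 1) hA hAd _ i)
    (fun i => ball_mono A hne i (Nat.zero_le _) (by simp [ball])) B.card B le_rfl
  refine ⟨l.length, hl3, ?_⟩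
  refine H σ τ A hA hAd σ l m' u' ?_ ?_
  · intro b hb
    obtain ⟨h1, h2, h3, h4⟩ := hmu b (hl1 b hb)
    exact ⟨h2, h1, h3⟩
  · rw [List.pairwise_iff_forall_sublist] at hl2 ⊢
    intro i i' hsub
    have hne' := hl2 hsub
    have hi : i ∈ B := hl1 i (hsub.subset (by simp))
    have hi' : i' ∈ B := hl1 i' (hsub.subset (by simp))
    obtain ⟨-, -, -, m, u, w, hm, hu0, hc, hran⟩ := hmu i hi
    obtain ⟨-, -, -, n, x, z, hn, hx0, hc', hran'⟩ := hmu i' hi'
    rw [Finset.disjoint_left]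
    intro j hj hj'
    apply hne'
    rw [mem_NB_iff] at hj hj'
    obtain ⟨y, hy, hyj⟩ := hj
    obtain ⟨y', hy', hyj'⟩ := hj'
    rw [List.mem_map] at hy hy'
    obtain ⟨a, ha, rfl⟩ := hy
    obtain ⟨a', ha', rfl⟩ := hy'
    rw [List.mem_range] at ha ha'
    obtain ⟨b, hb, hab⟩ := hran a ha
    obtain ⟨b', hb', hab'⟩ := hran' a' ha'
    have h1 := hc.mem_ball b hb
    rw [hu0] at h1
    rw [hab] at hyj
    rw [hab'] at hyj'
    have h2 := ball_step A b i _ _ j h1 hyj hyj'
    have h3 := hc'.back i _ b' hb' h2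
    rw [hx0] at h3
    exact ball_mono A hne i (by omega) h3

end

end Pool.Agent.H71K9.PM
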