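import Mathlib
import Pool.Agent.H71K9.Select

set_option autoImplicit false
set_option linter.unusedSectionVars false
set_option linter.unusedVariables false

/-!
# From families of sets to graphs
-/

namespace Pool.Agent.H71K9.PM

open MvPolynomial Finset

universe u

/-- the number of perfect matchings of a graph -/
noncomputable def pm {V : Type u} (G : SimpleGraph V) : ℕ :=
  Nat.card {M : G.Subgraph // M.IsPerfectMatching}

/-- the number of cycles of length `k` in a graph -/
noncomputable def cyc {V : Type u} (G : SimpleGraph V) (k : ℕ) : ℕ :=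
  Nat.card {H : G.Subgraph // Nonempty (H.coe ≃g SimpleGraph.cycleGraph k)}

section
variable {V : Type u} [Fintype V] (G : SimpleGraph V) (c : V → Bool)

open Classical in
/-- the neighbours of a right vertex -/
noncomputable def nbr (j : {v // c v = false}) : Finset {v // c v = true} :=
  univ.filter fun i => G.Adj i.1 j.1

lemma mem_nbr (j : {v // c v = false}) (i : {v // c v = true}) :
    i ∈ nbr G c j ↔ G.Adj i.1 j.1 := by
  classical
  simp [nbr]

lemma card_nbr (d : ℕ) (hc : ∀ v w, G.Adj v w → c v ≠ c w)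
    (hreg : ∀ v, (G.neighborSet v).ncard = d) (j : {v // c v = false}) :
    (nbr G c j).card = d := by
  classical
  rw [← hreg j.1, Set.ncard_eq_toFinset_card']
  apply Finset.card_bij (fun i _ => i.1)
  · intro i hi
    rw [mem_nbr] at hi
    simpa using hi.symm
  · intro i _ i' _ h
    exact Subtype.ext h
  · intro v hv
    have hv' : G.Adj j.1 v := by simpa using hv
    have h1 := hc _ _ hv'
    rw [j.2] at h1
    refine ⟨⟨v, ?_⟩, ?_, rfl⟩
    · cases h : c v
      · exact absurd h.symm h1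
      · rfl
    · rw [mem_nbr]; exact hv'.symm

lemma card_nbr' (d : ℕ) (hc : ∀ v w, G.Adj v w → c v ≠ c w)
    (hreg : ∀ v, (G.neighborSet v).ncard = d) (i : {v // c v = true})
    [DecidablePred fun j => i ∈ nbr G c j] :
    (univ.filter fun j => i ∈ nbr G c j).card = d := by
  classical
  rw [← hreg i.1, Set.ncard_eq_toFinset_card']
  apply Finset.card_bij (fun j _ => j.1)
  · intro j hj
    rw [mem_filter, mem_nbr] at hj
    simpa using hj.2
  · intro j _ j' _ h
    exact Subtype.ext h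
  · intro v hv
    have hv' : G.Adj i.1 v := by simpa using hv
    have h1 := hc _ _ hv'
    rw [i.2] at h1
    refine ⟨⟨v, ?_⟩, ?_, rfl⟩
    · cases h : c v
      · rfl
      · exact absurd h.symm h1
    · rw [mem_filter, mem_nbr]; exact ⟨mem_univ _, hv'⟩

/-- the perfect matching of a bijection -/
def matchOf (g : {v // c v = false} → {v // c v = true}) (hg : ∀ j, G.Adj (g j).1 j.1) :
    G.Subgraph where
  verts := Set.univ
  Adj x y := ∃ j, (x = j.1 ∧ y = (g j).1) ∨ (y = j.1 ∧ x = (g j).1)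
  adj_sub := by
    rintro x y ⟨j, ⟨rfl, rfl⟩ | ⟨rfl, rfl⟩⟩
    · exact (hg j).symm
    · exact hg j
  edge_vert := fun _ => Set.mem_univ _
  symm := by
    constructor
    rintro x y ⟨j, h | h⟩
    · exact ⟨j, Or.inr h⟩
    · exact ⟨j, Or.inl h⟩

lemma matchOf_perfect (g : {v // c v = false} → {v // c v = true})
    (hg : ∀ j, G.Adj (g j).1 j.1) (hb : Function.Bijective g) :
    (matchOf G c g hg).IsPerfectMatching := by
  refine ⟨?_, fun v => Set.mem_univ v⟩
  intro v _
  cases h : c v
  · refine ⟨(g ⟨v, h⟩).1, ⟨⟨v, h⟩, Or.inl ⟨rfl, rfl⟩⟩, ?_⟩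
    rintro y ⟨j, ⟨h1, h2⟩ | ⟨h1, h2⟩⟩
    · have : j = ⟨v, h⟩ := Subtype.ext h1.symm
      rw [h2, this]
    · exfalso
      have := (g j).2
      rw [← h2, h] at this
      exact absurd this (by simp)
  · obtain ⟨j, hj⟩ := hb.2 ⟨v, h⟩
    refine ⟨j.1, ⟨j, Or.inr ⟨rfl, by rw [hj]⟩⟩, ?_⟩
    rintro y ⟨j', ⟨h1, h2⟩ | ⟨h1, h2⟩⟩
    · exfalso
      have := j'.2
      rw [← h1, h] at this
      exact absurd this (by simp)
    · rw [h1]
      have : g j' = g j := by rw [hj]; exact Subtype.ext h2.symm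
      rw [hb.1 this]

lemma bij_le_pm [DecidableEq {v // c v = false}] [DecidableEq {v // c v = true}]
    [DecidablePred fun g : {v // c v = false} → {v // c v = true} => Function.Bijective g] :
    ((Fintype.piFinset (nbr G c)).filter fun g => Function.Bijective g).card ≤ pm G := by
  classical
  have hadj : ∀ g ∈ (Fintype.piFinset (nbr G c)).filter fun g => Function.Bijective g,
      ∀ j, G.Adj (g j).1 j.1 := by
    intro g hg j
    rw [mem_filter, Fintype.mem_piFinset] at hg
    exact (mem_nbr G c j (g j)).1 (hg.1 j)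
  rw [← Fintype.card_coe, ← Nat.card_eq_fintype_card, pm]
  apply Nat.card_le_card_of_injective (fun g : {g // g ∈ (Fintype.piFinset (nbr G c)).filter
    fun g => Function.Bijective g} => (⟨matchOf G c g.1 (hadj g.1 g.2),
      matchOf_perfect G c g.1 (hadj g.1 g.2) (mem_filter.1 g.2).2⟩ :
        {M : G.Subgraph // M.IsPerfectMatching}))
  intro g g' h
  apply Subtype.ext
  funext j
  have h1 : (matchOf G c g.1 (hadj g.1 g.2)).Adj j.1 (g.1 j).1 := ⟨j, Or.inl ⟨rfl, rfl⟩⟩
  have h2 : matchOf G c g.1 (hadj g.1 g.2) = matchOf G c g'.1 (hadj g'.1 g'.2) :=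
    congrArg Subtype.val h
  rw [h2] at h1
  obtain ⟨j', ⟨h3, h4⟩ | ⟨h3, h4⟩⟩ := h1
  · have : j = j' := Subtype.ext h3
    rw [this] at h4 ⊢
    exact Subtype.ext h4
  · exfalso
    have := (g'.1 j').2
    rw [← h4, j.2] at this
    exact absurd this (by simp)

end

/-! ### cycles -/

section
variable {V : Type u} (G : SimpleGraph V)

/-- a cyclic sequence of adjacent vertices -/
structure CM (n : ℕ) (φ : Fin (n + 3) → V) : Prop where
  inj : Function.Injective φ
  adj : ∀ i, G.Adj (φ i) (φ (i + 1))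

/-- the rotation of the cycle graph -/
def rot (n : ℕ) : SimpleGraph.cycleGraph (n + 3) ≃g SimpleGraph.cycleGraph (n + 3) where
  toEquiv := Equiv.addRight 1
  map_rel_iff' := by
    intro a b
    simp [SimpleGraph.cycleGraph_adj]

lemma CM_of_iso {n : ℕ} {H : G.Subgraph} (e : H.coe ≃g SimpleGraph.cycleGraph (n + 3)) :
    CM G n (fun i => (e.symm i : V)) := by
  refine ⟨fun i j h => e.symm.injective (Subtype.ext h), ?_⟩
  intro i
  have h1 : (SimpleGraph.cycleGraph (n + 3)).Adj i (i + 1) := by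
    rw [SimpleGraph.cycleGraph_adj]; exact Or.inr (add_sub_cancel_left i 1)
  have h2 := (e.symm.map_rel_iff).2 h1
  exact H.adj_sub h2

lemma subgraph_ext_iso {n : ℕ} {H H' : G.Subgraph} (e : H.coe ≃g SimpleGraph.cycleGraph (n + 3))
    (e' : H'.coe ≃g SimpleGraph.cycleGraph (n + 3))
    (h : (fun i => (e.symm i : V)) = fun i => (e'.symm i : V)) : H = H' := by
  have hv : ∀ (H H' : G.Subgraph) (e : H.coe ≃g SimpleGraph.cycleGraph (n + 3))
      (e' : H'.coe ≃g SimpleGraph.cycleGraph (n + 3)),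
      ((fun i => (e.symm i : V)) = fun i => (e'.symm i : V)) → H ≤ H' := by
    intro H H' e e' h
    constructor
    · intro v hv
      have h1 : ((e.symm (e ⟨v, hv⟩) : H.verts) : V) = v := by rw [e.symm_apply_apply]
      have h2 := congrFun h (e ⟨v, hv⟩)
      rw [h1] at h2
      rw [h2]
      exact (e'.symm _).2
    · intro x y hxy
      have hx := H.edge_vert hxy
      have hy := H.edge_vert hxy.symm
      have h1 : ((e.symm (e ⟨x, hx⟩) : H.verts) : V) = x := by rw [e.symm_apply_apply]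
      have h2 : ((e.symm (e ⟨y, hy⟩) : H.verts) : V) = y := by rw [e.symm_apply_apply]
      have h3 := congrFun h (e ⟨x, hx⟩)
      have h4 := congrFun h (e ⟨y, hy⟩)
      rw [h1] at h3
      rw [h2] at h4
      have h5 : H.coe.Adj ⟨x, hx⟩ ⟨y, hy⟩ := hxy
      have h6 : (SimpleGraph.cycleGraph (n + 3)).Adj (e ⟨x, hx⟩) (e ⟨y, hy⟩) :=
        e.map_rel_iff.2 h5
      have h7 : H'.coe.Adj (e'.symm (e ⟨x, hx⟩)) (e'.symm (e ⟨y, hy⟩)) := e'.symm.map_rel_iff.2 h6
      rw [h3, h4]
      exact h7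
  exact le_antisymm (hv H H' e e' h) (hv H' H e' e h.symm)

/-- the shifted sequence -/
lemma CM.shift {n : ℕ} {φ : Fin (n + 3) → V} (h : CM G n φ) : CM G n (fun i => φ (i + 1)) :=
  ⟨fun i j hij => add_right_cancel (h.inj hij), fun i => h.adj (i + 1)⟩

/-- every cycle has a parametrisation starting at a left vertex -/
lemma exists_iso_left (c : V → Bool) (hc : ∀ v w, G.Adj v w → c v ≠ c w) {n : ℕ}
    {H : G.Subgraph} (e : H.coe ≃g SimpleGraph.cycleGraph (n + 3)) :
    ∃ e' : H.coe ≃g SimpleGraph.cycleGraph (n + 3), c (e'.symm 0) = true := by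
  cases h : c (e.symm 0)
  · refine ⟨e.trans (rot n).symm, ?_⟩
    have h1 := (CM_of_iso G e).adj 0
    have h2 := hc _ _ h1
    rw [h] at h2
    have h3 : (e.trans (rot n).symm).symm 0 = e.symm (0 + 1) := rfl
    rw [h3]
    cases h4 : c (e.symm (0 + 1))
    · exact absurd h4.symm h2
    · rfl
  · exact ⟨e, h⟩

variable [Fintype V]

lemma exists_code (d : ℕ) (hd : 0 < d) (S : Set V) (hS : S.ncard = d) :
    ∃ f : V → Fin d, Set.InjOn f S := by
  classical
  haveI : Finite S := Set.toFinite S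
  have e : S ≃ Fin d := Finite.equivFinOfCardEq (by rw [← hS, Nat.card_coe_set_eq])
  refine ⟨fun x => if h : x ∈ S then e ⟨x, h⟩ else ⟨0, hd⟩, ?_⟩
  intro x hx y hy hxy
  simp only [hx, hy, dif_pos] at hxy
  exact congrArg Subtype.val (e.injective hxy)

/-- counting the parametrisations -/
lemma card_param (n d : ℕ) (hd : 0 < d) (hreg : ∀ v, (G.neighborSet v).ncard = d) (B : Finset V)
    (P : Set (Fin (n + 3) → V)) (hP : ∀ φ ∈ P, φ 0 ∈ B ∧ ∀ i, G.Adj (φ i) (φ (i + 1))) :
    P.ncard ≤ B.card * d ^ (n + 3) := by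
  classical
  choose f hf using fun v => exists_code (V := V) d hd (G.neighborSet v) (hreg v)
  set T : Finset (V × (Fin (n + 3) → Fin d)) := B ×ˢ univ with hT
  have hTcard : T.card = B.card * d ^ (n + 3) := by
    rw [hT, Finset.card_product, Finset.card_univ, Fintype.card_fun, Fintype.card_fin,
      Fintype.card_fin]
  rw [← hTcard, ← Set.ncard_coe_finset T]
  apply Set.ncard_le_ncard_of_injOn (fun φ => (φ 0, fun i => f (φ i) (φ (i + 1))))
  · intro φ hφ
    rw [Finset.mem_coe, hT, Finset.mem_product]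
    exact ⟨(hP φ hφ).1, mem_univ _⟩
  · intro φ hφ φ' hφ' h
    rw [Prod.mk.injEq] at h
    obtain ⟨h0, h1⟩ := h
    funext i
    induction i using Fin.induction with
    | zero => exact h0
    | succ i ih =>
      have h2 : f (φ i.castSucc) (φ (i.castSucc + 1)) = f (φ' i.castSucc) (φ' (i.castSucc + 1)) :=
        congrFun h1 i.castSucc
      rw [ih] at h2
      have h3 := hf (φ' i.castSucc) (by
        have := (hP φ hφ).2 i.castSucc
        rw [ih] at this
        exact this) ((hP φ' hφ').2 i.castSucc) h2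
      rwa [Fin.coeSucc_eq_succ] at h3

/-- reduction modulo `n + 3` -/
def ct (n a : ℕ) : Fin (n + 3) := Fin.ofNat (n + 3) a

lemma ct_succ (n a : ℕ) : ct n (a + 1) = ct n a + 1 := by
  unfold ct
  apply Fin.ext
  simp [Fin.val_add]

lemma ct_self (n : ℕ) : ct n (n + 3) = 0 := by
  unfold ct
  apply Fin.ext
  simp

lemma ct_zero (n : ℕ) : ct n 0 = 0 := by
  unfold ct
  apply Fin.ext
  simp

lemma ct_val (n a : ℕ) (h : a < n + 3) : (ct n a).val = a := by
  unfold ct
  simp [Nat.mod_eq_of_lt h]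

/-- a closed parametrisation gives a cyclic structure -/
lemma CM.toCyc (c : V → Bool) (hc : ∀ v w, G.Adj v w → c v ≠ c w) {n : ℕ}
    {φ : Fin (n + 3) → V} (h : CM G n φ) (h0 : c (φ 0) = true)
    [DecidableEq {v // c v = false}] [DecidableEq {v // c v = true}] :
    ∃ (m : ℕ) (u : ℕ → {v // c v = true}) (w : ℕ → {v // c v = false}), m ≤ n + 3 ∧
      (u 0).1 = φ 0 ∧ Cyc (nbr G c) m u w := by
  have hcol : ∀ a : ℕ, c (φ (ct n a)) = (decide (a % 2 = 0)) := by
    intro a
    induction a with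
    | zero => simpa [ct_zero] using h0
    | succ a ih =>
      have h1 := hc _ _ (h.adj (ct n a))
      rw [ih] at h1
      rw [ct_succ]
      rcases Nat.mod_two_eq_zero_or_one a with h3 | h3
      · have h4 : (a + 1) % 2 = 1 := by omega
        rw [h3] at h1
        rw [h4]
        simpa using h1
      · have h4 : (a + 1) % 2 = 0 := by omega
        rw [h3] at h1
        rw [h4]
        simpa using h1
  have heven : (n + 3) % 2 = 0 := by
    have h1 := hcol (n + 3)
    rw [ct_self, h0] at h1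
    simpa using h1.symm
  obtain ⟨m, hm⟩ : ∃ m, n + 3 = 2 * m := ⟨(n + 3) / 2, by omega⟩
  have hinj : ∀ a < n + 3, ∀ b < n + 3, φ (ct n a) = φ (ct n b) → a = b := by
    intro a ha b hb hab
    have h1 := congrArg Fin.val (h.inj hab)
    rwa [ct_val n a ha, ct_val n b hb] at h1
  have hadj : ∀ a : ℕ, G.Adj (φ (ct n a)) (φ (ct n (a + 1))) := by
    intro a
    rw [ct_succ]; exact h.adj _
  refine ⟨m, fun a => ⟨φ (ct n (2 * a)), by rw [hcol]; simp⟩,
    fun a => ⟨φ (ct n (2 * a + 1)), by rw [hcol]; simp [Nat.add_mod]⟩,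
    by omega, ?_, ?_⟩
  · simp [ct_zero]
  · refine ⟨by omega, ?_, ?_, ?_, ?_⟩
    · intro a ha b hb hab
      have := hinj _ (by omega) _ (by omega) (congrArg Subtype.val hab)
      omega
    · intro a ha b hb hab
      have := hinj _ (by omega) _ (by omega) (congrArg Subtype.val hab)
      omega
    · intro a ha
      rw [mem_nbr, mem_nbr]
      exact ⟨hadj (2 * a), (hadj (2 * a + 1)).symm⟩
    · rw [mem_nbr, mem_nbr]
      refine ⟨hadj (2 * (m - 1)), ?_⟩
      have h3 := (hadj (2 * (m - 1) + 1)).symm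
      have h4 : 2 * (m - 1) + 1 + 1 = n + 3 := by omega
      rw [h4, ct_self, ← ct_zero n] at h3
      exact h3

/-- the number of cycles -/
lemma cyc_le (c : V → Bool) (hc : ∀ v w, G.Adj v w → c v ≠ c w) (n d : ℕ) (hd : 0 < d)
    (hreg : ∀ v, (G.neighborSet v).ncard = d) (B : Finset V)
    (hB : ∀ φ : Fin (n + 3) → V, CM G n φ → c (φ 0) = true → φ 0 ∈ B) :
    cyc G (n + 3) ≤ B.card * d ^ (n + 3) := by
  classical
  set P : Set (Fin (n + 3) → V) := {φ | CM G n φ ∧ c (φ 0) = true} with hP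
  refine le_trans ?_ (card_param G n d hd hreg B P ?_)
  · rw [cyc, ← Nat.card_coe_set_eq]
    have hch : ∀ H : {H : G.Subgraph // Nonempty (H.coe ≃g SimpleGraph.cycleGraph (n + 3))},
        ∃ e' : H.1.coe ≃g SimpleGraph.cycleGraph (n + 3), c (e'.symm 0) = true :=
      fun H => exists_iso_left G c hc H.2.some
    choose e he using hch
    apply Nat.card_le_card_of_injective (fun H => (⟨fun i => ((e H).symm i : V),
      CM_of_iso G (e H), he H⟩ : P))
    intro H H' h
    exact Subtype.ext (subgraph_ext_iso G (e H) (e H') (congrArg Subtype.val h))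
  · intro φ hφ
    exact ⟨hB φ hφ.1 hφ.2, hφ.1.adj⟩

/-- no cycles in `1`-regular graphs -/
lemma no_CM (n : ℕ) (hreg : ∀ v, (G.neighborSet v).ncard = 1) (φ : Fin (n + 3) → V) :
    ¬ CM G n φ := by
  intro h
  have h1 := h.adj 0
  have h2 := (h.adj (-1)).symm
  rw [neg_add_cancel] at h2
  obtain ⟨x, hx⟩ := Set.ncard_eq_one.1 (hreg (φ 0))
  have h3 : φ (0 + 1) ∈ G.neighborSet (φ 0) := h1
  have h4 : φ (-1) ∈ G.neighborSet (φ 0) := h2
  rw [hx, Set.mem_singleton_iff] at h3 h4
  have h5 := h.inj (h3.trans h4.symm)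
  have h6 : (1 : Fin (n + 3)) + 1 = 0 := by
    rw [zero_add] at h5
    nth_rewrite 1 [h5]
    exact neg_add_cancel 1
  have h7 := congrArg Fin.val h6
  rw [Fin.val_add] at h7
  simp at h7
  have h8 : 1 % (n + 3) = 1 := Nat.mod_eq_of_lt (by omega)
  have h9 : 2 % (n + 3) = 2 := Nat.mod_eq_of_lt (by omega)
  omega

end

end Pool.Agent.H71K9.PM
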