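import Mathlib
import Pool.Agent.H71K9.GraphLayer

set_option autoImplicit false
set_option linter.unusedSectionVars false
set_option linter.unusedVariables false

/-!
# The final bound for regular bipartite graphs
-/

namespace Pool.Agent.H71K9.PM

open MvPolynomial Finset

universe u

/-- the Schrijver constant -/
noncomputable def lam (d : ℕ) : ℝ :=
  1 / 2 * Real.log (((d : ℝ) - 1) ^ ((d : ℤ) - 1) / (d : ℝ) ^ ((d : ℤ) - 2))

lemma lam_one : lam 1 = 0 := by
  simp [lam]

lemma lam_eq (q : ℕ) (hq : 1 ≤ q) :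
    2 * lam (q + 1) = Real.log (cst (q + 1) * ((q + 1 : ℕ) : ℝ)) := by
  have hq0 : (q : ℝ) ≠ 0 := by positivity
  have hq1 : (q : ℝ) + 1 ≠ 0 := by positivity
  rw [lam, cst_eq]
  have h1 : (((q + 1 : ℕ) : ℤ) - 1) = ((q : ℕ) : ℤ) := by push_cast; ring
  have h2 : (((q + 1 : ℕ) : ℤ) - 2) = ((q - 1 : ℕ) : ℤ) := by omega
  have h3 : (((q + 1 : ℕ) : ℝ) - 1) = q := by push_cast; ring
  rw [h1, h2, h3, zpow_natCast, zpow_natCast]
  push_cast
  have h4 : (q : ℝ) ^ q / ((q : ℝ) + 1) ^ (q - 1) = ((q : ℝ) / (q + 1)) ^ q * (q + 1) := by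
    obtain ⟨r, rfl⟩ : ∃ r, q = r + 1 := ⟨q - 1, by omega⟩
    rw [Nat.add_sub_cancel, div_pow, pow_succ (((r + 1 : ℕ) : ℝ) + 1) r]
    field_simp
  rw [h4]
  ring

theorem quant (d k : ℕ) (hd : 1 ≤ d) (hk : 3 ≤ k) : ∃ δ : ℝ, 0 < δ ∧
    ∀ (V : Type u) [Fintype V] (G : SimpleGraph V), G.IsBipartite →
      (∀ v, (G.neighborSet v).ncard = d) →
      lam d * Nat.card V + δ * cyc G k ≤ Real.log (pm G) := by
  classical
  obtain ⟨n, rfl⟩ : ∃ n, k = n + 3 := ⟨k - 3, by omega⟩
  have hcolor : ∀ (V : Type u) (G : SimpleGraph V), G.IsBipartite →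
      ∃ c : V → Bool, ∀ v w, G.Adj v w → c v ≠ c w := by
    rintro V G ⟨c⟩
    refine ⟨fun v => decide (c v = 0), ?_⟩
    intro v w hvw h
    have h1 := c.valid hvw
    have h2 : c v = 0 ↔ c w = 0 := by simpa using h
    apply h1
    rcases Fin.exists_fin_two.1 ⟨c v, rfl⟩ with h3 | h3 <;>
      rcases Fin.exists_fin_two.1 ⟨c w, rfl⟩ with h4 | h4 <;> simp_all
  rcases Nat.lt_or_ge 1 d with hd2 | hd1
  · obtain ⟨q, rfl⟩ : ∃ q, d = q + 1 := ⟨d - 1, by omega⟩
    have hq : 1 ≤ q := by omega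
    obtain ⟨β, hβ, H⟩ := select_bound.{u, u} q (n + 3) hq
    have hlog : 0 < Real.log β := Real.log_pos hβ
    set Δ : ℕ := ((q + 1) * (q + 1)) ^ (2 * (n + 3)) with hΔ
    have hΔ0 : (0 : ℝ) < Δ := by rw [hΔ]; positivity
    have hd0 : (0 : ℝ) < ((q + 1 : ℕ) : ℝ) ^ (n + 3) := by positivity
    refine ⟨Real.log β / (Δ * ((q + 1 : ℕ) : ℝ) ^ (n + 3)), by positivity, ?_⟩
    intro V _ G hbip hreg
    obtain ⟨c, hc⟩ := hcolor V G hbip
    have hA := fun j => card_nbr G c (q + 1) hc hreg j
    have hAd : ∀ i, (univ.filter fun j => i ∈ nbr G c j).card = q + 1 :=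
      fun i => card_nbr' G c (q + 1) hc hreg i
    set B : Finset {v // c v = true} := univ.filter fun i =>
      ∃ (m : ℕ) (u : ℕ → {v // c v = true}) (w : ℕ → {v // c v = false}), m ≤ n + 3 ∧
        u 0 = i ∧ Cyc (nbr G c) m u w with hB
    obtain ⟨N, hN1, hN2⟩ := H {v // c v = true} {v // c v = false} (nbr G c) hA hAd B
      (fun i hi => (mem_filter.1 hi).2)
    have hcyc := cyc_le G c hc n (q + 1) (by omega) hreg (B.map (Function.Embedding.subtype _)) (by
      intro φ hφ h0
      obtain ⟨m, u, w, hm, hu0, hcy⟩ := hφ.toCyc G c hc h0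
      rw [Finset.mem_map]
      refine ⟨u 0, ?_, hu0⟩
      rw [hB, mem_filter]
      exact ⟨mem_univ _, m, u, w, hm, rfl, hcy⟩)
    rw [Finset.card_map] at hcyc
    have hpm := bij_le_pm G c
    have hcard : Fintype.card {v // c v = false} = Fintype.card {v // c v = true} := by
      have h1 : ∑ j : {v // c v = false}, (nbr G c j).card =
          ∑ i : {v // c v = true}, (univ.filter fun j => i ∈ nbr G c j).card := by
        simp only [Finset.card_eq_sum_ones, Finset.sum_filter]
        rw [Finset.sum_comm]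
        apply Finset.sum_congr rfl
        intro j _
        rw [Finset.sum_ite_mem, Finset.univ_inter]
      simp only [hA, hAd, Finset.sum_const, Finset.card_univ, smul_eq_mul] at h1
      exact Nat.eq_of_mul_eq_mul_right (by omega) h1
    have hV : Nat.card V = 2 * Fintype.card {v // c v = true} := by
      rw [Nat.card_eq_fintype_card]
      have h1 : Fintype.card V = Fintype.card {v // c v = true} +
          Fintype.card {v // ¬ c v = true} := by
        rw [← Fintype.card_sum]
        exact Fintype.card_congr (Equiv.sumCompl _).symm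
      have h2 : Fintype.card {v // ¬ c v = true} = Fintype.card {v // c v = false} :=
        Fintype.card_congr (Equiv.subtypeEquivRight fun v => by simp)
      omega
    have hcst : 0 < cst (q + 1) * ((q + 1 : ℕ) : ℝ) := by
      have := cst_pos (q + 1) (by omega)
      positivity
    have hβ0 : 0 < β := by linarith
    have h1 : (cst (q + 1) * ((q + 1 : ℕ) : ℝ)) ^ Fintype.card {v // c v = true} * β ^ N ≤
        (pm G : ℝ) := hN2.trans (by exact_mod_cast hpm)
    have h2 := Real.log_le_log (by positivity) h1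
    rw [Real.log_mul (by positivity) (by positivity), Real.log_pow, Real.log_pow,
      ← lam_eq q hq] at h2
    have h3 : (cyc G (n + 3) : ℝ) ≤ Δ * N * ((q + 1 : ℕ) : ℝ) ^ (n + 3) := by
      have h4 : cyc G (n + 3) ≤ Δ * N * (q + 1) ^ (n + 3) :=
        hcyc.trans (Nat.mul_le_mul_right _ hN1)
      exact_mod_cast h4
    have h5 : Real.log β / (Δ * ((q + 1 : ℕ) : ℝ) ^ (n + 3)) * cyc G (n + 3) ≤
        N * Real.log β := by
      calc Real.log β / (Δ * ((q + 1 : ℕ) : ℝ) ^ (n + 3)) * cyc G (n + 3)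
          ≤ Real.log β / (Δ * ((q + 1 : ℕ) : ℝ) ^ (n + 3)) *
            (Δ * N * ((q + 1 : ℕ) : ℝ) ^ (n + 3)) :=
            mul_le_mul_of_nonneg_left h3 (by positivity)
        _ = N * Real.log β := by field_simp
    rw [hV]
    push_cast at h2 h5 ⊢
    linarith
  · have hd1' : d = 1 := by omega
    subst hd1'
    refine ⟨1, one_pos, ?_⟩
    intro V _ G hbip hreg
    have h0 : cyc G (n + 3) = 0 := by
      rw [cyc]
      have : IsEmpty {H : G.Subgraph // Nonempty (H.coe ≃g SimpleGraph.cycleGraph (n + 3))} := by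
        constructor
        rintro ⟨H, ⟨e⟩⟩
        exact no_CM G n hreg _ (CM_of_iso G e)
      exact Nat.card_of_isEmpty
    rw [h0, lam_one]
    have := Real.log_natCast_nonneg (pm G)
    simpa using this

end Pool.Agent.H71K9.PM
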